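import Pool.Agent.Lib.Pf720ae.Poly.Transfer
import Pool.Agent.Lib.Pf720ae.Principle

/-!
# Strong maximal inequality for separable polynomial families of commuting maps
-/

set_option autoImplicit false
set_option linter.unusedSectionVars false

open MeasureTheory Filter Topology Finset
open scoped ENNReal NNReal

namespace Pool.Agent.Lib.Pf720ae

variable {κ : Type} [Fintype κ] [DecidableEq κ]
variable {X : Type} [MeasurableSpace X] {μ : Measure X}

/-- strong `L²` maximal inequality for the box averages of a family of maps -/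
def MaxBd (μ : Measure X) (S : (κ → ℕ) → X → X) : Prop :=
  ∃ A : ℝ≥0∞, A ≠ ⊤ ∧ ∀ g : X → ℝ≥0∞, Measurable g →
    ∫⁻ x, (NS S g x) ^ 2 ∂μ ≤ A * ∫⁻ x, (g x) ^ 2 ∂μ

/-- iteration over the coordinates -/
theorem maxBd_of_coord {S : (κ → ℕ) → X → X} (h0 : ∀ x, S 0 x = x)
    (hS : ∀ m, Measurable (S m))
    (hsep : ∀ (a : κ) (m : κ → ℕ) (t : ℕ), m a = 0 → ∀ x,
      S (m + Pi.single a t) x = S m (S (Pi.single a t) x))
    (h1 : ∀ a : κ, ∃ A : ℝ≥0∞, A ≠ ⊤ ∧ ∀ g : X → ℝ≥0∞, Measurable g →
      ∫⁻ x, (⨆ N : ℕ, ((N : ℝ≥0∞) + 1)⁻¹ * ∑ t ∈ range (N + 1), g (S (Pi.single a t) x)) ^ 2 ∂μ ≤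
        A * ∫⁻ x, (g x) ^ 2 ∂μ) : MaxBd μ S := by
  choose A hA hAg using h1
  have hmain : ∀ s : Finset κ, ∀ g : X → ℝ≥0∞, Measurable g →
      ∫⁻ x, (PN S s g x) ^ 2 ∂μ ≤ (∏ a ∈ s, A a) * ∫⁻ x, (g x) ^ 2 ∂μ := by
    intro s
    induction s using Finset.induction_on with
    | empty =>
      intro g hg
      have : ∀ x, PN S ∅ g x = g x := by
        intro x
        have h1 : ∀ M : κ → ℕ, boxs (∅ : Finset κ) M = {0} := by
          intro M
          ext m
          rw [mem_boxs]
          simp [funext_iff]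
        simp [PN, h1, h0]
      simp [this]
    | insert a s ha ih =>
      intro g hg
      have hle : ∀ x, PN S (insert a s) g x ≤
          ⨆ N : ℕ, ((N : ℝ≥0∞) + 1)⁻¹ * ∑ t ∈ range (N + 1), PN S s g (S (Pi.single a t) x) := by
        intro x
        refine iSup_le fun M => ?_
        refine le_trans ?_ (le_iSup _ (M a))
        rw [Finset.prod_insert ha, ENNReal.mul_inv (Or.inl (by simp)) (Or.inl (by finiteness)),
          sum_boxs_insert ha, mul_assoc, Finset.mul_sum]
        gcongr with t _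
        refine le_trans (le_of_eq ?_) (le_iSup _ M)
        congr 1
        refine Finset.sum_congr rfl fun m hm => ?_
        rw [hsep a m t]
        have := mem_boxs.1 hm a
        rwa [if_neg ha] at this
      calc ∫⁻ x, (PN S (insert a s) g x) ^ 2 ∂μ
          ≤ ∫⁻ x, (⨆ N : ℕ, ((N : ℝ≥0∞) + 1)⁻¹ *
              ∑ t ∈ range (N + 1), PN S s g (S (Pi.single a t) x)) ^ 2 ∂μ := by
            gcongr with x
            exact hle x
        _ ≤ A a * ∫⁻ x, (PN S s g x) ^ 2 ∂μ := hAg a _ (measurable_PN hS s hg)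
        _ ≤ A a * ((∏ a ∈ s, A a) * ∫⁻ x, (g x) ^ 2 ∂μ) := by gcongr; exact ih g hg
        _ = (∏ a ∈ insert a s, A a) * ∫⁻ x, (g x) ^ 2 ∂μ := by
            rw [Finset.prod_insert ha, mul_assoc]
  exact ⟨∏ a, A a, ENNReal.prod_ne_top fun a _ => hA a, fun g hg => hmain Finset.univ g hg⟩

lemma MaxBd.post {S : (κ → ℕ) → X → X} (h : MaxBd μ S) {τ : X → X}
    (hτ : MeasurePreserving τ μ μ) : MaxBd μ (fun m x => τ (S m x)) := by
  obtain ⟨A, hA, hg⟩ := h
  refine ⟨A, hA, fun g hgm => ?_⟩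
  have h1 := hg (fun x => g (τ x)) (hgm.comp hτ.measurable)
  have h2 : ∫⁻ x, (g (τ x)) ^ 2 ∂μ = ∫⁻ x, (g x) ^ 2 ∂μ := hτ.lintegral_comp (hgm.pow_const 2)
  rw [h2] at h1
  exact h1

lemma MaxBd.congr {S S' : (κ → ℕ) → X → X} (h : MaxBd μ S) (hS : ∀ m x, S m x = S' m x) :
    MaxBd μ S' := by
  have : S = S' := funext fun m => funext fun x => hS m x
  rwa [← this]

/-- actions satisfy the strong maximal inequality -/
lemma maxBd_of_action [IsFiniteMeasure μ] {U : (κ → ℕ) → X → X} (hU0 : ∀ x, U 0 x = x)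
    (hUadd : ∀ m n x, U (m + n) x = U m (U n x)) (hUmp : ∀ m, MeasurePreserving (U m) μ μ) :
    MaxBd μ U :=
  ⟨4 ^ (Fintype.card κ), by finiteness, fun _ hg => lintegral_NS_sq hU0 hUadd hUmp hg⟩

/-- separable polynomial families of commuting maps -/
theorem maxBd_poly {d : ℕ} {act : (Fin d → ℤ) → X → X} (h0 : ∀ x, act 0 x = x)
    (hadd : ∀ p q x, act (p + q) x = act p (act q x)) (hmp : ∀ p, MeasurePreserving (act p) μ μ)
    (p : κ → Fin d → Polynomial ℤ) :
    MaxBd μ (fun (m : κ → ℕ) x => act (fun i => ∑ l, (p l i).eval ((m l : ℕ) : ℤ)) x) := by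
  set S : (κ → ℕ) → X → X := fun m x =>
    act (fun i => ∑ l, ((p l i).eval ((m l : ℕ) : ℤ) - (p l i).eval 0)) x with hS
  have hsingle : ∀ (a : κ) (t : ℕ), (fun i => ∑ l, ((p l i).eval (((Pi.single a t : κ → ℕ) l : ℕ) : ℤ) -
      (p l i).eval 0)) = fun i => (p a i).eval (t : ℤ) - (p a i).eval 0 := by
    intro a t
    funext i
    rw [Finset.sum_eq_single a]
    · rw [Pi.single_eq_same]
    · intro b _ hb
      rw [Pi.single_eq_of_ne hb]
      simp
    · intro h
      exact absurd (Finset.mem_univ a) h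
  have hmain : MaxBd μ S := by
    refine maxBd_of_coord (fun x => ?_) (fun m => (hmp _).measurable) (fun a m t hma x => ?_)
      (fun a => ?_)
    · have h1 : (fun i => ∑ l, ((p l i).eval (((0 : κ → ℕ) l : ℕ) : ℤ) - (p l i).eval 0)) =
          (0 : Fin d → ℤ) := by
        funext i
        simp
      simp only [hS]
      rw [h1]
      exact h0 x
    · simp only [hS]
      rw [← hadd]
      congr 1
      funext i
      rw [Pi.add_apply, ← Finset.sum_add_distrib]
      refine Finset.sum_congr rfl fun l _ => ?_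
      by_cases hl : l = a
      · subst hl
        simp [hma]
      · simp [Pi.single_eq_of_ne hl]
    · set D : ℕ := ∑ i, (p a i).natDegree with hD
      obtain ⟨A, -, hA⟩ := Poly.curve_max D
      refine ⟨ENNReal.ofReal A, ENNReal.ofReal_ne_top, fun g hg => ?_⟩
      set R : (Fin D → ℕ) → X → X := fun v x =>
        act (fun i => ∑ e : Fin D, (p a i).coeff ((e : ℕ) + 1) * (v e : ℤ)) x with hR
      have h1 := hA X μ R (fun m n x => by
        simp only [hR]
        rw [← hadd]
        congr 1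
        funext i
        rw [Pi.add_apply, ← Finset.sum_add_distrib]
        refine Finset.sum_congr rfl fun e _ => ?_
        rw [Pi.add_apply]
        push_cast
        ring) (fun m => hmp _) g hg
      refine le_trans (le_of_eq ?_) h1
      have h2 : ∀ (t : ℕ) x, S (Pi.single a t) x = R (Poly.cur t) x := by
        intro t x
        simp only [hS, hR]
        rw [hsingle a t]
        congr 1
        funext i
        have hdeg : (p a i).natDegree < D + 1 := by
          have : (p a i).natDegree ≤ D :=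
            Finset.single_le_sum (f := fun i => (p a i).natDegree) (fun _ _ => Nat.zero_le _)
              (Finset.mem_univ i)
          omega
        rw [Polynomial.eval_eq_sum_range' hdeg, Finset.sum_range_succ']
        rw [← Polynomial.coeff_zero_eq_eval_zero, pow_zero, mul_one, add_sub_cancel_right,
          ← Fin.sum_univ_eq_sum_range (fun e => (p a i).coeff (e + 1) * (t : ℤ) ^ (e + 1)) D]
        refine Finset.sum_congr rfl fun e _ => ?_
        unfold Poly.cur
        push_cast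
        rfl
      unfold Poly.CN
      simp only [h2]
  have h2 := hmain.post (hmp (fun i => ∑ l, (p l i).eval 0))
  refine h2.congr fun m x => ?_
  simp only [hS]
  rw [← hadd]
  congr 1
  funext i
  rw [Pi.add_apply, ← Finset.sum_add_distrib]
  exact Finset.sum_congr rfl fun l _ => by ring

variable {U : (κ → ℕ) → X → X} {W : X → Set ((κ → ℕ) → ℝ)}

/-- closedness, for families with the strong maximal inequality -/
lemma Cv.of_tendsto_max [IsFiniteMeasure μ] (hMax : MaxBd μ U)
    (hU : ∀ m, MeasurePreserving (U m) μ μ) (hW : ∀ x, ∀ w ∈ W x, ∀ m, |w m| ≤ 1)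
    {φ : X → ℝ} (hφ : Measurable φ) {ψ : ℕ → X → ℝ} (hψ : ∀ n, Measurable (ψ n))
    (hC : ∀ n, Cv μ U W (ψ n))
    (ht : Tendsto (fun n => ∫⁻ x, (ENNReal.ofReal |φ x - ψ n x|) ^ 2 ∂μ) atTop (𝓝 0)) :
    Cv μ U W φ := by
  obtain ⟨A, hA, hmax⟩ := hMax
  set g : ℕ → X → ℝ≥0∞ := fun n x => ENNReal.ofReal |φ x - ψ n x| with hg
  have hgm : ∀ n, Measurable (g n) := fun n =>
    (continuous_abs.measurable.comp (hφ.sub (hψ n))).ennreal_ofReal
  have hUm : ∀ m, Measurable (U m) := fun m => (hU m).measurable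
  have hlim : ∫⁻ x, liminf (fun n => (NS U (g n) x) ^ 2) atTop ∂μ = 0 := by
    have h1 : ∫⁻ x, liminf (fun n => (NS U (g n) x) ^ 2) atTop ∂μ
        ≤ liminf (fun n => ∫⁻ x, (NS U (g n) x) ^ 2 ∂μ) atTop :=
      lintegral_liminf_le fun n => (measurable_NS hUm (hgm n)).pow_const 2
    have h2 : Tendsto (fun n => ∫⁻ x, (NS U (g n) x) ^ 2 ∂μ) atTop (𝓝 0) := by
      have h3 : Tendsto (fun n => A * ∫⁻ x, (g n x) ^ 2 ∂μ) atTop (𝓝 (A * 0)) :=
        ENNReal.Tendsto.const_mul ht (Or.inr hA)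
      rw [mul_zero] at h3
      exact tendsto_of_tendsto_of_tendsto_of_le_of_le tendsto_const_nhds h3
        (fun _ => zero_le) (fun n => hmax _ (hgm n))
    rw [h2.liminf_eq] at h1
    exact le_antisymm h1 zero_le
  have hae : ∀ᵐ x ∂μ, liminf (fun n => (NS U (g n) x) ^ 2) atTop = 0 := by
    rw [lintegral_eq_zero_iff (Measurable.liminf fun n =>
      (measurable_NS hUm (hgm n)).pow_const 2)] at hlim
    exact hlim
  have hCall : ∀ᵐ x ∂μ, ∀ n, ∀ w ∈ W x, Cvg fun m => ψ n (U m x) * w m := ae_all_iff.2 hC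
  filter_upwards [hae, hCall] with x hx hCx w hw
  refine exists_tendsto_of_approx _ fun ε hε => ?_
  have h1 : liminf (fun n => (NS U (g n) x) ^ 2) atTop < (ENNReal.ofReal ε) ^ 2 := by
    rw [hx]
    have : 0 < ENNReal.ofReal ε := ENNReal.ofReal_pos.2 hε
    positivity
  obtain ⟨n, hn⟩ := (frequently_lt_of_liminf_lt (by isBoundedDefault) h1).exists
  have hn' : NS U (g n) x < ENNReal.ofReal ε := by
    by_contra hcon
    exact absurd hn (not_lt.2 (pow_le_pow_left' (not_lt.1 hcon) 2))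
  refine ⟨fun M => avg M fun m => ψ n (U m x) * w m, hCx n w hw, ?_⟩
  filter_upwards [eventually_pos] with M hM
  rw [← avg_sub]
  have h2 : |avg M fun m => φ (U m x) * w m - ψ n (U m x) * w m|
      ≤ avg M fun m => |φ (U m x) - ψ n (U m x)| := by
    refine (abs_avg_le _ _).trans (avg_mono M fun m => ?_)
    rw [← sub_mul, abs_mul]
    exact mul_le_of_le_one_right (abs_nonneg _) (hW x w hw m)
  refine h2.trans ?_
  have h3 := ofReal_avg_le_NS (U := U) hM (fun x => |φ x - ψ n x|) (fun x => abs_nonneg _) x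
  have h4 : ENNReal.ofReal (avg M fun m => |φ (U m x) - ψ n (U m x)|) < ENNReal.ofReal ε :=
    lt_of_le_of_lt h3 hn'
  exact ((ENNReal.ofReal_lt_ofReal_iff hε).1 h4).le

/-- The principle: to show convergence for all square integrable functions it is enough to show
it for those orthogonal to all bounded good functions. -/
theorem principle_max [IsFiniteMeasure μ] (hMax : MaxBd μ U)
    (hU : ∀ m, MeasurePreserving (U m) μ μ)
    (hW : ∀ x, ∀ w ∈ W x, ∀ m, |w m| ≤ 1)
    (h : ∀ φ : X → ℝ, Measurable φ → MemLp φ 2 μ →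
      (∀ ψ : X → ℝ, Measurable ψ → (∀ x, |ψ x| ≤ 1) → Cv μ U W ψ → ∫ x, φ x * ψ x ∂μ = 0) →
      Cv μ U W φ)
    (φ : X → ℝ) (hφ : MemLp φ 2 μ) : Cv μ U W φ := by
  -- the subspace
  let V : Submodule ℝ (Lp ℝ 2 μ) :=
    { carrier := {f | Cv μ U W f}
      add_mem' := by
        intro f g hf hg
        exact Cv.congr hU (Lp.coeFn_add f g).symm (Cv.add hf hg)
      zero_mem' := Cv.congr hU (Lp.coeFn_zero ℝ 2 μ).symm Cv.zero
      smul_mem' := by
        intro c f hf
        exact Cv.congr hU (Lp.coeFn_smul c f).symm (Cv.smul hf c) }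
  have hVmem : ∀ f : Lp ℝ 2 μ, f ∈ V ↔ Cv μ U W f := fun f => Iff.rfl
  have hVclosed : IsClosed (V : Set (Lp ℝ 2 μ)) := by
    refine IsSeqClosed.isClosed ?_
    intro fn f hfn hlim
    have hmf : Measurable (fun x => f x) := (Lp.stronglyMeasurable f).measurable
    have hmfn : ∀ n, Measurable (fun x => fn n x) := fun n =>
      (Lp.stronglyMeasurable (fn n)).measurable
    refine Cv.of_tendsto_max hMax hU hW hmf hmfn hfn ?_
    rw [Lp.tendsto_Lp_iff_tendsto_eLpNorm'] at hlim
    have h1 : ∀ n, ∫⁻ x, (ENNReal.ofReal |f x - fn n x|) ^ 2 ∂μ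
        = (eLpNorm (⇑(fn n) - ⇑f) 2 μ) ^ 2 := by
      intro n
      rw [eLpNorm_eq_lintegral_rpow_enorm_toReal (by norm_num) (by norm_num)]
      simp only [ENNReal.toReal_ofNat, Pi.sub_apply]
      rw [← ENNReal.rpow_natCast, ← ENNReal.rpow_mul]
      norm_num
      refine lintegral_congr fun x => ?_
      rw [← Real.enorm_eq_ofReal_abs, ← enorm_neg, neg_sub]
    simp_rw [h1]
    have h2 := (ENNReal.continuous_pow 2).tendsto 0 |>.comp hlim
    simpa [Function.comp_def] using h2
  have hVperp : Vᗮ = ⊥ := by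
    rw [Submodule.eq_bot_iff]
    intro f hf
    have hmf : Measurable (fun x => f x) := (Lp.stronglyMeasurable f).measurable
    have hfV : f ∈ V := by
      refine (hVmem f).2 (h _ hmf (Lp.memLp f) ?_)
      intro ψ hψ hψ1 hCψ
      have hψL : MemLp ψ 2 μ := MemLp.of_bound hψ.aestronglyMeasurable 1
        (Eventually.of_forall fun x => by simpa using hψ1 x)
      have h1 : hψL.toLp ψ ∈ V := (hVmem _).2 (Cv.congr hU hψL.coeFn_toLp.symm hCψ)
      have h2 := (Submodule.mem_orthogonal _ _).1 hf _ h1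
      rw [L2.inner_def] at h2
      rw [← h2]
      refine integral_congr_ae ?_
      filter_upwards [hψL.coeFn_toLp] with x hx
      rw [hx]
      simp [mul_comm]
    have h3 := (Submodule.mem_orthogonal _ _).1 hf _ hfV
    exact inner_self_eq_zero.1 h3
  have hVtop : V = ⊤ := by
    have h1 := (Submodule.topologicalClosure_eq_top_iff (K := V)).2 hVperp
    rwa [IsClosed.submodule_topologicalClosure_eq hVclosed] at h1
  have h1 : hφ.toLp φ ∈ V := by rw [hVtop]; trivial
  exact Cv.congr hU hφ.coeFn_toLp ((hVmem _).1 h1)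

end Pool.Agent.Lib.Pf720ae
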