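import Pool.Agent.Lib.Pf720ae.Poly.MaxFin

/-!
# Transference to measure preserving actions
-/

set_option autoImplicit false
set_option linter.unusedSectionVars false

open Finset ZMod MeasureTheory
open scoped ENNReal NNReal

namespace Pool.Agent.Lib.Pf720ae.Poly

variable {D : ℕ} {X : Type} [MeasurableSpace X] {μ : Measure X}

/-- the curve in `ℕ ^ D` -/
def cur (n : ℕ) : Fin D → ℕ := fun e => n ^ ((e : ℕ) + 1)

/-- dyadic averages along the curve -/
noncomputable def DA (R : (Fin D → ℕ) → X → X) (g : X → ℝ≥0∞) (j : ℕ) (x : X) : ℝ≥0∞ :=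
  ((2 : ℝ≥0∞) ^ j)⁻¹ * ∑ n ∈ range (2 ^ j), g (R (cur n) x)

/-- maximal function along the curve -/
noncomputable def CN (R : (Fin D → ℕ) → X → X) (g : X → ℝ≥0∞) (x : X) : ℝ≥0∞ :=
  ⨆ N : ℕ, ((N : ℝ≥0∞) + 1)⁻¹ * ∑ n ∈ range (N + 1), g (R (cur n) x)

lemma measurable_DA {R : (Fin D → ℕ) → X → X} (hR : ∀ m, Measurable (R m)) {g : X → ℝ≥0∞}
    (hg : Measurable g) (j : ℕ) : Measurable (DA R g j) :=
  (Finset.measurable_fun_sum _ fun _ _ => hg.comp (hR _)).const_mul _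

lemma measurable_CN {R : (Fin D → ℕ) → X → X} (hR : ∀ m, Measurable (R m)) {g : X → ℝ≥0∞}
    (hg : Measurable g) : Measurable (CN R g) :=
  Measurable.iSup fun _ => (Finset.measurable_fun_sum _ fun _ _ => hg.comp (hR _)).const_mul _

lemma measurable_fsup (s : Finset ℕ) {f : ℕ → X → ℝ≥0∞} (hf : ∀ j, Measurable (f j)) :
    Measurable fun x => s.sup fun j => f j x := by
  induction s using Finset.induction_on with
  | empty =>
    simp only [Finset.sup_empty]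
    exact measurable_const
  | insert a s ha ih =>
    simp only [Finset.sup_insert]
    exact (hf a).sup ih

/-- representatives -/
def vl {L : ℕ} (v : Fin D → ZMod L) : Fin D → ℕ := fun e => (v e).val

/-- small cube in the torus -/
def SH (D L H : ℕ) : Finset (Fin D → ZMod L) :=
  Fintype.piFinset fun _ : Fin D => (range H).image (Nat.cast : ℕ → ZMod L)

lemma card_SH {L H : ℕ} (hH : H ≤ L) : (SH D L H).card = H ^ D := by
  unfold SH
  rw [Fintype.card_piFinset]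
  have h1 : ((range H).image (Nat.cast : ℕ → ZMod L)).card = H := by
    rw [Finset.card_image_of_injOn, Finset.card_range]
    intro a ha b hb hab
    have ha' : a < L := lt_of_lt_of_le (Finset.mem_range.1 ha) hH
    have hb' : b < L := lt_of_lt_of_le (Finset.mem_range.1 hb) hH
    have h2 := (ZMod.natCast_eq_natCast_iff' a b L).1 hab
    rwa [Nat.mod_eq_of_lt ha', Nat.mod_eq_of_lt hb'] at h2
  simp [h1]

lemma vl_lt_of_mem {L H : ℕ} (hH : H ≤ L) {v : Fin D → ZMod L} (hv : v ∈ SH D L H) (e : Fin D) :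
    vl v e < H := by
  unfold SH at hv
  rw [Fintype.mem_piFinset] at hv
  obtain ⟨a, ha, hav⟩ := Finset.mem_image.1 (hv e)
  have ha' := Finset.mem_range.1 ha
  unfold vl
  rw [← hav, ZMod.val_natCast, Nat.mod_eq_of_lt (lt_of_lt_of_le ha' hH)]
  exact ha'

lemma vl_add {L J : ℕ} [NeZero L] (hL : L = 2 * 2 ^ (J * D)) {v : Fin D → ZMod L}
    (hv : v ∈ SH D L (2 ^ (J * D))) {n : ℕ} (hn : n < 2 ^ J) :
    vl (v + gam L n) = cur n + vl v := by
  funext e
  have h1 : vl v e < 2 ^ (J * D) := vl_lt_of_mem (by omega) hv e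
  have h2 : n ^ ((e : ℕ) + 1) ≤ 2 ^ (J * D) := by
    calc n ^ ((e : ℕ) + 1) ≤ (2 ^ J) ^ ((e : ℕ) + 1) := Nat.pow_le_pow_left hn.le _
      _ ≤ (2 ^ J) ^ D := Nat.pow_le_pow_right (pow_pos two_pos J) e.2
      _ = 2 ^ (J * D) := (pow_mul 2 J D).symm
  unfold vl at h1
  simp only [vl, cur, gam, Pi.add_apply]
  have h3 : n ^ ((e : ℕ) + 1) < L := by
    have : 0 < 2 ^ (J * D) := pow_pos two_pos _
    omega
  rw [ZMod.val_add_of_lt, ZMod.val_natCast, Nat.mod_eq_of_lt h3, add_comm]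
  rw [ZMod.val_natCast, Nat.mod_eq_of_lt h3]
  omega

/-- pointwise inequality for one orbit -/
lemma orbit_ineq {A : ℝ} (hA : 0 ≤ A) (hmax : ∀ (L : ℕ) [NeZero L]
    (F : (Fin D → ZMod L) → ℂ) (j : (Fin D → ZMod L) → ℕ),
    ∑ x, ‖((2 : ℂ) ^ j x)⁻¹ * ∑ n ∈ range (2 ^ j x), F (x + gam L n)‖ ^ 2 ≤
      A * ∑ x, ‖F x‖ ^ 2)
    {R : (Fin D → ℕ) → X → X} (hRadd : ∀ m n x, R (m + n) x = R m (R n x)) {g : X → ℝ≥0∞}
    {x : X} (hx : ∀ v, g (R v x) ≠ ⊤) (J L : ℕ) [NeZero L] (hL : L = 2 * 2 ^ (J * D)) :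
    ∑ v ∈ SH D L (2 ^ (J * D)), ((range (J + 1)).sup fun j => DA R g j (R (vl v) x)) ^ 2 ≤
      ENNReal.ofReal A * ∑ v : Fin D → ZMod L, (g (R (vl v) x)) ^ 2 := by
  set gr : (Fin D → ℕ) → ℝ := fun w => (g (R w x)).toReal with hgr
  have hgr0 : ∀ w, 0 ≤ gr w := fun w => ENNReal.toReal_nonneg
  have hgr1 : ∀ w, g (R w x) = ENNReal.ofReal (gr w) := fun w => (ENNReal.ofReal_toReal (hx w)).symm
  have hsel : ∀ v : Fin D → ZMod L, ∃ j, j ∈ range (J + 1) ∧
      ((range (J + 1)).sup fun j => DA R g j (R (vl v) x)) = DA R g j (R (vl v) x) :=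
    fun v => Finset.exists_mem_eq_sup _ ⟨0, by simp⟩ _
  choose j hj1 hj2 using hsel
  set F : (Fin D → ZMod L) → ℂ := fun v => (gr (vl v) : ℂ) with hF
  have h1 := hmax L F j
  have h2 : ∀ v ∈ SH D L (2 ^ (J * D)),
      ((range (J + 1)).sup fun j => DA R g j (R (vl v) x)) ^ 2 =
      ENNReal.ofReal (‖((2 : ℂ) ^ j v)⁻¹ * ∑ n ∈ range (2 ^ j v), F (v + gam L n)‖ ^ 2) := by
    intro v hv
    rw [hj2 v, ENNReal.ofReal_pow (norm_nonneg _)]
    congr 1
    unfold DA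
    have h3 : ∀ n ∈ range (2 ^ j v), g (R (cur n) (R (vl v) x)) =
        ENNReal.ofReal (gr (vl (v + gam L n))) := by
      intro n hn
      have hn' : n < 2 ^ J := lt_of_lt_of_le (Finset.mem_range.1 hn)
        (Nat.pow_le_pow_right two_pos (by have := Finset.mem_range.1 (hj1 v); omega))
      rw [vl_add hL hv hn', ← hRadd, hgr1]
    rw [Finset.sum_congr rfl h3, ← ENNReal.ofReal_sum_of_nonneg fun _ _ => hgr0 _]
    have h4 : ‖((2 : ℂ) ^ j v)⁻¹ * ∑ n ∈ range (2 ^ j v), F (v + gam L n)‖ =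
        ((2 : ℝ) ^ j v)⁻¹ * ∑ n ∈ range (2 ^ j v), gr (vl (v + gam L n)) := by
      rw [norm_mul, norm_inv, norm_pow]
      congr 1
      · norm_num
      · simp only [hF]
        rw [← Complex.ofReal_sum, Complex.norm_real, Real.norm_of_nonneg]
        exact Finset.sum_nonneg fun _ _ => hgr0 _
    rw [h4, ENNReal.ofReal_mul (by positivity), ENNReal.ofReal_inv_of_pos (by positivity),
      ENNReal.ofReal_pow (by norm_num)]
    norm_num
  rw [Finset.sum_congr rfl h2, ← ENNReal.ofReal_sum_of_nonneg fun _ _ => sq_nonneg _]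
  have h3 : ∑ v : Fin D → ZMod L, (g (R (vl v) x)) ^ 2 =
      ENNReal.ofReal (∑ v : Fin D → ZMod L, ‖F v‖ ^ 2) := by
    rw [ENNReal.ofReal_sum_of_nonneg fun _ _ => sq_nonneg _]
    refine Finset.sum_congr rfl fun v _ => ?_
    rw [ENNReal.ofReal_pow (norm_nonneg _), hgr1]
    simp only [hF]
    rw [Complex.norm_real, Real.norm_of_nonneg (hgr0 _)]
  rw [h3, ← ENNReal.ofReal_mul hA]
  refine ENNReal.ofReal_le_ofReal (le_trans ?_ h1)
  exact Finset.sum_le_sum_of_subset_of_nonneg (Finset.subset_univ _) fun _ _ _ => sq_nonneg _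

/-- maximal inequality over finitely many dyadic scales -/
lemma dyadic_ineq {A : ℝ} (hA : 1 ≤ A) (hmax : ∀ (L : ℕ) [NeZero L]
    (F : (Fin D → ZMod L) → ℂ) (j : (Fin D → ZMod L) → ℕ),
    ∑ x, ‖((2 : ℂ) ^ j x)⁻¹ * ∑ n ∈ range (2 ^ j x), F (x + gam L n)‖ ^ 2 ≤
      A * ∑ x, ‖F x‖ ^ 2)
    {R : (Fin D → ℕ) → X → X} (hRadd : ∀ m n x, R (m + n) x = R m (R n x))
    (hR : ∀ m, MeasurePreserving (R m) μ μ) {g : X → ℝ≥0∞} (hg : Measurable g) (J : ℕ) :
    ∫⁻ x, ((range (J + 1)).sup fun j => DA R g j x) ^ 2 ∂μ ≤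
      ENNReal.ofReal (2 ^ D * A) * ∫⁻ x, (g x) ^ 2 ∂μ := by
  rcases eq_or_ne (∫⁻ x, (g x) ^ 2 ∂μ) ⊤ with htop | hfin
  · rw [htop, ENNReal.mul_top]
    · exact le_top
    · rw [Ne, ENNReal.ofReal_eq_zero, not_le]
      positivity
  have hgae : ∀ᵐ x ∂μ, g x ≠ ⊤ := by
    have h1 := ae_lt_top (hg.pow_const 2) hfin
    filter_upwards [h1] with x hx h
    rw [h] at hx
    simp at hx
  have hall : ∀ᵐ x ∂μ, ∀ v, g (R v x) ≠ ⊤ :=
    ae_all_iff.2 fun v => (hR v).quasiMeasurePreserving.ae hgae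
  set H : ℕ := 2 ^ (J * D) with hH
  have hH0 : 0 < H := pow_pos two_pos _
  set L : ℕ := 2 * H with hL
  haveI : NeZero L := ⟨by omega⟩
  have hMm : Measurable fun x => ((range (J + 1)).sup fun j => DA R g j x) ^ 2 := by
    exact (measurable_fsup _ fun j => measurable_DA (fun m => (hR m).measurable) hg j).pow_const 2
  have h1 : ∫⁻ x, ∑ v ∈ SH D L H, ((range (J + 1)).sup fun j => DA R g j (R (vl v) x)) ^ 2 ∂μ ≤
      ∫⁻ x, ENNReal.ofReal A * ∑ v : Fin D → ZMod L, (g (R (vl v) x)) ^ 2 ∂μ := by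
    refine lintegral_mono_ae ?_
    filter_upwards [hall] with x hx
    exact orbit_ineq (by linarith) hmax hRadd hx J L (by rw [hL])
  have h2 : ∫⁻ x, ∑ v ∈ SH D L H, ((range (J + 1)).sup fun j => DA R g j (R (vl v) x)) ^ 2 ∂μ =
      (H : ℝ≥0∞) ^ D * ∫⁻ x, ((range (J + 1)).sup fun j => DA R g j x) ^ 2 ∂μ := by
    rw [lintegral_finsetSum]
    · have h3 : ∀ v ∈ SH D L H,
          ∫⁻ x, ((range (J + 1)).sup fun j => DA R g j (R (vl v) x)) ^ 2 ∂μ =
          ∫⁻ x, ((range (J + 1)).sup fun j => DA R g j x) ^ 2 ∂μ := by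
        intro v _
        exact (hR (vl v)).lintegral_comp hMm
      rw [Finset.sum_congr rfl h3, Finset.sum_const, card_SH (by omega), nsmul_eq_mul]
      push_cast
      rfl
    · intro v _
      exact hMm.comp (hR (vl v)).measurable
  have h3 : ∫⁻ x, ENNReal.ofReal A * ∑ v : Fin D → ZMod L, (g (R (vl v) x)) ^ 2 ∂μ =
      ENNReal.ofReal A * ((L : ℝ≥0∞) ^ D * ∫⁻ x, (g x) ^ 2 ∂μ) := by
    rw [lintegral_const_mul, lintegral_finsetSum]
    · have h4 : ∀ v ∈ (Finset.univ : Finset (Fin D → ZMod L)),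
          ∫⁻ x, (g (R (vl v) x)) ^ 2 ∂μ = ∫⁻ x, (g x) ^ 2 ∂μ := by
        intro v _
        exact (hR (vl v)).lintegral_comp (hg.pow_const 2)
      rw [Finset.sum_congr rfl h4, Finset.sum_const, Finset.card_univ, Fintype.card_fun,
        ZMod.card, Fintype.card_fin, nsmul_eq_mul]
      push_cast
      rfl
    · intro v _
      exact (hg.comp (hR (vl v)).measurable).pow_const 2
    · exact Finset.measurable_fun_sum _ fun v _ => (hg.comp (hR (vl v)).measurable).pow_const 2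
  rw [h2, h3] at h1
  have hHne : (H : ℝ≥0∞) ^ D ≠ 0 := pow_ne_zero _ (Nat.cast_ne_zero.2 hH0.ne')
  have hHtop : (H : ℝ≥0∞) ^ D ≠ ⊤ := ENNReal.pow_ne_top (ENNReal.natCast_ne_top H)
  have h4 : ENNReal.ofReal A * ((L : ℝ≥0∞) ^ D * ∫⁻ x, (g x) ^ 2 ∂μ) =
      (H : ℝ≥0∞) ^ D * (ENNReal.ofReal (2 ^ D * A) * ∫⁻ x, (g x) ^ 2 ∂μ) := by
    rw [ENNReal.ofReal_mul (by positivity), ENNReal.ofReal_pow (by norm_num), hL]
    push_cast
    rw [mul_pow]
    norm_num
    ring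
  rw [h4] at h1
  exact (ENNReal.mul_le_mul_iff_right hHne hHtop).1 h1

/-- comparison of all scales with dyadic scales -/
lemma CN_le (R : (Fin D → ℕ) → X → X) (g : X → ℝ≥0∞) (x : X) :
    CN R g x ≤ 2 * ⨆ J : ℕ, (range (J + 1)).sup fun j => DA R g j x := by
  refine iSup_le fun N => ?_
  set j := Nat.clog 2 (N + 1) with hj
  have h1 : N + 1 ≤ 2 ^ j := Nat.le_pow_clog one_lt_two _
  have h2 : 2 ^ j ≤ 2 * (N + 1) := by
    rcases Nat.eq_zero_or_pos N with h0 | hpos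
    · subst h0
      simp [hj]
    · have h3 := Nat.pow_pred_clog_lt_self one_lt_two (x := N + 1) (by omega)
      rw [← hj] at h3
      have h4 : 0 < j := by
        rw [hj]
        exact Nat.clog_pos one_lt_two (by omega)
      have h5 : 2 ^ j = 2 * 2 ^ (j.pred) := by
        rw [← pow_succ']
        congr 1
        exact (Nat.succ_pred_eq_of_pos h4).symm
      omega
  have h3 : ((N : ℝ≥0∞) + 1)⁻¹ * ∑ n ∈ range (N + 1), g (R (cur n) x) ≤ 2 * DA R g j x := by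
    unfold DA
    rw [← mul_assoc]
    refine mul_le_mul' ?_ ?_
    · have h4 : ((2 : ℝ≥0∞) ^ j) ≤ 2 * ((N : ℝ≥0∞) + 1) := by exact_mod_cast h2
      calc ((N : ℝ≥0∞) + 1)⁻¹ = 2 * (2 * ((N : ℝ≥0∞) + 1))⁻¹ := by
            rw [ENNReal.mul_inv (Or.inl (by norm_num)) (Or.inl (by norm_num)), ← mul_assoc,
              ENNReal.mul_inv_cancel (by norm_num) (by norm_num), one_mul]
        _ ≤ 2 * ((2 : ℝ≥0∞) ^ j)⁻¹ := by
            gcongr
    · exact Finset.sum_le_sum_of_subset (Finset.range_mono h1)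
  refine h3.trans (mul_le_mul' le_rfl ?_)
  refine le_trans ?_ (le_iSup _ j)
  exact Finset.le_sup (f := fun j => DA R g j x) (Finset.mem_range.2 (Nat.lt_succ_self j))

/-- `L²` maximal inequality along the curve for measure preserving actions -/
theorem curve_max (D : ℕ) : ∃ A : ℝ, 1 ≤ A ∧ ∀ (X : Type) [MeasurableSpace X] (μ : Measure X)
    (R : (Fin D → ℕ) → X → X), (∀ m n x, R (m + n) x = R m (R n x)) →
    (∀ m, MeasurePreserving (R m) μ μ) → ∀ g : X → ℝ≥0∞, Measurable g →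
    ∫⁻ x, (CN R g x) ^ 2 ∂μ ≤ ENNReal.ofReal A * ∫⁻ x, (g x) ^ 2 ∂μ := by
  obtain ⟨A₀, hA₀, hmax₀⟩ := maxfin D
  set A := max A₀ 1 with hAdef
  have hA1 : 1 ≤ A := le_max_right _ _
  have hmax : ∀ (L : ℕ) [NeZero L]
    (F : (Fin D → ZMod L) → ℂ) (j : (Fin D → ZMod L) → ℕ),
    ∑ x, ‖((2 : ℂ) ^ j x)⁻¹ * ∑ n ∈ range (2 ^ j x), F (x + gam L n)‖ ^ 2 ≤
      A * ∑ x, ‖F x‖ ^ 2 := fun L _ F j => (hmax₀ L F j).trans
        (mul_le_mul_of_nonneg_right (le_max_left _ _) (Finset.sum_nonneg fun _ _ => sq_nonneg _))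
  have h2D : (1 : ℝ) ≤ 2 ^ D := one_le_pow₀ one_le_two
  refine ⟨4 * (2 ^ D * A), by nlinarith, ?_⟩
  intro X _ μ R hRadd hR g hg
  have hmeas : ∀ J : ℕ, Measurable fun x => (range (J + 1)).sup fun j => DA R g j x := by
    intro J
    exact measurable_fsup _ fun j => measurable_DA (fun m => (hR m).measurable) hg j
  have hmono : ∀ x, Monotone fun J : ℕ => (range (J + 1)).sup fun j => DA R g j x := by
    intro x a b hab
    exact Finset.sup_mono (Finset.range_mono (by omega))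
  calc ∫⁻ x, (CN R g x) ^ 2 ∂μ ≤
        ∫⁻ x, 4 * ⨆ J : ℕ, ((range (J + 1)).sup fun j => DA R g j x) ^ 2 ∂μ := by
        refine lintegral_mono fun x => ?_
        refine (pow_le_pow_left' (CN_le R g x) 2).trans (le_of_eq ?_)
        rw [mul_pow, ENNReal.iSup_pow]
        norm_num
    _ = 4 * ⨆ J : ℕ, ∫⁻ x, ((range (J + 1)).sup fun j => DA R g j x) ^ 2 ∂μ := by
        rw [lintegral_const_mul _ (Measurable.iSup fun J => (hmeas J).pow_const 2),
          lintegral_iSup (fun J => (hmeas J).pow_const 2)]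
        intro a b hab x
        exact pow_le_pow_left' (hmono x hab) 2
    _ ≤ 4 * (ENNReal.ofReal (2 ^ D * A) * ∫⁻ x, (g x) ^ 2 ∂μ) := by
        gcongr
        exact iSup_le fun J => dyadic_ineq hA1 hmax hRadd hR hg J
    _ = ENNReal.ofReal (4 * (2 ^ D * A)) * ∫⁻ x, (g x) ^ 2 ∂μ := by
        rw [ENNReal.ofReal_mul (by norm_num : (0 : ℝ) ≤ 4), mul_assoc]
        norm_num

end Pool.Agent.Lib.Pf720ae.Poly
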