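import Pool.Agent.Lib.Pf720ae.Poly.Decay

/-!
# Approximation of the exponential sums by the contributions of the major arcs
-/

set_option autoImplicit false
set_option linter.unusedSectionVars false

open Finset

namespace Pool.Agent.Lib.Pf720ae.Poly

variable {D C : ℕ}

/-- signed distance to the nearest integer -/
noncomputable def fr (x : ℝ) : ℝ := x - round x

lemma fr_add_int (x : ℝ) (n : ℤ) : fr (x + n) = fr x := by
  unfold fr
  rw [round_add_intCast]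
  push_cast
  ring

lemma fr_eq_of_abs_lt {x : ℝ} (h : |x| < 1 / 2) : fr x = x := by
  unfold fr
  have : round x = 0 := by
    rw [round_eq_zero_iff, Set.mem_Ico]
    rw [abs_lt] at h
    exact ⟨h.1.le, h.2⟩
  rw [this, Int.cast_zero, sub_zero]

/-- frequency relative to a rational point -/
noncomputable def bet (ξ : Fin D → ℝ) (p : ℕ × (Fin D → ℤ)) : Fin D → ℝ :=
  fun e => fr (ξ e - (p.2 e : ℝ) / p.1)

/-- `p` is a rational point of height about `2 ^ s` near `ξ` -/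
def Near (s : ℕ) (ξ : Fin D → ℝ) (p : ℕ × (Fin D → ℤ)) : Prop :=
  2 ^ s ≤ p.1 ∧ p.1 < 2 ^ (s + 1) ∧ Cop p.1 p.2 ∧ ∀ e, |bet ξ p e| ≤ (1 / 2) ^ (4 * s + 8)

lemma Near.pos {s : ℕ} {ξ : Fin D → ℝ} {p : ℕ × (Fin D → ℤ)} (h : Near s ξ p) : 0 < p.1 :=
  lt_of_lt_of_le (pow_pos two_pos s) h.1

/-- rational points that are close are equal -/
lemma eq_of_close {q q' : ℕ} (hq : 0 < q) (hq' : 0 < q') {a a' : Fin D → ℤ} (hc : Cop q a)
    (hc' : Cop q' a') (n : Fin D → ℤ)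
    (h : ∀ e, |(a e : ℝ) / q - (a' e : ℝ) / q' - n e| < 1 / (q * q')) :
    q = q' ∧ ∀ e, a e = a' e + n e * q := by
  have hqR : (0 : ℝ) < q := Nat.cast_pos.2 hq
  have hqR' : (0 : ℝ) < q' := Nat.cast_pos.2 hq'
  have h1 : ∀ e, a e * q' - a' e * q - n e * (q * q') = 0 := by
    intro e
    have h2 : |((a e * q' - a' e * q - n e * (q * q') : ℤ) : ℝ)| < 1 := by
      have h3 : ((a e * q' - a' e * q - n e * (q * q') : ℤ) : ℝ) =
          (q * q') * ((a e : ℝ) / q - (a' e : ℝ) / q' - n e) := by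
        push_cast
        field_simp
      rw [h3, abs_mul, abs_of_pos (mul_pos hqR hqR')]
      calc (q : ℝ) * q' * |(a e : ℝ) / q - (a' e : ℝ) / q' - n e| <
            q * q' * (1 / (q * q')) := mul_lt_mul_of_pos_left (h e) (mul_pos hqR hqR')
        _ = 1 := by field_simp
    rw [← Int.cast_abs] at h2
    exact Int.abs_lt_one_iff.1 (by exact_mod_cast h2)
  have hd1 : q ∣ q' := dvd_of_cop hq hc fun e => ⟨a' e + n e * q', by
    have := h1 e
    linarith⟩
  have hd2 : q' ∣ q := dvd_of_cop hq' hc' fun e => ⟨a e - n e * q, by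
    have := h1 e
    linarith⟩
  have hqq : q = q' := Nat.dvd_antisymm hd1 hd2
  refine ⟨hqq, fun e => ?_⟩
  have h2 := h1 e
  rw [← hqq] at h2
  have h3 : (q : ℤ) * (a e - a' e - n e * q) = 0 := by linarith
  rcases mul_eq_zero.1 h3 with h4 | h4
  · exfalso
    have : q = 0 := by exact_mod_cast h4
    omega
  · linarith

lemma gs_congr {q : ℕ} (hq : 0 < q) {a a' : Fin D → ℤ} (n : Fin D → ℤ)
    (h : ∀ e, a e = a' e + n e * q) : gs q a = gs q a' := by
  unfold gs em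
  congr 1
  refine Finset.sum_congr rfl fun x _ => ?_
  have hqR : (q : ℝ) ≠ 0 := Nat.cast_ne_zero.2 hq.ne'
  have h1 : ph (fun e => (a e : ℝ) / q) x = ph (fun e => (a' e : ℝ) / q) x +
      ((∑ e : Fin D, n e * (x : ℤ) ^ ((e : ℕ) + 1) : ℤ) : ℝ) := by
    unfold ph
    push_cast
    rw [← Finset.sum_add_distrib]
    refine Finset.sum_congr rfl fun e _ => ?_
    rw [h e]
    push_cast
    field_simp
  rw [h1, ee_add_int]

lemma em_congr {ξ ξ' : Fin D → ℝ} (n : Fin D → ℤ) (h : ∀ e, ξ e = ξ' e + n e) (N : ℕ) :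
    em ξ N = em ξ' N := by
  unfold em
  congr 1
  refine Finset.sum_congr rfl fun x _ => ?_
  have h1 : ph ξ x = ph ξ' x + ((∑ e : Fin D, n e * (x : ℤ) ^ ((e : ℕ) + 1) : ℤ) : ℝ) := by
    unfold ph
    push_cast
    rw [← Finset.sum_add_distrib]
    refine Finset.sum_congr rfl fun e _ => ?_
    rw [h e]
    ring
  rw [h1, ee_add_int]

lemma em_eq_bet (ξ : Fin D → ℝ) (p : ℕ × (Fin D → ℤ)) (N : ℕ) :
    em ξ N = em (fun e => (p.2 e : ℝ) / p.1 + bet ξ p e) N :=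
  em_congr (fun e => round (ξ e - (p.2 e : ℝ) / p.1)) (fun e => by unfold bet fr; ring) N

/-- two near rational points have the same data -/
lemma Near.unique {s : ℕ} {ξ : Fin D → ℝ} {p p' : ℕ × (Fin D → ℤ)} (h : Near s ξ p)
    (h' : Near s ξ p') : gs p.1 p.2 = gs p'.1 p'.2 ∧ bet ξ p = bet ξ p' := by
  have hq := h.pos
  have hq' := h'.pos
  have hqR : (0 : ℝ) < p.1 := Nat.cast_pos.2 hq
  have hqR' : (0 : ℝ) < p'.1 := Nat.cast_pos.2 hq'
  set n : Fin D → ℤ := fun e => round (ξ e - (p'.2 e : ℝ) / p'.1) - round (ξ e - (p.2 e : ℝ) / p.1)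
    with hn
  have h1 := eq_of_close hq hq' h.2.2.1 h'.2.2.1 n (fun e => by
    have e1 : (p.2 e : ℝ) / p.1 - (p'.2 e : ℝ) / p'.1 - n e = bet ξ p' e - bet ξ p e := by
      simp only [hn, bet, fr]
      push_cast
      ring
    rw [e1]
    have e2 : |bet ξ p' e - bet ξ p e| ≤ (1 / 2) ^ (4 * s + 8) + (1 / 2) ^ (4 * s + 8) :=
      (abs_sub _ _).trans (add_le_add (h'.2.2.2 e) (h.2.2.2 e))
    refine lt_of_le_of_lt e2 ?_
    have e3 : (p.1 : ℝ) * p'.1 < 2 ^ (s + 1) * 2 ^ (s + 1) := by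
      have a1 : (p.1 : ℝ) < 2 ^ (s + 1) := by exact_mod_cast h.2.1
      have a2 : (p'.1 : ℝ) < 2 ^ (s + 1) := by exact_mod_cast h'.2.1
      exact mul_lt_mul'' a1 a2 hqR.le hqR'.le
    have e4 : (1 : ℝ) / (2 ^ (s + 1) * 2 ^ (s + 1)) < 1 / (p.1 * p'.1) :=
      one_div_lt_one_div_of_lt (mul_pos hqR hqR') e3
    refine lt_of_le_of_lt ?_ e4
    have e5 : ((1 : ℝ) / 2) ^ (4 * s + 8) + (1 / 2) ^ (4 * s + 8) = (1 / 2) ^ (4 * s + 7) := by
      rw [pow_succ (1 / 2 : ℝ) (4 * s + 7)]; ring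
    have e6 : (1 : ℝ) / (2 ^ (s + 1) * 2 ^ (s + 1)) = (1 / 2) ^ (2 * s + 2) := by
      rw [← pow_add, one_div_pow]
      congr 2
      ring
    rw [e5, e6]
    exact pow_le_pow_of_le_one (by norm_num) (by norm_num) (by omega))
  obtain ⟨h2, h3⟩ := h1
  refine ⟨?_, ?_⟩
  · rw [gs_congr hq n h3, h2]
  · funext e
    unfold bet
    have e1 : ξ e - (p.2 e : ℝ) / p.1 = ξ e - (p'.2 e : ℝ) / p'.1 + ((-n e : ℤ) : ℝ) := by
      rw [h3 e, ← h2]
      push_cast
      field_simp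
      ring
    rw [e1, fr_add_int]

open Classical in
/-- contribution of the rational points of height about `2 ^ s` -/
noncomputable def Lf (j s : ℕ) (ξ : Fin D → ℝ) : ℂ :=
  if h : ∃ p, Near s ξ p then gs h.choose.1 h.choose.2 * vv (bet ξ h.choose) (2 ^ j) else 0

lemma Lf_of_near {j s : ℕ} {ξ : Fin D → ℝ} {p : ℕ × (Fin D → ℤ)} (h : Near s ξ p) :
    Lf j s ξ = gs p.1 p.2 * vv (bet ξ p) (2 ^ j) := by
  have hex : ∃ p, Near s ξ p := ⟨p, h⟩
  unfold Lf
  rw [dif_pos hex]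
  obtain ⟨h1, h2⟩ := hex.choose_spec.unique h
  rw [h1, h2]

lemma Lf_of_not {j s : ℕ} {ξ : Fin D → ℝ} (h : ¬ ∃ p, Near s ξ p) : Lf j s ξ = 0 := by
  unfold Lf
  rw [dif_neg h]

lemma norm_Lf_le (j s : ℕ) (ξ : Fin D → ℝ) : ‖Lf j s ξ‖ ≤ 1 := by
  by_cases h : ∃ p, Near s ξ p
  · obtain ⟨p, hp⟩ := h
    rw [Lf_of_near hp, norm_mul]
    exact mul_le_one₀ (norm_gs_le _ _) (norm_nonneg _) (norm_vv_le _ _)
  · rw [Lf_of_not h]; simp

/-- reduction to lowest terms -/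
lemma exists_lowest (q : ℕ) (hq : 0 < q) (a : Fin D → ℤ) :
    ∃ (q₀ : ℕ) (a₀ : Fin D → ℤ), 0 < q₀ ∧ q₀ ≤ q ∧ Cop q₀ a₀ ∧
      ∀ e, (a₀ e : ℝ) / q₀ = (a e : ℝ) / q := by
  induction q using Nat.strong_induction_on generalizing a with
  | _ q ih =>
    by_cases hc : Cop q a
    · exact ⟨q, a, hq, le_rfl, hc, fun _ => rfl⟩
    · unfold Cop at hc
      push Not at hc
      obtain ⟨r, ⟨q', hq'⟩, hra, hr1⟩ := hc
      choose a' ha' using hra
      have hr0 : 0 < r := by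
        rcases Nat.eq_zero_or_pos r with h | h
        · subst h; omega
        · exact h
      have hq'0 : 0 < q' := by
        rcases Nat.eq_zero_or_pos q' with h | h
        · subst h; omega
        · exact h
      have hlt : q' < q := by
        rw [hq']
        have : 2 ≤ r := by omega
        nlinarith
      obtain ⟨q₀, a₀, h1, h2, h3, h4⟩ := ih q' hlt hq'0 a'
      refine ⟨q₀, a₀, h1, h2.trans hlt.le, h3, fun e => ?_⟩
      rw [h4 e, ha' e, hq']
      have : (r : ℝ) ≠ 0 := Nat.cast_ne_zero.2 hr0.ne'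
      push_cast
      field_simp

lemma sz_two_pow_le {β : Fin D → ℝ} {N : ℝ} {B : ℝ}
    (h : ∀ e, |β e| * N ^ ((e : ℕ) + 1) ≤ B) : sz β N ≤ D * B := by
  unfold sz
  refine (Finset.sum_le_sum fun e _ => h e).trans ?_
  simp

/-- approximation by the major arcs -/
theorem approx (hIW : IW D C) (j : ℕ) (ξ : Fin D → ℝ) :
    ‖em ξ (2 ^ j) - ∑ s ∈ range (j / 8 + 1), Lf j s ξ‖ ≤
      (26 * (1 + D) + 30) * (j + 1) * (1 / 2) ^ (j / (16 * (C + 1))) := by
  set i := j / (16 * (C + 1)) with hi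
  have hDn : (0 : ℝ) ≤ D := Nat.cast_nonneg D
  have hjn : (0 : ℝ) ≤ j := Nat.cast_nonneg j
  rcases Nat.eq_zero_or_pos i with h0 | hpos
  · -- trivial range
    rw [h0, pow_zero, mul_one]
    have h1 : ‖∑ s ∈ range (j / 8 + 1), Lf j s ξ‖ ≤ (j / 8 + 1 : ℕ) := by
      refine (norm_sum_le _ _).trans ?_
      refine (Finset.sum_le_sum fun s _ => norm_Lf_le j s ξ).trans ?_
      simp
    have h2 : ((j / 8 + 1 : ℕ) : ℝ) ≤ j + 1 := by
      have : j / 8 + 1 ≤ j + 1 := by omega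
      exact_mod_cast this
    refine (norm_sub_le _ _).trans ?_
    have h3 := norm_em_le ξ (2 ^ j)
    nlinarith
  have hjC : 16 * (C + 1) * i ≤ j := by
    rw [hi]; exact Nat.mul_div_le j _
  have hj16 : 16 ≤ j := by
    have : 1 * 1 ≤ (C + 1) * i := Nat.mul_le_mul (by omega) hpos
    nlinarith
  have hiC : 16 * (i * C) ≤ j := by nlinarith
  have hij : 16 * i ≤ j := by nlinarith
  set δ : ℝ := (1 / 2) ^ i with hδ
  have hδ0 : 0 < δ := by positivity
  have hδ2 : δ ≤ 1 / 2 := by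
    rw [hδ]
    calc ((1 : ℝ) / 2) ^ i ≤ (1 / 2) ^ 1 := pow_le_pow_of_le_one (by norm_num) (by norm_num) hpos
      _ = 1 / 2 := pow_one _
  have hδC : δ⁻¹ ^ C = 2 ^ (i * C) := by
    rw [hδ, ← inv_pow, one_div, inv_inv, ← pow_mul]
  have hN0 : 0 < 2 ^ j := pow_pos two_pos j
  have hNR : ((2 ^ j : ℕ) : ℝ) = 2 ^ j := by push_cast; rfl
  -- powers of two
  have hp : ∀ a b : ℕ, a ≤ b → (2 : ℝ) ^ a ≤ 2 ^ b := fun a b h =>
    pow_le_pow_right₀ one_le_two h
  -- the error at a major arc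
  have hmaj : ∀ (q : ℕ) (a : Fin D → ℤ) (β : Fin D → ℝ), 0 < q → (q : ℝ) ≤ 2 ^ (j / 8 + 1) →
      (∀ e, |β e| * ((2 ^ j : ℕ) : ℝ) ^ ((e : ℕ) + 1) ≤ 2 ^ (i * C)) →
      ‖em (fun e => (a e : ℝ) / q + β e) (2 ^ j) - gs q a * vv β (2 ^ j)‖ ≤
        26 * (1 + D) * δ := by
    intro q a β hq hqj hβ
    refine (major q hq a β (2 ^ j) hN0).trans ?_
    have h1 : sz β ((2 ^ j : ℕ) : ℝ) ≤ D * 2 ^ (i * C) := sz_two_pow_le hβ
    have h2 : (1 : ℝ) ≤ 2 ^ (i * C) := one_le_pow₀ one_le_two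
    have h3 : 1 + sz β ((2 ^ j : ℕ) : ℝ) ≤ (1 + D) * 2 ^ (i * C) := by nlinarith
    have h4 : (q : ℝ) / ((2 ^ j : ℕ) : ℝ) ≤ 2 ^ (j / 8 + 1) / 2 ^ j := by
      rw [hNR]
      gcongr
    have h5 : (0 : ℝ) ≤ 1 + sz β ((2 ^ j : ℕ) : ℝ) := by
      have := sz_nonneg β (Nat.cast_nonneg (2 ^ j) : (0 : ℝ) ≤ _)
      linarith
    have h6 : (2 : ℝ) ^ (j / 8 + 1) * 2 ^ (i * C) * 2 ^ i ≤ 2 * 2 ^ j := by
      rw [← pow_add, ← pow_add, ← pow_succ']
      exact hp _ _ (by omega)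
    have h7 : (2 : ℝ) ^ (j / 8 + 1) / 2 ^ j * 2 ^ (i * C) ≤ 2 * δ := by
      rw [hδ, one_div, inv_pow, div_mul_eq_mul_div, div_le_iff₀ (by positivity),
        ← div_eq_mul_inv, div_mul_eq_mul_div, le_div_iff₀ (by positivity)]
      exact h6
    calc 13 * ((q : ℝ) / ((2 ^ j : ℕ) : ℝ)) * (1 + sz β ((2 ^ j : ℕ) : ℝ)) ≤
          13 * (2 ^ (j / 8 + 1) / 2 ^ j) * ((1 + D) * 2 ^ (i * C)) := by gcongr
      _ = 13 * (1 + D) * (2 ^ (j / 8 + 1) / 2 ^ j * 2 ^ (i * C)) := by ring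
      _ ≤ 13 * (1 + D) * (2 * δ) := by gcongr
      _ = 26 * (1 + D) * δ := by ring
  have hcard : ((j / 8 + 1 : ℕ) : ℝ) ≤ j + 1 := by
    have : j / 8 + 1 ≤ j + 1 := by omega
    exact_mod_cast this
  rcases le_or_gt δ ‖em ξ (2 ^ j)‖ with hbig | hsmall
  · -- major arc
    obtain ⟨q', hq'0, hq', hqe⟩ := hIW δ hδ0 hδ2 (2 ^ j) hN0 ξ hbig
    rw [hδC] at hq' hqe
    obtain ⟨q₀, a₀, hq₀0, hq₀q', hc₀, ha₀⟩ := exists_lowest q' hq'0
      (fun e => round ((q' : ℝ) * ξ e))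
    have hq'R : (0 : ℝ) < q' := Nat.cast_pos.2 hq'0
    have hq'1 : (1 : ℝ) ≤ q' := by exact_mod_cast hq'0
    have hβ : ∀ e, |ξ e - (a₀ e : ℝ) / q₀| ≤ 2 ^ (i * C) / ((2 ^ j : ℕ) : ℝ) ^ ((e : ℕ) + 1) := by
      intro e
      rw [ha₀ e]
      have h1 : |(q' : ℝ) * ξ e - round ((q' : ℝ) * ξ e)| =
          q' * |ξ e - (round ((q' : ℝ) * ξ e) : ℝ) / q'| := by
        rw [← abs_of_pos hq'R, ← abs_mul, abs_of_pos hq'R]
        congr 1
        field_simp
      have h2 := hqe e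
      rw [h1] at h2
      exact (le_mul_of_one_le_left (abs_nonneg _) hq'1).trans h2
    have hsm : ∀ e : Fin D, (2 : ℝ) ^ (i * C) / ((2 ^ j : ℕ) : ℝ) ^ ((e : ℕ) + 1) ≤
        2 ^ (i * C) / 2 ^ j := by
      intro e
      rw [hNR]
      gcongr
      calc (2 : ℝ) ^ j = (2 ^ j) ^ 1 := (pow_one _).symm
        _ ≤ (2 ^ j) ^ ((e : ℕ) + 1) := pow_le_pow_right₀ (one_le_pow₀ one_le_two) (by omega)
    have hsm2 : (2 : ℝ) ^ (i * C) / 2 ^ j ≤ (1 / 2) ^ (j - i * C) := by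
      have h1 : (2 : ℝ) ^ j = 2 ^ (j - i * C) * 2 ^ (i * C) := by
        rw [← pow_add]; congr 1; omega
      rw [h1, one_div_pow]
      rw [div_le_div_iff₀ (by positivity) (by positivity)]
      linarith
    have hsm3 : ∀ e, |ξ e - (a₀ e : ℝ) / q₀| ≤ (1 / 2) ^ (j - i * C) := fun e =>
      (hβ e).trans ((hsm e).trans hsm2)
    have hlt : ∀ e, |ξ e - (a₀ e : ℝ) / q₀| < 1 / 2 := by
      intro e
      refine lt_of_le_of_lt (hsm3 e) ?_
      calc ((1 : ℝ) / 2) ^ (j - i * C) ≤ (1 / 2) ^ 2 :=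
            pow_le_pow_of_le_one (by norm_num) (by norm_num) (by omega)
        _ < 1 / 2 := by norm_num
    have hbet : ∀ e, bet ξ (q₀, a₀) e = ξ e - (a₀ e : ℝ) / q₀ := fun e => fr_eq_of_abs_lt (hlt e)
    set s₀ := Nat.log 2 q₀ with hs₀
    have hs1 : 2 ^ s₀ ≤ q₀ := Nat.pow_log_le_self 2 hq₀0.ne'
    have hs2 : q₀ < 2 ^ (s₀ + 1) := Nat.lt_pow_succ_log_self one_lt_two q₀
    have hs₀le : s₀ ≤ i * C := by
      have h1 : (2 : ℝ) ^ s₀ ≤ 2 ^ (i * C) := by
        have a1 : ((2 ^ s₀ : ℕ) : ℝ) ≤ q₀ := by exact_mod_cast hs1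
        have a2 : (q₀ : ℝ) ≤ q' := by exact_mod_cast hq₀q'
        push_cast at a1
        exact a1.trans (a2.trans hq')
      exact (pow_le_pow_iff_right₀ one_lt_two).1 h1
    have hnear : Near s₀ ξ (q₀, a₀) := by
      refine ⟨hs1, hs2, hc₀, fun e => ?_⟩
      rw [hbet e]
      refine (hsm3 e).trans (pow_le_pow_of_le_one (by norm_num) (by norm_num) ?_)
      omega
    have hs₀mem : s₀ ∈ range (j / 8 + 1) := by
      rw [Finset.mem_range]; omega
    rw [← Finset.add_sum_erase _ _ hs₀mem, Lf_of_near hnear]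
    -- the main term
    have hmain : ‖em ξ (2 ^ j) - gs q₀ a₀ * vv (bet ξ (q₀, a₀)) (2 ^ j)‖ ≤ 26 * (1 + D) * δ := by
      rw [em_eq_bet ξ (q₀, a₀)]
      refine hmaj q₀ a₀ (bet ξ (q₀, a₀)) hq₀0 ?_ fun e => ?_
      · have a1 : (q₀ : ℝ) < 2 ^ (s₀ + 1) := by exact_mod_cast hs2
        exact a1.le.trans (hp _ _ (by omega))
      · rw [hbet e]
        have hpos' : (0 : ℝ) < ((2 ^ j : ℕ) : ℝ) ^ ((e : ℕ) + 1) := by positivity
        rw [← le_div_iff₀ hpos']
        exact hβ e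
    -- the other terms
    have hoth : ∀ s ∈ (range (j / 8 + 1)).erase s₀, ‖Lf j s ξ‖ ≤ δ := by
      intro s hs
      have hne : s ≠ s₀ := Finset.ne_of_mem_erase hs
      have hsj : s ≤ j / 8 := by
        have := Finset.mem_range.1 (Finset.mem_of_mem_erase hs)
        omega
      by_cases hex : ∃ p, Near s ξ p
      · obtain ⟨p, hpn⟩ := hex
        rw [Lf_of_near hpn, norm_mul]
        refine (mul_le_of_le_one_left (norm_nonneg _) (norm_gs_le _ _)).trans ?_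
        by_contra hcon
        push Not at hcon
        have hdec := vv_decay hIW (bet ξ p) (2 ^ j) hδ0 hδ2 hcon
        rw [hδC] at hdec
        -- then p is close to (q₀, a₀)
        have hclose := eq_of_close hpn.pos hq₀0 hpn.2.2.1 hc₀
          (fun e => round (ξ e - (a₀ e : ℝ) / q₀) - round (ξ e - (p.2 e : ℝ) / p.1)) (fun e => by
            have e1 : (p.2 e : ℝ) / p.1 - (a₀ e : ℝ) / q₀ -
                ((round (ξ e - (a₀ e : ℝ) / q₀) - round (ξ e - (p.2 e : ℝ) / p.1) : ℤ) : ℝ) =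
                bet ξ (q₀, a₀) e - bet ξ p e := by
              simp only [bet, fr]
              push_cast
              ring
            rw [e1]
            have e2 : |bet ξ p e| ≤ (1 / 2) ^ (j - i * C) := by
              have hpos' : (0 : ℝ) < ((2 ^ j : ℕ) : ℝ) ^ ((e : ℕ) + 1) := by positivity
              have := hdec e
              rw [← le_div_iff₀ hpos'] at this
              exact this.trans ((hsm e).trans hsm2)
            have e3 : |bet ξ (q₀, a₀) e| ≤ (1 / 2) ^ (j - i * C) := by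
              rw [hbet e]; exact hsm3 e
            have e4 : |bet ξ (q₀, a₀) e - bet ξ p e| ≤
                (1 / 2) ^ (j - i * C) + (1 / 2) ^ (j - i * C) :=
              (abs_sub _ _).trans (add_le_add e3 e2)
            refine lt_of_le_of_lt e4 ?_
            have hqR : (0 : ℝ) < p.1 := Nat.cast_pos.2 hpn.pos
            have hqR' : (0 : ℝ) < q₀ := Nat.cast_pos.2 hq₀0
            have e5 : (p.1 : ℝ) * q₀ < 2 ^ (s + 1) * 2 ^ (s₀ + 1) := by
              have a1 : (p.1 : ℝ) < 2 ^ (s + 1) := by exact_mod_cast hpn.2.1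
              have a2 : (q₀ : ℝ) < 2 ^ (s₀ + 1) := by exact_mod_cast hs2
              exact mul_lt_mul'' a1 a2 hqR.le hqR'.le
            have e6 : (1 : ℝ) / (2 ^ (s + 1) * 2 ^ (s₀ + 1)) < 1 / (p.1 * q₀) :=
              one_div_lt_one_div_of_lt (mul_pos hqR hqR') e5
            refine lt_of_le_of_lt ?_ e6
            have e7 : ((1 : ℝ) / 2) ^ (j - i * C) + (1 / 2) ^ (j - i * C) =
                (1 / 2) ^ (j - i * C - 1) := by
              have : j - i * C = (j - i * C - 1) + 1 := by omega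
              rw [this, pow_succ]
              simp only [Nat.add_sub_cancel]
              ring
            have e8 : (1 : ℝ) / (2 ^ (s + 1) * 2 ^ (s₀ + 1)) = (1 / 2) ^ (s + 1 + (s₀ + 1)) := by
              rw [← pow_add, one_div_pow]
            rw [e7, e8]
            exact pow_le_pow_of_le_one (by norm_num) (by norm_num) (by omega))
        have hpq : p.1 = q₀ := hclose.1
        apply hne
        have h1 := hpn.1
        have h2 := hpn.2.1
        rw [hpq] at h1 h2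
        rw [hs₀]
        exact (Nat.log_eq_of_pow_le_of_lt_pow h1 h2).symm
      · rw [Lf_of_not hex, norm_zero]
        exact hδ0.le
    have hsum : ‖∑ s ∈ (range (j / 8 + 1)).erase s₀, Lf j s ξ‖ ≤ (j + 1) * δ := by
      refine (norm_sum_le _ _).trans ((Finset.sum_le_sum hoth).trans ?_)
      rw [Finset.sum_const, nsmul_eq_mul]
      refine mul_le_mul_of_nonneg_right ?_ hδ0.le
      refine le_trans ?_ hcard
      have := Finset.card_erase_le (s := range (j / 8 + 1)) (a := s₀)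
      rw [Finset.card_range] at this
      exact_mod_cast this
    have htot : em ξ (2 ^ j) - (gs q₀ a₀ * vv (bet ξ (q₀, a₀)) (2 ^ j) +
        ∑ s ∈ (range (j / 8 + 1)).erase s₀, Lf j s ξ) =
        (em ξ (2 ^ j) - gs q₀ a₀ * vv (bet ξ (q₀, a₀)) (2 ^ j)) -
        ∑ s ∈ (range (j / 8 + 1)).erase s₀, Lf j s ξ := by ring
    rw [htot]
    refine (norm_sub_le _ _).trans ((add_le_add hmain hsum).trans ?_)
    have h1 : 26 * (1 + (D : ℝ)) + (j + 1) ≤ (26 * (1 + D) + 30) * (j + 1) := by nlinarith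
    calc 26 * (1 + (D : ℝ)) * δ + (j + 1) * δ = (26 * (1 + D) + (j + 1)) * δ := by ring
      _ ≤ (26 * (1 + D) + 30) * (j + 1) * δ := mul_le_mul_of_nonneg_right h1 hδ0.le
  · -- minor arcs
    have hterm : ∀ s ∈ range (j / 8 + 1), ‖Lf j s ξ‖ ≤ (1 + 26 * (1 + D)) * δ := by
      intro s hs
      have hsj : s ≤ j / 8 := by
        have := Finset.mem_range.1 hs
        omega
      by_cases hex : ∃ p, Near s ξ p
      · obtain ⟨p, hpn⟩ := hex
        rw [Lf_of_near hpn]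
        rcases le_or_gt ‖vv (bet ξ p) (2 ^ j)‖ δ with hv | hv
        · rw [norm_mul]
          refine (mul_le_of_le_one_left (norm_nonneg _) (norm_gs_le _ _)).trans (hv.trans ?_)
          nlinarith
        · have hdec := vv_decay hIW (bet ξ p) (2 ^ j) hδ0 hδ2 hv
          rw [hδC] at hdec
          have h1 := hmaj p.1 p.2 (bet ξ p) hpn.pos (by
            have a1 : (p.1 : ℝ) < 2 ^ (s + 1) := by exact_mod_cast hpn.2.1
            exact a1.le.trans (hp _ _ (by omega))) hdec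
          rw [← em_eq_bet ξ p] at h1
          have h2 : gs p.1 p.2 * vv (bet ξ p) (2 ^ j) = em ξ (2 ^ j) -
              (em ξ (2 ^ j) - gs p.1 p.2 * vv (bet ξ p) (2 ^ j)) := by ring
          rw [h2]
          refine (norm_sub_le _ _).trans ((add_le_add hsmall.le h1).trans (le_of_eq ?_))
          ring
      · rw [Lf_of_not hex, norm_zero]
        positivity
    have hsum : ‖∑ s ∈ range (j / 8 + 1), Lf j s ξ‖ ≤ (j + 1) * ((1 + 26 * (1 + D)) * δ) := by
      refine (norm_sum_le _ _).trans ((Finset.sum_le_sum hterm).trans ?_)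
      rw [Finset.sum_const, nsmul_eq_mul, Finset.card_range]
      exact mul_le_mul_of_nonneg_right hcard (by positivity)
    refine (norm_sub_le _ _).trans ((add_le_add hsmall.le hsum).trans ?_)
    have h1 : 1 + ((j : ℝ) + 1) * (1 + 26 * (1 + D)) ≤ (26 * (1 + D) + 30) * (j + 1) := by nlinarith
    calc δ + (j + 1) * ((1 + 26 * (1 + (D : ℝ))) * δ) =
          (1 + ((j : ℝ) + 1) * (1 + 26 * (1 + D))) * δ := by ring
      _ ≤ (26 * (1 + D) + 30) * (j + 1) * δ := mul_le_mul_of_nonneg_right h1 hδ0.le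

end Pool.Agent.Lib.Pf720ae.Poly
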