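import Pool.Agent.Lib.Pf720ae.Poly.Decay

/-!
# Sums over lacunary sequences
-/

set_option autoImplicit false
set_option linter.unusedSectionVars false

open Finset

namespace Pool.Agent.Lib.Pf720ae.Poly

/-- small terms -/
lemma sum_small {t : ℕ → ℝ} (ht0 : ∀ j, 0 ≤ t j) (ht : ∀ j, 2 * t j ≤ t (j + 1)) (n : ℕ) :
    ∑ j ∈ range (n + 1), (if t j ≤ 1 then t j else 0) ≤ 2 * min (t n) 1 := by
  induction n with
  | zero =>
    rw [Finset.sum_range_one]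
    split_ifs with h
    · rw [min_eq_left h]; linarith [ht0 0]
    · rw [min_eq_right (not_le.1 h).le]; norm_num
  | succ n ih =>
    rw [Finset.sum_range_succ]
    have h1 := ht n
    have h2 := ht0 n
    by_cases h : t (n + 1) ≤ 1
    · rw [if_pos h, min_eq_left h]
      have h3 : t n ≤ 1 := by linarith
      rw [min_eq_left h3] at ih
      linarith
    · rw [if_neg h, min_eq_right (not_le.1 h).le]
      have h3 : min (t n) 1 ≤ 1 := min_le_right _ _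
      linarith

/-- large terms -/
lemma sum_large {c : ℝ} (hc : 0 < c) (n : ℕ) : ∀ {t : ℕ → ℝ}, (∀ j, 0 ≤ t j) →
    (∀ j, 2 * t j ≤ t (j + 1)) → ∑ j ∈ range n, (if 1 < t j then t j ^ (-c) else 0) ≤
      (1 - 2 ^ (-c))⁻¹ * (if 1 < t 0 then t 0 ^ (-c) else 1) := by
  have h2c : (2 : ℝ) ^ (-c) < 1 := Real.rpow_lt_one_of_one_lt_of_neg one_lt_two (neg_lt_zero.2 hc)
  have h2c0 : (0 : ℝ) < 2 ^ (-c) := Real.rpow_pos_of_pos two_pos _
  set K : ℝ := (1 - 2 ^ (-c))⁻¹ with hK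
  have hK0 : 0 < K := inv_pos.2 (by linarith)
  have hK1 : K * (1 - 2 ^ (-c)) = 1 := inv_mul_cancel₀ (by linarith)
  induction n with
  | zero =>
    intro t ht0 ht
    rw [Finset.sum_range_zero]
    split_ifs with h
    · exact mul_nonneg hK0.le (Real.rpow_nonneg (ht0 0) _)
    · linarith
  | succ n ih =>
    intro t ht0 ht
    rw [Finset.sum_range_succ']
    have h1 := ih (t := fun j => t (j + 1)) (fun j => ht0 _) (fun j => ht _)
    refine (add_le_add_left h1 _).trans ?_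
    by_cases h : 1 < t 0
    · have h3 : 1 < t 1 := by linarith [ht 0]
      simp only [zero_add, if_pos h, if_pos h3]
      have h4 : t 1 ^ (-c) ≤ 2 ^ (-c) * t 0 ^ (-c) := by
        rw [← Real.mul_rpow two_pos.le (by linarith)]
        exact Real.rpow_le_rpow_of_nonpos (by linarith) (ht 0) (by linarith)
      have h5 : 0 ≤ t 0 ^ (-c) := Real.rpow_nonneg (ht0 0) _
      calc K * t 1 ^ (-c) + t 0 ^ (-c) ≤ K * (2 ^ (-c) * t 0 ^ (-c)) + t 0 ^ (-c) := by gcongr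
        _ = (K * 2 ^ (-c) + 1) * t 0 ^ (-c) := by ring
        _ = K * t 0 ^ (-c) := by
            congr 1
            linarith
    · simp only [zero_add, if_neg h, mul_one, add_zero]
      have h6 : (if 1 < t 1 then t 1 ^ (-c) else 1) ≤ 1 := by
        split_ifs with h7
        · exact Real.rpow_le_one_of_one_le_of_nonpos h7.le (by linarith)
        · exact le_rfl
      calc K * (if 1 < t 1 then t 1 ^ (-c) else 1) ≤ K * 1 := mul_le_mul_of_nonneg_left h6 hK0.le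
        _ = K := mul_one K

/-- the basic function -/
noncomputable def phi (c t : ℝ) : ℝ := if t ≤ 1 then t else t ^ (-c)

lemma phi_nonneg {c t : ℝ} (ht : 0 ≤ t) : 0 ≤ phi c t := by
  unfold phi
  split_ifs
  · exact ht
  · exact Real.rpow_nonneg ht _

lemma phi_le_one {c t : ℝ} (hc : 0 < c) : phi c t ≤ 1 := by
  unfold phi
  split_ifs with h
  · exact h
  · exact Real.rpow_le_one_of_one_le_of_nonpos (not_le.1 h).le (by linarith)

theorem sum_phi {c : ℝ} (hc : 0 < c) {t : ℕ → ℝ} (ht0 : ∀ j, 0 ≤ t j)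
    (ht : ∀ j, 2 * t j ≤ t (j + 1)) (n : ℕ) :
    ∑ j ∈ range n, phi c (t j) ≤ 2 + (1 - 2 ^ (-c))⁻¹ := by
  have h2c : (2 : ℝ) ^ (-c) < 1 := Real.rpow_lt_one_of_one_lt_of_neg one_lt_two (neg_lt_zero.2 hc)
  set K : ℝ := (1 - 2 ^ (-c))⁻¹ with hK
  have hK0 : 0 < K := inv_pos.2 (by linarith)
  have h1 : ∑ j ∈ range n, (if t j ≤ 1 then t j else 0) ≤ 2 := by
    have h2 := sum_small ht0 ht n
    have h3 : ∑ j ∈ range n, (if t j ≤ 1 then t j else 0) ≤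
        ∑ j ∈ range (n + 1), (if t j ≤ 1 then t j else 0) := by
      refine Finset.sum_le_sum_of_subset_of_nonneg (Finset.range_mono (Nat.le_succ n)) ?_
      intro j _ _
      split_ifs
      · exact ht0 j
      · exact le_rfl
    have h4 : min (t n) 1 ≤ 1 := min_le_right _ _
    linarith
  have h2 : ∑ j ∈ range n, (if 1 < t j then t j ^ (-c) else 0) ≤ K := by
    refine (sum_large hc n ht0 ht).trans ?_
    have h6 : (if 1 < t 0 then t 0 ^ (-c) else 1) ≤ 1 := by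
      split_ifs with h7
      · exact Real.rpow_le_one_of_one_le_of_nonpos h7.le (by linarith)
      · exact le_rfl
    calc K * (if 1 < t 0 then t 0 ^ (-c) else 1) ≤ K * 1 := mul_le_mul_of_nonneg_left h6 hK0.le
      _ = K := mul_one K
  have h3 : ∑ j ∈ range n, phi c (t j) = ∑ j ∈ range n, (if t j ≤ 1 then t j else 0) +
      ∑ j ∈ range n, (if 1 < t j then t j ^ (-c) else 0) := by
    rw [← Finset.sum_add_distrib]
    refine Finset.sum_congr rfl fun j _ => ?_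
    unfold phi
    by_cases h : t j ≤ 1
    · rw [if_pos h, if_pos h, if_neg (not_lt.2 h), add_zero]
    · rw [if_neg h, if_neg h, if_pos (not_le.1 h), zero_add]
  rw [h3]
  linarith

/-- decay in the form `‖v‖ ≤ A t^(-c)` -/
lemma rpow_decay {C : ℕ} {B v t : ℝ} (hB : 1 ≤ B) (hv0 : 0 ≤ v) (hv1 : v ≤ 1) (ht : 0 < t)
    (h : ∀ δ : ℝ, 0 < δ → δ ≤ 1 / 2 → δ < v → t ≤ B * δ⁻¹ ^ C) :
    v ≤ 4 * B * t ^ (-((C : ℝ) + 1)⁻¹) := by
  set c : ℝ := ((C : ℝ) + 1)⁻¹ with hc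
  have hC1 : (0 : ℝ) < (C : ℝ) + 1 := by positivity
  have hc0 : 0 < c := inv_pos.2 hC1
  have hc1 : c ≤ 1 := inv_le_one_of_one_le₀ (by linarith [Nat.cast_nonneg (α := ℝ) C])
  have hts : 0 < t ^ (-c) := Real.rpow_pos_of_pos ht _
  rcases hv0.eq_or_lt with h0 | hvpos
  · rw [← h0]; positivity
  have h1 := h (v / 4) (by positivity) (by linarith) (by linarith)
  have h2 : t ≤ B * (4 * v⁻¹) ^ (C + 1) := by
    have h3 : (v / 4)⁻¹ = 4 * v⁻¹ := by field_simp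
    rw [h3] at h1
    refine h1.trans (mul_le_mul_of_nonneg_left ?_ (by linarith))
    refine pow_le_pow_right₀ ?_ (Nat.le_succ C)
    have : 1 ≤ v⁻¹ := one_le_inv_iff₀.2 ⟨hvpos, hv1⟩
    linarith
  have h4 : t ≤ (4 * B * v⁻¹) ^ (C + 1) := by
    refine h2.trans ?_
    have h5 : (4 * B * v⁻¹) ^ (C + 1) = B ^ (C + 1) * (4 * v⁻¹) ^ (C + 1) := by
      rw [← mul_pow]; congr 1; ring
    rw [h5]
    refine mul_le_mul_of_nonneg_right ?_ (by positivity)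
    calc B = B ^ 1 := (pow_one _).symm
      _ ≤ B ^ (C + 1) := pow_le_pow_right₀ hB (by omega)
  have h5 : t ^ c ≤ 4 * B * v⁻¹ := by
    have h6 := Real.rpow_le_rpow ht.le h4 hc0.le
    refine h6.trans (le_of_eq ?_)
    rw [← Real.rpow_natCast, ← Real.rpow_mul (by positivity)]
    have : ((C + 1 : ℕ) : ℝ) * c = 1 := by
      rw [hc]; push_cast; exact mul_inv_cancel₀ hC1.ne'
    rw [this, Real.rpow_one]
  rw [Real.rpow_neg ht.le]
  have htc : 0 < t ^ c := Real.rpow_pos_of_pos ht _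
  rw [← div_eq_mul_inv, le_div_iff₀ htc]
  calc v * t ^ c ≤ v * (4 * B * v⁻¹) := mul_le_mul_of_nonneg_left h5 hvpos.le
    _ = 4 * B := by field_simp

variable {D C : ℕ}

lemma sz_two (β : Fin D → ℝ) (j : ℕ) :
    2 * sz β ((2 ^ j : ℕ) : ℝ) ≤ sz β ((2 ^ (j + 1) : ℕ) : ℝ) := by
  unfold sz
  rw [Finset.mul_sum]
  refine Finset.sum_le_sum fun e _ => ?_
  push_cast
  have h1 : ((2 : ℝ) ^ (j + 1)) ^ ((e : ℕ) + 1) = 2 ^ ((e : ℕ) + 1) * (2 ^ j) ^ ((e : ℕ) + 1) := by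
    rw [← mul_pow]; congr 1; ring
  rw [h1]
  have h2 : (2 : ℝ) ≤ 2 ^ ((e : ℕ) + 1) := by
    calc (2 : ℝ) = 2 ^ 1 := (pow_one _).symm
      _ ≤ 2 ^ ((e : ℕ) + 1) := pow_le_pow_right₀ one_le_two (by omega)
  have h3 : 0 ≤ |β e| * ((2 : ℝ) ^ j) ^ ((e : ℕ) + 1) := by positivity
  calc 2 * (|β e| * ((2 : ℝ) ^ j) ^ ((e : ℕ) + 1)) ≤
        2 ^ ((e : ℕ) + 1) * (|β e| * ((2 : ℝ) ^ j) ^ ((e : ℕ) + 1)) :=
        mul_le_mul_of_nonneg_right h2 h3
    _ = |β e| * (2 ^ ((e : ℕ) + 1) * (2 ^ j) ^ ((e : ℕ) + 1)) := by ring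

/-- decay of the continuous averages -/
lemma vv_rpow (hIW : IW D C) (β : Fin D → ℝ) (N : ℕ) (h : 0 < sz β N) :
    ‖vv β N‖ ≤ 4 * (D + 1) * sz β N ^ (-((C : ℝ) + 1)⁻¹) := by
  refine rpow_decay (by linarith [Nat.cast_nonneg (α := ℝ) D]) (norm_nonneg _) (norm_vv_le _ _) h ?_
  intro δ hδ hδ2 hv
  have h1 := vv_decay hIW β N hδ hδ2 hv
  have h2 : sz β N ≤ D * δ⁻¹ ^ C := by
    unfold sz
    refine (Finset.sum_le_sum fun e _ => h1 e).trans ?_
    simp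
  refine h2.trans (mul_le_mul_of_nonneg_right (by linarith) ?_)
  exact pow_nonneg (inv_nonneg.2 hδ.le) _

/-- consecutive differences -/
lemma vv_diff (hIW : IW D C) (β : Fin D → ℝ) (j : ℕ) :
    ‖vv β (2 ^ (j + 1)) - vv β (2 ^ j)‖ ≤
      (8 * 2 ^ D + 8 * (D + 1)) * phi ((C : ℝ) + 1)⁻¹ (sz β ((2 ^ j : ℕ) : ℝ)) := by
  have hc0 : 0 < ((C : ℝ) + 1)⁻¹ := by positivity
  set c : ℝ := ((C : ℝ) + 1)⁻¹ with hc
  set t : ℝ := sz β ((2 ^ j : ℕ) : ℝ) with ht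
  have ht0 : 0 ≤ t := sz_nonneg β (Nat.cast_nonneg _)
  have hD : (0 : ℝ) ≤ D := Nat.cast_nonneg D
  have h2D : (1 : ℝ) ≤ 2 ^ D := one_le_pow₀ one_le_two
  have ht1 : 2 * t ≤ sz β ((2 ^ (j + 1) : ℕ) : ℝ) := sz_two β j
  unfold phi
  split_ifs with h
  · -- near the origin
    have h1 : sz β ((2 ^ (j + 1) : ℕ) : ℝ) ≤ 2 ^ D * t := by
      rw [ht]
      unfold sz
      rw [Finset.mul_sum]
      refine Finset.sum_le_sum fun e _ => ?_
      push_cast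
      have h1 : ((2 : ℝ) ^ (j + 1)) ^ ((e : ℕ) + 1) = 2 ^ ((e : ℕ) + 1) * (2 ^ j) ^ ((e : ℕ) + 1) := by
        rw [← mul_pow]; congr 1; ring
      rw [h1]
      have h2 : (2 : ℝ) ^ ((e : ℕ) + 1) ≤ 2 ^ D := pow_le_pow_right₀ one_le_two (by omega)
      have h3 : 0 ≤ |β e| * ((2 : ℝ) ^ j) ^ ((e : ℕ) + 1) := by positivity
      calc |β e| * (2 ^ ((e : ℕ) + 1) * (2 ^ j) ^ ((e : ℕ) + 1)) =
            2 ^ ((e : ℕ) + 1) * (|β e| * ((2 : ℝ) ^ j) ^ ((e : ℕ) + 1)) := by ring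
        _ ≤ 2 ^ D * (|β e| * ((2 : ℝ) ^ j) ^ ((e : ℕ) + 1)) := mul_le_mul_of_nonneg_right h2 h3
    have h2 := vv_near β (2 ^ (j + 1))
    have h3 := vv_near β (2 ^ j)
    have h4 : vv β (2 ^ (j + 1)) - vv β (2 ^ j) = (vv β (2 ^ (j + 1)) - 1) - (vv β (2 ^ j) - 1) := by
      ring
    rw [h4]
    refine (norm_sub_le _ _).trans ((add_le_add h2 h3).trans ?_)
    have hpi : Real.pi ≤ 4 := Real.pi_le_four
    have hpi0 := Real.pi_pos
    have h5 : 2 * Real.pi * sz β ((2 ^ (j + 1) : ℕ) : ℝ) ≤ 8 * (2 ^ D * t) := by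
      refine mul_le_mul (by linarith) h1 (sz_nonneg β (Nat.cast_nonneg _)) (by norm_num)
    have h6 : 2 * Real.pi * t ≤ 8 * t := mul_le_mul_of_nonneg_right (by linarith) ht0
    nlinarith
  · have htp : 0 < t := by linarith [not_le.1 h]
    have h2 := vv_rpow hIW β (2 ^ (j + 1)) (by linarith)
    have h3 := vv_rpow hIW β (2 ^ j) htp
    have h4 : sz β ((2 ^ (j + 1) : ℕ) : ℝ) ^ (-c) ≤ t ^ (-c) :=
      Real.rpow_le_rpow_of_nonpos htp (by linarith) (by linarith)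
    refine (norm_sub_le _ _).trans ((add_le_add h2 h3).trans ?_)
    have h5 : 0 ≤ t ^ (-c) := Real.rpow_nonneg ht0 _
    have h6 : 4 * ((D : ℝ) + 1) * sz β ((2 ^ (j + 1) : ℕ) : ℝ) ^ (-c) ≤ 4 * (D + 1) * t ^ (-c) :=
      mul_le_mul_of_nonneg_left h4 (by positivity)
    rw [← ht]
    nlinarith

/-- total variation of the continuous averages along the powers of two -/
theorem vv_variation (hIW : IW D C) : ∃ A : ℝ, 0 ≤ A ∧ ∀ (β : Fin D → ℝ) (j₀ n : ℕ),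
    ∑ j ∈ range n, ‖vv β (2 ^ (j₀ + j + 1)) - vv β (2 ^ (j₀ + j))‖ ≤ A := by
  have hc0 : 0 < ((C : ℝ) + 1)⁻¹ := by positivity
  have h2c : (2 : ℝ) ^ (-((C : ℝ) + 1)⁻¹) < 1 :=
    Real.rpow_lt_one_of_one_lt_of_neg one_lt_two (neg_lt_zero.2 hc0)
  refine ⟨(8 * 2 ^ D + 8 * (D + 1)) * (2 + (1 - 2 ^ (-((C : ℝ) + 1)⁻¹))⁻¹), ?_, fun β j₀ n => ?_⟩
  · have : 0 < (1 - (2 : ℝ) ^ (-((C : ℝ) + 1)⁻¹))⁻¹ := inv_pos.2 (by linarith)
    positivity
  · refine (Finset.sum_le_sum fun j _ => vv_diff hIW β (j₀ + j)).trans ?_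
    rw [← Finset.mul_sum]
    refine mul_le_mul_of_nonneg_left ?_ (by positivity)
    exact sum_phi hc0 (t := fun j => sz β ((2 ^ (j₀ + j) : ℕ) : ℝ))
      (fun j => sz_nonneg β (Nat.cast_nonneg _)) (fun j => by
        have := sz_two β (j₀ + j)
        rwa [add_assoc] at this) n

end Pool.Agent.Lib.Pf720ae.Poly
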