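import Pool.Agent.Lib.Pf720ae.Poly.Arcs
import Pool.Agent.Lib.Pf720ae.Poly.Sums
import Pool.Agent.Lib.Pf720ae.Poly.Fin

/-!
# Multipliers of box averages on sublattices
-/

set_option autoImplicit false
set_option linter.unusedSectionVars false

open Finset ZMod

namespace Pool.Agent.Lib.Pf720ae.Poly

variable {D C : ℕ}

/-- side lengths -/
def ml (Q j : ℕ) (e : Fin D) : ℕ := 2 ^ (j * ((e : ℕ) + 1)) / Q + 1

lemma ml_pos (Q j : ℕ) (e : Fin D) : 0 < ml Q j e := Nat.succ_pos _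

lemma ml_lower {Q : ℕ} (hQ : 0 < Q) (j : ℕ) (e : Fin D) :
    ((2 : ℝ) ^ j) ^ ((e : ℕ) + 1) ≤ ml Q j e * Q := by
  have h1 : 2 ^ (j * ((e : ℕ) + 1)) < Q * (2 ^ (j * ((e : ℕ) + 1)) / Q + 1) :=
    Nat.lt_mul_div_succ _ hQ
  have h2 : ((2 ^ (j * ((e : ℕ) + 1)) : ℕ) : ℝ) ≤ ((Q * ml Q j e : ℕ) : ℝ) := by
    exact_mod_cast h1.le
  push_cast at h2
  rw [← pow_mul, mul_comm (ml Q j e : ℝ)]
  exact h2

lemma ml_upper {Q : ℕ} (j : ℕ) (hQj : Q ≤ 2 ^ j) (e : Fin D) :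
    (ml Q j e : ℝ) * Q ≤ 2 * ((2 : ℝ) ^ j) ^ ((e : ℕ) + 1) := by
  have h1 : 2 ^ (j * ((e : ℕ) + 1)) / Q * Q ≤ 2 ^ (j * ((e : ℕ) + 1)) := Nat.div_mul_le_self _ _
  have h2 : Q ≤ 2 ^ (j * ((e : ℕ) + 1)) :=
    hQj.trans (Nat.pow_le_pow_right two_pos (Nat.le_mul_of_pos_right j (Nat.succ_pos _)))
  have h3 : ml Q j e * Q ≤ 2 * 2 ^ (j * ((e : ℕ) + 1)) := by
    unfold ml
    rw [add_mul, one_mul]
    omega
  have h4 : ((ml Q j e * Q : ℕ) : ℝ) ≤ ((2 * 2 ^ (j * ((e : ℕ) + 1)) : ℕ) : ℝ) := by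
    exact_mod_cast h3
  push_cast at h4
  rwa [← pow_mul]

/-- one factor -/
noncomputable def b1 (Q M : ℕ) (β : ℝ) : ℂ := (M : ℂ)⁻¹ * ∑ x ∈ range M, ee (Q * x * β)

lemma norm_b1_le (Q M : ℕ) (β : ℝ) : ‖b1 Q M β‖ ≤ 1 := by
  unfold b1
  rw [norm_mul, norm_inv, Complex.norm_natCast]
  rcases Nat.eq_zero_or_pos M with h | h
  · simp [h]
  · have hN : (0 : ℝ) < M := Nat.cast_pos.2 h
    rw [inv_mul_le_iff₀ hN, mul_one]
    refine (norm_sum_le _ _).trans ?_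
    simp [norm_ee]

lemma b1_near {Q M : ℕ} (hM : 0 < M) (β : ℝ) :
    ‖b1 Q M β - 1‖ ≤ 2 * Real.pi * (M * Q * |β|) := by
  have hM' : (M : ℂ) ≠ 0 := Nat.cast_ne_zero.2 hM.ne'
  have hMR : (0 : ℝ) < M := Nat.cast_pos.2 hM
  have h1 : b1 Q M β - 1 = (M : ℂ)⁻¹ * ∑ x ∈ range M, (ee (Q * x * β) - 1) := by
    unfold b1
    rw [Finset.sum_sub_distrib, mul_sub]
    congr 1
    simp [hM']
  rw [h1, norm_mul, norm_inv, Complex.norm_natCast, inv_mul_le_iff₀ hMR]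
  refine (norm_sum_le _ _).trans ?_
  have h2 : ∀ x ∈ range M, ‖ee (Q * x * β) - 1‖ ≤ 2 * Real.pi * (M * Q * |β|) := by
    intro x hx
    have h3 := norm_ee_sub_le (Q * x * β) 0
    rw [ee_zero, sub_zero] at h3
    refine h3.trans (mul_le_mul_of_nonneg_left ?_ Real.two_pi_pos.le)
    rw [abs_mul, abs_of_nonneg (by positivity : (0 : ℝ) ≤ Q * x)]
    refine mul_le_mul_of_nonneg_right ?_ (abs_nonneg _)
    rw [mul_comm (Q : ℝ)]
    refine mul_le_mul_of_nonneg_right ?_ (Nat.cast_nonneg _)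
    exact_mod_cast (Finset.mem_range.1 hx).le
  refine (Finset.sum_le_sum h2).trans ?_
  simp

lemma norm_ee_sub_one (θ : ℝ) (hθ : |θ| ≤ 1 / 2) : 4 * |θ| ≤ ‖ee θ - 1‖ := by
  have h1 : ee θ = Complex.exp (Complex.I * ((2 * Real.pi * θ : ℝ) : ℂ)) := by
    unfold ee
    congr 1
    push_cast
    ring
  rw [h1, Complex.norm_exp_I_mul_ofReal_sub_one, Real.norm_eq_abs, abs_mul, abs_two]
  have h2 : 2 * Real.pi * θ / 2 = Real.pi * θ := by ring
  rw [h2]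
  have h3 : |Real.pi * θ| ≤ Real.pi / 2 := by
    rw [abs_mul, abs_of_pos Real.pi_pos]
    have := Real.pi_pos
    nlinarith
  have h4 := Real.mul_abs_le_abs_sin h3
  rw [abs_mul, abs_of_pos Real.pi_pos] at h4
  have h5 : 2 / Real.pi * (Real.pi * |θ|) = 2 * |θ| := by
    field_simp
  rw [h5] at h4
  linarith

lemma b1_decay {Q M : ℕ} (hM : 0 < M) {β : ℝ} (h : (Q : ℝ) * |β| ≤ 1 / 2) :
    ‖b1 Q M β‖ * (2 * (M * Q * |β|)) ≤ 1 := by
  have hMR : (0 : ℝ) < M := Nat.cast_pos.2 hM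
  set θ : ℝ := Q * β with hθ
  have hθabs : |θ| = Q * |β| := by rw [hθ, abs_mul, abs_of_nonneg (Nat.cast_nonneg Q)]
  have h1 : ∀ x : ℕ, ee (Q * x * β) = ee θ ^ x := by
    intro x
    induction x with
    | zero => simp [ee_zero]
    | succ x ih =>
      rw [pow_succ, ← ih, ← ee_add]
      congr 1
      rw [hθ]
      push_cast
      ring
  have h2 : (∑ x ∈ range M, ee (Q * x * β)) * (ee θ - 1) = ee θ ^ M - 1 := by
    simp only [h1]
    exact geom_sum_mul _ _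
  have h3 : ‖∑ x ∈ range M, ee (Q * x * β)‖ * ‖ee θ - 1‖ ≤ 2 := by
    rw [← norm_mul, h2]
    refine (norm_sub_le _ _).trans ?_
    rw [norm_pow, norm_ee, one_pow, norm_one]
    norm_num
  have h4 := norm_ee_sub_one θ (by rw [hθabs]; exact h)
  have h5 : ‖∑ x ∈ range M, ee (Q * x * β)‖ * (4 * |θ|) ≤ 2 :=
    (mul_le_mul_of_nonneg_left h4 (norm_nonneg _)).trans h3
  unfold b1
  rw [norm_mul, norm_inv, Complex.norm_natCast]
  generalize ‖∑ x ∈ range M, ee (Q * x * β)‖ = Sx at h5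
  have h6 : (M : ℝ)⁻¹ * Sx * (2 * (M * Q * |β|)) = Sx * (4 * |θ|) / 2 := by
    rw [hθabs]
    field_simp
    ring
  rw [h6]
  linarith

/-- the multiplier of box averages -/
noncomputable def bb (Q j : ℕ) (β : Fin D → ℝ) : ℂ := ∏ e, b1 Q (ml Q j e) (β e)

lemma norm_bb_le (Q j : ℕ) (β : Fin D → ℝ) : ‖bb Q j β‖ ≤ 1 := by
  unfold bb
  rw [norm_prod]
  exact Finset.prod_le_one (fun _ _ => norm_nonneg _) fun _ _ => norm_b1_le _ _ _

lemma norm_prod_sub_one_le {ι : Type*} (s : Finset ι) (z : ι → ℂ) (hz : ∀ i, ‖z i‖ ≤ 1) :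
    ‖∏ i ∈ s, z i - 1‖ ≤ ∑ i ∈ s, ‖z i - 1‖ := by
  classical
  induction s using Finset.induction_on with
  | empty => simp
  | insert a s ha ih =>
    rw [Finset.prod_insert ha, Finset.sum_insert ha]
    have h1 : z a * ∏ i ∈ s, z i - 1 = z a * (∏ i ∈ s, z i - 1) + (z a - 1) := by ring
    rw [h1, add_comm]
    refine (norm_add_le _ _).trans (add_le_add le_rfl ?_)
    rw [norm_mul]
    exact (mul_le_of_le_one_left (norm_nonneg _) (hz a)).trans ih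

lemma bb_near {Q j : ℕ} (hQj : Q ≤ 2 ^ j) (β : Fin D → ℝ) :
    ‖bb Q j β - 1‖ ≤ 4 * Real.pi * sz β ((2 ^ j : ℕ) : ℝ) := by
  unfold bb
  refine (norm_prod_sub_one_le _ _ fun e => norm_b1_le _ _ _).trans ?_
  unfold sz
  rw [Finset.mul_sum]
  refine Finset.sum_le_sum fun e _ => ?_
  refine (b1_near (ml_pos Q j e) (β e)).trans ?_
  have h1 := ml_upper (D := D) j hQj e
  push_cast
  calc 2 * Real.pi * (ml Q j e * Q * |β e|) ≤
        2 * Real.pi * (2 * ((2 : ℝ) ^ j) ^ ((e : ℕ) + 1) * |β e|) := by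
        refine mul_le_mul_of_nonneg_left ?_ Real.two_pi_pos.le
        exact mul_le_mul_of_nonneg_right h1 (abs_nonneg _)
    _ = 4 * Real.pi * (|β e| * (2 ^ j) ^ ((e : ℕ) + 1)) := by ring

lemma bb_decay {Q j : ℕ} (hQ : 0 < Q) {β : Fin D → ℝ} (h : ∀ e, (Q : ℝ) * |β e| ≤ 1 / 2) :
    ‖bb Q j β‖ * (2 * sz β ((2 ^ j : ℕ) : ℝ)) ≤ D := by
  unfold sz
  rw [Finset.mul_sum, Finset.mul_sum]
  have h1 : ∀ e ∈ (Finset.univ : Finset (Fin D)),
      ‖bb Q j β‖ * (2 * (|β e| * ((2 ^ j : ℕ) : ℝ) ^ ((e : ℕ) + 1))) ≤ 1 := by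
    intro e _
    have h2 : ‖bb Q j β‖ ≤ ‖b1 Q (ml Q j e) (β e)‖ := by
      unfold bb
      rw [← Finset.mul_prod_erase Finset.univ _ (Finset.mem_univ e), norm_mul]
      refine mul_le_of_le_one_right (norm_nonneg _) ?_
      rw [norm_prod]
      exact Finset.prod_le_one (fun _ _ => norm_nonneg _) fun _ _ => norm_b1_le _ _ _
    have h3 := b1_decay (ml_pos Q j e) (h e)
    have h4 := ml_lower (D := D) hQ j e
    refine le_trans ?_ h3
    refine mul_le_mul h2 ?_ (by positivity) (norm_nonneg _)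
    push_cast
    have h5 : |β e| * ((2 : ℝ) ^ j) ^ ((e : ℕ) + 1) ≤ ml Q j e * Q * |β e| := by
      rw [mul_comm]
      exact mul_le_mul_of_nonneg_right h4 (abs_nonneg _)
    linarith
  refine (Finset.sum_le_sum h1).trans ?_
  simp

/-- comparison of the continuous averages with the box averages -/
lemma vv_bb (hIW : IW D C) {Q j : ℕ} (hQ : 0 < Q) (hQj : Q ≤ 2 ^ j) {β : Fin D → ℝ}
    (h : ∀ e, (Q : ℝ) * |β e| ≤ 1 / 2) :
    ‖vv β (2 ^ j) - bb Q j β‖ ≤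
      (24 + 5 * (D + 1)) * phi ((C : ℝ) + 1)⁻¹ (sz β ((2 ^ j : ℕ) : ℝ)) := by
  have hC1 : (0 : ℝ) < (C : ℝ) + 1 := by positivity
  have hc0 : 0 < ((C : ℝ) + 1)⁻¹ := inv_pos.2 hC1
  have hc1 : ((C : ℝ) + 1)⁻¹ ≤ 1 :=
    inv_le_one_of_one_le₀ (by linarith [Nat.cast_nonneg (α := ℝ) C])
  set c : ℝ := ((C : ℝ) + 1)⁻¹ with hc
  set t : ℝ := sz β ((2 ^ j : ℕ) : ℝ) with ht
  have ht0 : 0 ≤ t := sz_nonneg β (Nat.cast_nonneg _)
  have hD : (0 : ℝ) ≤ D := Nat.cast_nonneg D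
  have hpi : Real.pi ≤ 4 := Real.pi_le_four
  unfold phi
  split_ifs with h1
  · have h2 := vv_near β (2 ^ j)
    have h3 := bb_near hQj β
    have h4 : vv β (2 ^ j) - bb Q j β = (vv β (2 ^ j) - 1) - (bb Q j β - 1) := by ring
    rw [h4]
    refine (norm_sub_le _ _).trans ((add_le_add h2 h3).trans ?_)
    rw [← ht]
    have h5 : 2 * Real.pi * t ≤ 8 * t := mul_le_mul_of_nonneg_right (by linarith) ht0
    have h6 : 4 * Real.pi * t ≤ 16 * t := mul_le_mul_of_nonneg_right (by linarith) ht0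
    nlinarith
  · have htp : 1 < t := not_le.1 h1
    have h2 := vv_rpow hIW β (2 ^ j) (by linarith)
    have h3 := bb_decay (j := j) hQ h
    rw [← ht] at h2 h3
    have h4 : ‖bb Q j β‖ ≤ D * t⁻¹ := by
      have h5 : 0 ≤ ‖bb Q j β‖ := norm_nonneg _
      rw [← div_eq_mul_inv, le_div_iff₀ (by linarith)]
      nlinarith
    have h5 : t⁻¹ ≤ t ^ (-c) := by
      rw [← Real.rpow_neg_one]
      exact Real.rpow_le_rpow_of_exponent_le htp.le (by linarith)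
    have h6 : 0 ≤ t ^ (-c) := Real.rpow_nonneg ht0 _
    refine (norm_sub_le _ _).trans ?_
    have h7 : (D : ℝ) * t⁻¹ ≤ D * t ^ (-c) := mul_le_mul_of_nonneg_left h5 hD
    nlinarith

/-- the frequency of a character -/
noncomputable def fq {L : ℕ} [NeZero L] (a : Fin D → ZMod L) : Fin D → ℝ :=
  fun e => ((a e).val : ℝ) / L

lemma chi_eq {L : ℕ} [NeZero L] (a : Fin D → ZMod L) (x : Fin D → ℕ) :
    chi a (fun e => (x e : ZMod L)) = ee (∑ e, fq a e * x e) := by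
  have h1 : (∑ e, a e * (x e : ZMod L)) = (((∑ e, (a e).val * x e : ℕ) : ℤ) : ZMod L) := by
    push_cast
    refine Finset.sum_congr rfl fun e _ => ?_
    rw [ZMod.natCast_zmod_val]
  unfold chi
  rw [h1, stdAddChar_coe]
  unfold ee fq
  congr 1
  have hL : (L : ℂ) ≠ 0 := Nat.cast_ne_zero.2 (NeZero.ne L)
  push_cast
  rw [mul_div_assoc]
  have h2 : (∑ e, ((a e).val : ℂ) * (x e : ℂ)) / (L : ℂ) =
      ∑ e, ((a e).val : ℂ) / (L : ℂ) * (x e : ℂ) := by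
    rw [Finset.sum_div]
    refine Finset.sum_congr rfl fun e _ => ?_
    field_simp
  rw [h2]
  ring

/-- the curve -/
def gam (L : ℕ) (n : ℕ) : Fin D → ZMod L := fun e => ((n ^ ((e : ℕ) + 1) : ℕ) : ZMod L)

lemma op_em {L : ℕ} [NeZero L] (F : (Fin D → ZMod L) → ℂ) (N : ℕ) (x : Fin D → ZMod L) :
    op (fun a => em (fq a) N) F x = (N : ℂ)⁻¹ * ∑ n ∈ range N, F (x + gam L n) := by
  have h1 : (fun a : Fin D → ZMod L => em (fq a) N) =
      fun a => (N : ℂ)⁻¹ * ∑ n ∈ range N, chi a (gam L n) := by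
    funext a
    unfold em
    congr 1
    refine Finset.sum_congr rfl fun n _ => ?_
    have h2 := chi_eq a (fun e : Fin D => n ^ ((e : ℕ) + 1))
    have h3 : ph (fq a) n = ∑ e, fq a e * ((n ^ ((e : ℕ) + 1) : ℕ) : ℝ) := by
      unfold ph
      refine Finset.sum_congr rfl fun e _ => ?_
      push_cast
      rfl
    rw [h3, ← h2]
    rfl
  rw [h1, op_smul, op_sum]
  congr 1
  refine Finset.sum_congr rfl fun n _ => ?_
  exact op_chi _ F x

lemma op_bb {L : ℕ} [NeZero L] (F : (Fin D → ZMod L) → ℂ) (Q j : ℕ) (x : Fin D → ZMod L) :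
    op (fun a => bb Q j (fq a)) F x = (∏ e : Fin D, ((ml Q j e : ℕ) : ℂ))⁻¹ *
      ∑ m ∈ Fintype.piFinset (fun e : Fin D => range (ml Q j e)),
        F (x + fun e => ((Q * m e : ℕ) : ZMod L)) := by
  have h1 : (fun a : Fin D → ZMod L => bb Q j (fq a)) =
      fun a => (∏ e : Fin D, ((ml Q j e : ℕ) : ℂ))⁻¹ *
        ∑ m ∈ Fintype.piFinset (fun e : Fin D => range (ml Q j e)),
          chi a (fun e => ((Q * m e : ℕ) : ZMod L)) := by
    funext a
    unfold bb b1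
    rw [Finset.prod_mul_distrib, Finset.prod_inv_distrib, Finset.prod_univ_sum]
    congr 1
    refine Finset.sum_congr rfl fun m _ => ?_
    rw [chi_eq a (fun e => Q * m e)]
    have h2 : ∀ (s : Finset (Fin D)) (f : Fin D → ℝ), ee (∑ e ∈ s, f e) = ∏ e ∈ s, ee (f e) := by
      intro s f
      classical
      induction s using Finset.induction_on with
      | empty => simp [ee_zero]
      | insert b s hb ih => rw [Finset.sum_insert hb, Finset.prod_insert hb, ee_add, ih]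
    rw [h2]
    refine Finset.prod_congr rfl fun e _ => ?_
    congr 1
    push_cast
    ring
  rw [h1, op_smul, op_sum]
  congr 1
  refine Finset.sum_congr rfl fun m _ => ?_
  exact op_chi _ F x

/-- periodicity of the box multiplier -/
lemma bb_eq_bet {Q j : ℕ} (ξ : Fin D → ℝ) {p : ℕ × (Fin D → ℤ)} (hp : 0 < p.1) (h : p.1 ∣ Q) :
    bb Q j ξ = bb Q j (bet ξ p) := by
  obtain ⟨k, hk⟩ := h
  unfold bb b1
  refine Finset.prod_congr rfl fun e _ => ?_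
  congr 1
  refine Finset.sum_congr rfl fun x _ => ?_
  have hp' : (p.1 : ℝ) ≠ 0 := Nat.cast_ne_zero.2 hp.ne'
  have h1 : (Q : ℝ) * x * ξ e = Q * x * bet ξ p e +
      ((k * x * p.2 e + Q * x * round (ξ e - (p.2 e : ℝ) / p.1) : ℤ) : ℝ) := by
    unfold bet fr
    push_cast
    rw [hk]
    push_cast
    field_simp
    ring
  rw [h1, ee_add_int]

end Pool.Agent.Lib.Pf720ae.Poly
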