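import Pool.Agent.Lib.Pf720ae.Poly.FinalMax
import Pool.Agent.Lib.Pf720pp.Factor

/-!
# Extensions of affine actions whose zero entropy sets lie in the affine factor
-/

set_option autoImplicit false

set_option linter.unusedSectionVars false

open Finset MeasureTheory Filter Topology

namespace Pool.Agent.Lib.Pf720ae.Aff

section factor

variable {X Y : Type} {mX : MeasurableSpace X} {mY : MeasurableSpace Y} {μ : Measure X}
  [IsProbabilityMeasure μ]

lemma fac_mul {π : X → Y} {g h : Equiv.Perm X} {g' h' : Equiv.Perm Y}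
    (hh : MeasurePreserving h μ μ) (a1 : ∀ᵐ x ∂μ, π (g x) = g' (π x))
    (a2 : ∀ᵐ x ∂μ, π (h x) = h' (π x)) : ∀ᵐ x ∂μ, π ((g * h) x) = (g' * h') (π x) := by
  filter_upwards [hh.quasiMeasurePreserving.ae a1, a2] with x h1 h2
  change π (g (h x)) = g' (h' (π x))
  rw [h1, h2]

lemma fac_inv {π : X → Y} {g : Equiv.Perm X} {g' : Equiv.Perm Y}
    (hh : MeasurePreserving (g⁻¹ : Equiv.Perm X) μ μ) (a1 : ∀ᵐ x ∂μ, π (g x) = g' (π x)) :
    ∀ᵐ x ∂μ, π ((g⁻¹ : Equiv.Perm X) x) = (g'⁻¹ : Equiv.Perm Y) (π x) := by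
  filter_upwards [hh.quasiMeasurePreserving.ae a1] with x h1
  have h2 : g ((g⁻¹ : Equiv.Perm X) x) = x := g.apply_symm_apply x
  rw [h2] at h1
  have h3 : (g'⁻¹ : Equiv.Perm Y) (g' (π ((g⁻¹ : Equiv.Perm X) x))) = π ((g⁻¹ : Equiv.Perm X) x) :=
    g'.symm_apply_apply _
  rw [← h1] at h3
  exact h3.symm

lemma fac_pow {π : X → Y} {g : Equiv.Perm X} {g' : Equiv.Perm Y}
    (hg : MeasurePreserving g μ μ) (a1 : ∀ᵐ x ∂μ, π (g x) = g' (π x)) (n : ℕ) :
    ∀ᵐ x ∂μ, π ((g ^ n : Equiv.Perm X) x) = (g' ^ n : Equiv.Perm Y) (π x) := by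
  induction n with
  | zero => exact Eventually.of_forall fun x => rfl
  | succ n ih =>
    rw [pow_succ, pow_succ]
    exact fac_mul hg ih a1

lemma fac_zpow {π : X → Y} {T : Equiv.Perm X} {S : Equiv.Perm Y} (h1 : Measurable T)
    (h2 : Measurable T.symm) (h3 : MeasurePreserving T μ μ)
    (a1 : ∀ᵐ x ∂μ, π (T x) = S (π x)) (z : ℤ) :
    ∀ᵐ x ∂μ, π ((T ^ z : Equiv.Perm X) x) = (S ^ z : Equiv.Perm Y) (π x) := by
  cases z with
  | ofNat n => exact fac_pow h3 a1 n
  | negSucc n =>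
    have h4 : MeasurePreserving (T⁻¹ : Equiv.Perm X) μ μ := by
      have := mp_zpow h1 h2 h3 (-1)
      rwa [zpow_neg_one] at this
    rw [zpow_negSucc, ← inv_pow, zpow_negSucc, ← inv_pow]
    exact fac_pow h4 (fac_inv h4 a1) (n + 1)

lemma fac_pw {π : X → Y} {d : ℕ} (T : Fin d → Equiv.Perm X) (S : Fin d → Equiv.Perm Y)
    (hT : ∀ i, Measurable (T i) ∧ Measurable (T i).symm ∧ MeasurePreserving (T i) μ μ)
    (a1 : ∀ i, ∀ᵐ x ∂μ, π (T i x) = S i (π x)) (γ : Fin d → ℤ) :
    ∀ᵐ x ∂μ, π (pw T γ x) = pw S γ (π x) := by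
  unfold pw
  induction d with
  | zero => exact Eventually.of_forall fun x => rfl
  | succ d ih =>
    rw [List.ofFn_succ, List.prod_cons, List.ofFn_succ, List.prod_cons]
    refine fac_mul ?_ (fac_zpow (hT 0).1 (hT 0).2.1 (hT 0).2.2 (a1 0) _)
      (ih (fun i => T i.succ) (fun i => S i.succ) (fun i => hT _) (fun i => a1 _)
        (fun i => γ i.succ))
    exact mp_pw (fun i => T i.succ) (fun i => hT _) (fun i => γ i.succ)

/-- convergence is inherited by the functions that come from a factor -/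
lemma conv_of_factor {ν : Measure Y} {π : X → Y} (hπ : MeasurePreserving π μ ν) {d k n : ℕ}
    (T : Fin d → Equiv.Perm X) (S : Fin d → Equiv.Perm Y)
    (hT : ∀ i, Measurable (T i) ∧ Measurable (T i).symm ∧ MeasurePreserving (T i) μ μ)
    (a1 : ∀ i, ∀ᵐ x ∂μ, π (T i x) = S i (π x)) (e : Fin n → (Fin k → ℕ) → Fin d → ℤ)
    (f : Fin n → X → ℂ) (g : Fin n → Y → ℂ) (hfg : ∀ j, f j =ᵐ[μ] g j ∘ π)
    (hY : ∀ᵐ y ∂ν, ∃ L : ℂ, Tendsto (fun M : Fin k → ℕ => (∏ l, (M l : ℂ))⁻¹ *
      ∑ m ∈ Fintype.piFinset (fun l => Finset.Icc 1 (M l)), ∏ j, g j (pw S (e j m) y))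
      atTop (𝓝 L)) :
    ∀ᵐ x ∂μ, ∃ L : ℂ, Tendsto (fun M : Fin k → ℕ => (∏ l, (M l : ℂ))⁻¹ *
      ∑ m ∈ Fintype.piFinset (fun l => Finset.Icc 1 (M l)), ∏ j, f j (pw T (e j m) x))
      atTop (𝓝 L) := by
  have h1 : ∀ᵐ x ∂μ, ∀ γ : Fin d → ℤ, π (pw T γ x) = pw S γ (π x) :=
    ae_all_iff.2 fun γ => fac_pw T S hT a1 γ
  have h2 : ∀ᵐ x ∂μ, ∀ (j : Fin n) (γ : Fin d → ℤ), f j (pw T γ x) = g j (π (pw T γ x)) :=
    ae_all_iff.2 fun j => ae_all_iff.2 fun γ =>
      (mp_pw T hT γ).quasiMeasurePreserving.ae (hfg j)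
  filter_upwards [h1, h2, hπ.quasiMeasurePreserving.ae hY] with x e1 e2 e3
  obtain ⟨L, hL⟩ := e3
  refine ⟨L, ?_⟩
  simp only [e2, e1]
  exact hL

end factor

section main

variable {Y : Type} [CommGroup Y] [TopologicalSpace Y] [IsTopologicalGroup Y] [CompactSpace Y]
  [T2Space Y] [MeasurableSpace Y] [BorelSpace Y] {ν : Measure Y} [IsProbabilityMeasure ν]

/-- Affine factors. -/
theorem thmAffClos (d k n : ℕ) [ν.IsHaarMeasure] [ν.Regular]
    (hsep : ∀ x : Y, x ≠ 1 → ∃ χ : Y →ₜ* Circle, χ x ≠ 1)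
    (S : Fin d → Equiv.Perm Y) (hSc : ∀ i, Continuous (S i)) (a : Fin d → Y) (α : Fin d → Y →* Y)
    (hSα : ∀ i x, S i x = a i * α i x) (hα : ∀ i i' x, α i (α i' x) = α i' (α i x))
    (hnil : Group.IsNilpotent (Subgroup.closure (Set.range S)))
    {X : Type} [mX : MeasurableSpace X] {μ : Measure X} [IsProbabilityMeasure μ]
    (T : Fin d → Equiv.Perm X)
    (hT : ∀ i, Measurable (T i) ∧ Measurable (T i).symm ∧ MeasurePreserving (T i) μ μ)
    (π : X → Y) (hπ : MeasurePreserving π μ ν) (hπT : ∀ i, ∀ᵐ x ∂μ, π (T i x) = S i (π x))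
    (P : Fin d → Fin n → MvPolynomial (Fin k) ℤ) (f : Fin n → X → ℂ)
    (hf : (∀ j, ∃ g : Y → ℂ, f j =ᵐ[μ] g ∘ π ∧ (RI ν g ∨ (MemLp g ⊤ ν ∧
        (∀ i, ∀ s ∈ (P i j).support, s.support.card ≤ 1) ∧
        ∀ i i', P i j ≠ 0 → P i' j ≠ 0 → S i * S i' = S i' * S i))) ∨
      ((∀ i i', T i * T i' = T i' * T i) ∧
        (∀ i j, ∀ s ∈ (P i j).support, s.support.card ≤ 1) ∧ (∀ j, MemLp (f j) ⊤ μ) ∧
        ∀ A : Set X, MeasurableSet A →
          Tendsto (fun N : ℕ => (∑ ω : Finset (Fin d → Fin N), Real.negMulLog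
            (μ.real {x | ∀ u : Fin d → Fin N, pw T (fun i => ((u i : ℕ) : ℤ)) x ∈ A ↔ u ∈ ω})) /
              (N : ℝ) ^ d) atTop (𝓝 0) →
          ∃ B, MeasurableSet B ∧ A =ᵐ[μ] π ⁻¹' B)) :
    ∀ᵐ x ∂μ, ∃ L : ℂ, Tendsto (fun M : Fin k → ℕ => (∏ l, (M l : ℂ))⁻¹ *
      ∑ m ∈ Fintype.piFinset (fun l => Finset.Icc 1 (M l)), ∏ j, f j
        ((List.ofFn fun i => T i ^ (MvPolynomial.eval (fun l => (m l : ℤ)) (P i j))).prod x))
      atTop (𝓝 L) := by
  classical
  rcases hf with hf | ⟨hcomm, hP, hfb, hpin⟩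
  · choose g hfg hg using hf
    exact conv_of_factor hπ T S hT hπT
      (fun j m i => MvPolynomial.eval (fun l => (m l : ℤ)) (P i j)) f g hfg
      (thmAffMax d k n hsep S hSc a α hSα hα hnil P g hg)
  · -- the maps `S i` commute
    have hScomm : ∀ i i', S i * S i' = S i' * S i := by
      intro i i'
      have h1 : ∀ᵐ x ∂μ, (S i * S i') (π x) = (S i' * S i) (π x) := by
        filter_upwards [fac_mul (g := T i) (g' := S i) (hT i').2.2 (hπT i) (hπT i'),
          fac_mul (g := T i') (g' := S i') (hT i).2.2 (hπT i') (hπT i)] with x e1 e2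
        rw [← e1, ← e2, hcomm]
      have hcl : IsClosed {y : Y | (S i * S i') y = (S i' * S i) y} :=
        isClosed_eq ((hSc i).comp (hSc i')) ((hSc i').comp (hSc i))
      have h2 : ∀ᵐ y ∂ν, (S i * S i') y = (S i' * S i) y := by
        rw [← hπ.map_eq]
        exact (ae_map_iff hπ.measurable.aemeasurable hcl.measurableSet).2 h1
      have h3 : {y : Y | (S i * S i') y = (S i' * S i) y}ᶜ = ∅ := by
        refine (hcl.isOpen_compl.measure_eq_zero_iff ν).1 ?_
        exact h2
      ext1 y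
      by_contra hcon
      have h4 : y ∈ {y : Y | (S i * S i') y = (S i' * S i) y}ᶜ := hcon
      rw [h3] at h4
      exact h4
    -- convergence for the functions on the factor
    have hN : Pf720pp.PolC μ T Set.univ Set.univ
        (MeasurableSpace.comap π (inferInstance : MeasurableSpace Y)) := by
      intro k' _ n' q f' _ hf'
      have h1 : ∀ j, ∃ g : Y → ℂ, f' j =ᵐ[μ] g ∘ π ∧ MemLp g ⊤ ν := by
        intro j
        obtain ⟨G, hG, hfG⟩ := (hf' j).2
        obtain ⟨h, hh, hhe⟩ := StronglyMeasurable.exists_eq_measurable_comp (f := π) hG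
        have h2 : f' j =ᵐ[μ] h ∘ π := by
          rw [← hhe]
          exact hfG
        refine ⟨h, h2, ?_⟩
        rw [← hπ.map_eq]
        rw [memLp_map_measure_iff hh.aestronglyMeasurable hπ.measurable.aemeasurable]
        exact (hf' j).1.ae_eq h2
      choose g hfg hg using h1
      set P' : Fin d → Fin n' → MvPolynomial (Fin k') ℤ := fun i j =>
        ∑ l, Polynomial.aeval (MvPolynomial.X l) (q j l i) with hP'
      have hev : ∀ (v : Fin k' → ℤ) i j, MvPolynomial.eval v (P' i j) =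
          ∑ l, (q j l i).eval (v l) := by
        intro v i j
        simp only [hP', map_sum]
        refine Finset.sum_congr rfl fun l _ => ?_
        rw [Polynomial.aeval_def, Polynomial.hom_eval₂, MvPolynomial.eval_X]
        rw [Polynomial.eval₂_eq_eval_map]
        congr 1
        have : ((MvPolynomial.eval v).comp (algebraMap ℤ (MvPolynomial (Fin k') ℤ))) =
            RingHom.id ℤ := RingHom.ext_int _ _
        rw [this, Polynomial.map_id]
      have hsupp : ∀ i j, ∀ s ∈ (P' i j).support, s.support.card ≤ 1 := by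
        intro i j s hs
        simp only [hP'] at hs
        have h3 := MvPolynomial.support_sum hs
        rw [Finset.mem_biUnion] at h3
        obtain ⟨l, -, hl⟩ := h3
        rw [Polynomial.aeval_eq_sum_range] at hl
        have h4 := MvPolynomial.support_sum hl
        rw [Finset.mem_biUnion] at h4
        obtain ⟨r, -, hr⟩ := h4
        have h5 : (q j l i).coeff r • (MvPolynomial.X l : MvPolynomial (Fin k') ℤ) ^ r =
            MvPolynomial.monomial (Finsupp.single l r) ((q j l i).coeff r) := by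
          rw [MvPolynomial.X_pow_eq_monomial, MvPolynomial.smul_monomial, smul_eq_mul, mul_one]
        rw [h5] at hr
        have h6 := Finset.mem_singleton.1 (MvPolynomial.support_monomial_subset hr)
        rw [h6]
        exact (Finset.card_le_card Finsupp.support_single_subset).trans
          (by rw [Finset.card_singleton])
      have h2 := thmAffMax (μ := ν) d k' n' hsep S hSc a α hSα hα hnil P' g
        (fun j => Or.inr ⟨hg j, fun i => hsupp i j, fun i i' _ _ => hScomm i i'⟩)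
      have h3 := conv_of_factor hπ T S hT hπT
        (fun j m i => MvPolynomial.eval (fun l => (m l : ℤ)) (P' i j)) f' g hfg h2
      simp only [hev] at h3
      exact h3
    have hall : Pf720pp.PolC μ T Set.univ Set.univ mX :=
      (Pf720pp.factor_reduction (MeasurableSpace.comap π (inferInstance : MeasurableSpace Y)) T hT hcomm Set.univ (Or.inr rfl) Set.univ _ rfl
        (fun A hA => by
          obtain ⟨B, hB, hAB⟩ := hpin A hA.1 hA.2
          exact ⟨π ⁻¹' B, ⟨B, hB, rfl⟩, hAB⟩)).2 hN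
    rcases Nat.eq_zero_or_pos k with hk | hk
    · subst hk
      refine Eventually.of_forall fun x => ?_
      set G : (Fin 0 → ℕ) → ℂ := fun M => (∏ l, (M l : ℂ))⁻¹ *
          ∑ m ∈ Fintype.piFinset (fun l => Finset.Icc 1 (M l)), ∏ j, f j
            ((List.ofFn fun i => T i ^ (MvPolynomial.eval (fun l => (m l : ℤ)) (P i j))).prod x)
        with hG
      refine ⟨G (fun _ => 0), ?_⟩
      have h0 : G = fun _ => G (fun _ => 0) := by
        funext M
        rw [Subsingleton.elim M (fun _ => 0)]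
      rw [h0]
      exact tendsto_const_nhds
    · choose c p hcp using fun i j => sep_repr (P i j) (hP i j)
      have h1 := hall k (Set.mem_univ k) n
        (fun j l i => p i j l + if l = ⟨0, hk⟩ then Polynomial.C (c i j) else 0) f
        (fun _ _ => Or.inr (Set.mem_univ _)) (fun j => ⟨hfb j, (hfb j).1⟩)
      have h2 : ∀ (m : Fin k → ℕ) i j, ∑ l, (p i j l + if l = ⟨0, hk⟩ then
          Polynomial.C (c i j) else 0).eval (m l : ℤ) =
            MvPolynomial.eval (fun l => (m l : ℤ)) (P i j) := by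
        intro m i j
        rw [hcp i j]
        simp only [Polynomial.eval_add, Finset.sum_add_distrib]
        rw [add_comm]
        congr 1
        rw [Finset.sum_eq_single (⟨0, hk⟩ : Fin k)]
        · simp
        · intro l _ hl
          simp [hl]
        · intro h
          exact absurd (Finset.mem_univ _) h
      simp only [h2] at h1
      exact h1

end main

end Pool.Agent.Lib.Pf720ae.Aff
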