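import Pool.Agent.Lib.Pf720ae.Poly.Major

/-!
# Decay of complete sums and of the continuous averages, from the inverse Weyl theorem
-/

set_option autoImplicit false
set_option linter.unusedSectionVars false

open Finset MeasureTheory Filter Topology

namespace Pool.Agent.Lib.Pf720ae.Poly

/-- the statement of the inverse Weyl theorem with exponent `C` -/
def IW (D C : ℕ) : Prop := ∀ δ : ℝ, 0 < δ → δ ≤ 1 / 2 → ∀ N : ℕ, 0 < N →
    ∀ ξ : Fin D → ℝ, δ ≤ ‖em ξ N‖ → ∃ q : ℕ, 0 < q ∧ (q : ℝ) ≤ δ⁻¹ ^ C ∧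
      ∀ e : Fin D, |(q : ℝ) * ξ e - round ((q : ℝ) * ξ e)| ≤ δ⁻¹ ^ C / (N : ℝ) ^ ((e : ℕ) + 1)

variable {D C : ℕ}

/-- near the origin -/
lemma vv_near (β : Fin D → ℝ) (N : ℕ) : ‖vv β N - 1‖ ≤ 2 * Real.pi * sz β N := by
  have hc : Continuous fun t : ℝ => ee (ph β (N * t)) :=
    continuous_ee.comp ((continuous_ph β).comp (continuous_const.mul continuous_id))
  have h1 : vv β N - 1 = ∫ t in (0 : ℝ)..1, (ee (ph β (N * t)) - 1) := by
    rw [intervalIntegral.integral_sub (hc.intervalIntegrable _ _) (by simp)]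
    unfold vv
    simp
  rw [h1]
  have h2 := intervalIntegral.norm_integral_le_of_norm_le_const
    (C := 2 * Real.pi * sz β N) (f := fun t : ℝ => ee (ph β (N * t)) - 1)
    (a := (0 : ℝ)) (b := 1) (by
      intro t ht
      rw [Set.uIoc_of_le zero_le_one] at ht
      have h3 := norm_ee_sub_le (ph β (N * t)) 0
      rw [ee_zero, sub_zero] at h3
      refine h3.trans (mul_le_mul_of_nonneg_left ?_ Real.two_pi_pos.le)
      have h4 : 0 ≤ (N : ℝ) * t := mul_nonneg (Nat.cast_nonneg _) ht.1.le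
      refine (abs_ph_le β h4).trans (sz_mono β h4 ?_)
      exact mul_le_of_le_one_right (Nat.cast_nonneg _) ht.2)
  simpa using h2

lemma norm_vv_le (β : Fin D → ℝ) (N : ℕ) : ‖vv β N‖ ≤ 1 := by
  unfold vv
  have h2 := intervalIntegral.norm_integral_le_of_norm_le_const
    (C := 1) (f := fun t : ℝ => ee (ph β (N * t)))
    (a := (0 : ℝ)) (b := 1) (fun t _ => (norm_ee _).le)
  simpa using h2

lemma norm_em_le (ξ : Fin D → ℝ) (N : ℕ) : ‖em ξ N‖ ≤ 1 := by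
  unfold em
  rw [norm_mul, norm_inv, Complex.norm_natCast]
  rcases Nat.eq_zero_or_pos N with h | h
  · simp [h]
  · have hN : (0 : ℝ) < N := Nat.cast_pos.2 h
    rw [inv_mul_le_iff₀ hN, mul_one]
    refine (norm_sum_le _ _).trans ?_
    simp [norm_ee]

lemma norm_gs_le (q : ℕ) (a : Fin D → ℤ) : ‖gs q a‖ ≤ 1 := norm_em_le _ _

/-- rescaling -/
lemma vv_scale (β : Fin D → ℝ) (N K : ℕ) (hK : 0 < K) :
    vv (fun e : Fin D => β e * (N : ℝ) ^ ((e : ℕ) + 1) / (K : ℝ) ^ ((e : ℕ) + 1)) K = vv β N := by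
  unfold vv
  refine intervalIntegral.integral_congr fun t _ => ?_
  congr 1
  unfold ph
  refine Finset.sum_congr rfl fun e _ => ?_
  have hK' : (K : ℝ) ^ ((e : ℕ) + 1) ≠ 0 := pow_ne_zero _ (Nat.cast_ne_zero.2 hK.ne')
  rw [mul_pow, mul_pow, div_mul_eq_mul_div, div_eq_iff hK']
  ring

lemma sz_scale (β : Fin D → ℝ) (N K : ℕ) (hK : 0 < K) :
    sz (fun e : Fin D => β e * (N : ℝ) ^ ((e : ℕ) + 1) / (K : ℝ) ^ ((e : ℕ) + 1)) K = sz β N := by
  unfold sz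
  refine Finset.sum_congr rfl fun e _ => ?_
  have hK' : (0 : ℝ) < (K : ℝ) ^ ((e : ℕ) + 1) := pow_pos (Nat.cast_pos.2 hK) _
  rw [abs_div, abs_mul, abs_of_pos hK',
    abs_of_nonneg (pow_nonneg (Nat.cast_nonneg N) ((e : ℕ) + 1) : (0 : ℝ) ≤ (N : ℝ) ^ ((e : ℕ) + 1))]
  field_simp

/-- the exponential sums approximate the integral -/
lemma em_tendsto (β : Fin D → ℝ) (N : ℕ) :
    Tendsto (fun K : ℕ => ‖em (fun e : Fin D =>
      β e * (N : ℝ) ^ ((e : ℕ) + 1) / (K : ℝ) ^ ((e : ℕ) + 1)) K‖) atTop (𝓝 ‖vv β N‖) := by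
  have h1 : Tendsto (fun K : ℕ => (13 * (1 + sz β N)) * ((K : ℝ))⁻¹) atTop (𝓝 0) := by
    have := (tendsto_inv_atTop_nhds_zero_nat (𝕜 := ℝ)).const_mul (13 * (1 + sz β N))
    rwa [mul_zero] at this
  refine Tendsto.norm ?_
  refine tendsto_iff_norm_sub_tendsto_zero.2 ?_
  refine squeeze_zero' (Eventually.of_forall fun _ => norm_nonneg _) ?_ h1
  filter_upwards [eventually_gt_atTop 0] with K hK
  have h2 := major 1 one_pos (fun _ : Fin D => 0) (fun e : Fin D =>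
    β e * (N : ℝ) ^ ((e : ℕ) + 1) / (K : ℝ) ^ ((e : ℕ) + 1)) K hK
  have h3 : gs 1 (fun _ : Fin D => 0) = 1 := by
    unfold gs em
    simp [ph, ee_zero]
  rw [h3, one_mul, vv_scale β N K hK, sz_scale β N K hK] at h2
  simp only [Int.cast_zero, zero_div, zero_add] at h2
  refine h2.trans (le_of_eq ?_)
  push_cast
  rw [one_div]
  ring

/-- decay of the continuous averages -/
lemma vv_decay (hIW : IW D C) (β : Fin D → ℝ) (N : ℕ) {δ : ℝ} (hδ : 0 < δ) (hδ2 : δ ≤ 1 / 2)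
    (h : δ < ‖vv β N‖) (e : Fin D) : |β e| * (N : ℝ) ^ ((e : ℕ) + 1) ≤ δ⁻¹ ^ C := by
  have h1 := (em_tendsto β N).eventually (lt_mem_nhds h)
  -- for large K the frequencies are small
  have h2 : ∀ e : Fin D, Tendsto (fun K : ℕ => δ⁻¹ ^ C *
      |β e * (N : ℝ) ^ ((e : ℕ) + 1) / (K : ℝ) ^ ((e : ℕ) + 1)|) atTop (𝓝 0) := by
    intro e
    have h3 : Tendsto (fun K : ℕ => β e * (N : ℝ) ^ ((e : ℕ) + 1) / (K : ℝ) ^ ((e : ℕ) + 1))
        atTop (𝓝 0) := by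
      have h4 : Tendsto (fun K : ℕ => (K : ℝ) ^ ((e : ℕ) + 1)) atTop atTop :=
        (tendsto_pow_atTop (Nat.succ_ne_zero _)).comp tendsto_natCast_atTop_atTop
      exact h4.const_div_atTop _
    have h5 := (h3.abs).const_mul (δ⁻¹ ^ C)
    rwa [abs_zero, mul_zero] at h5
  have h3 := (h2 e).eventually (gt_mem_nhds (show (0 : ℝ) < 1 / 2 by norm_num))
  obtain ⟨K, ⟨hK1, hK2⟩, hK⟩ := ((h1.and h3).and (eventually_gt_atTop 0)).exists
  obtain ⟨q, hq0, hq, hqe⟩ := hIW δ hδ hδ2 K hK _ hK1.le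
  have h4 := hqe e
  set x : ℝ := β e * (N : ℝ) ^ ((e : ℕ) + 1) / (K : ℝ) ^ ((e : ℕ) + 1) with hx
  have hq1 : (1 : ℝ) ≤ q := by exact_mod_cast hq0
  have h5 : |(q : ℝ) * x| < 1 / 2 := by
    rw [abs_mul, abs_of_nonneg (Nat.cast_nonneg q)]
    exact lt_of_le_of_lt (mul_le_mul_of_nonneg_right hq (abs_nonneg _)) hK2
  have h6 : round ((q : ℝ) * x) = 0 := by
    rw [round_eq_zero_iff, Set.mem_Ico]
    rw [abs_lt] at h5
    exact ⟨h5.1.le, h5.2⟩
  rw [h6, Int.cast_zero, sub_zero, abs_mul, abs_of_nonneg (Nat.cast_nonneg q)] at h4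
  have hKpos : (0 : ℝ) < (K : ℝ) ^ ((e : ℕ) + 1) := pow_pos (Nat.cast_pos.2 hK) _
  have h7 : |x| = |β e| * (N : ℝ) ^ ((e : ℕ) + 1) / (K : ℝ) ^ ((e : ℕ) + 1) := by
    rw [hx, abs_div, abs_mul, abs_of_pos hKpos,
      abs_of_nonneg (pow_nonneg (Nat.cast_nonneg N) ((e : ℕ) + 1) : (0 : ℝ) ≤ (N : ℝ) ^ ((e : ℕ) + 1))]
  have h8 : |x| ≤ δ⁻¹ ^ C / (K : ℝ) ^ ((e : ℕ) + 1) :=
    (le_mul_of_one_le_left (abs_nonneg _) hq1).trans h4
  rw [h7] at h8
  exact (div_le_div_iff_of_pos_right hKpos).1 h8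

/-- complete sums over several periods -/
lemma gs_eq (q : ℕ) (hq : 0 < q) (a : Fin D → ℤ) (K : ℕ) (hK : 0 < K) :
    gs q a = em (fun e => (a e : ℝ) / q) (q * K) := by
  unfold gs em
  rw [sum_block q K]
  have h1 : ∀ m ∈ range K, ∑ r ∈ range q, ee (ph (fun e => (a e : ℝ) / q) ((q * m + r : ℕ) : ℝ)) =
      ∑ r ∈ range q, ee (ph (fun e => (a e : ℝ) / q) r) := by
    intro m _
    exact Finset.sum_congr rfl fun r _ => ee_rat_periodic q hq a m r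
  rw [Finset.sum_congr rfl h1, Finset.sum_const, Finset.card_range, nsmul_eq_mul]
  have hq' : (q : ℂ) ≠ 0 := Nat.cast_ne_zero.2 hq.ne'
  have hK' : (K : ℂ) ≠ 0 := Nat.cast_ne_zero.2 hK.ne'
  push_cast
  field_simp

/-- lowest terms -/
def Cop (q : ℕ) (a : Fin D → ℤ) : Prop := ∀ r : ℕ, r ∣ q → (∀ e, (r : ℤ) ∣ a e) → r = 1

lemma dvd_of_cop {q q' : ℕ} {a : Fin D → ℤ} (hq : 0 < q) (hc : Cop q a)
    (h : ∀ e, (q : ℤ) ∣ (q' : ℤ) * a e) : q ∣ q' := by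
  set g := Nat.gcd q q' with hg
  have hg0 : 0 < g := Nat.gcd_pos_of_pos_left _ hq
  obtain ⟨r, hr⟩ := Nat.gcd_dvd_left q q'
  obtain ⟨r', hr'⟩ := Nat.gcd_dvd_right q q'
  rw [← hg] at hr hr'
  have hcop : Nat.Coprime r r' := by
    have := Nat.coprime_div_gcd_div_gcd (m := q) (n := q') hg0
    rw [← hg] at this
    have e1 : q / g = r := by rw [hr]; exact Nat.mul_div_cancel_left r hg0
    have e2 : q' / g = r' := by rw [hr']; exact Nat.mul_div_cancel_left r' hg0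
    rwa [e1, e2] at this
  have hr1 : r = 1 := by
    refine hc r ⟨g, by rw [hr, mul_comm]⟩ fun e => ?_
    obtain ⟨k, hk⟩ := h e
    have h1 : (r : ℤ) ∣ (r' : ℤ) * a e := by
      refine ⟨k, ?_⟩
      have hg' : (g : ℤ) ≠ 0 := by exact_mod_cast hg0.ne'
      apply mul_left_cancel₀ hg'
      rw [hr, hr'] at hk
      push_cast at hk
      linarith
    exact (Int.isCoprime_iff_gcd_eq_one.2 (by simpa using hcop)).dvd_of_dvd_mul_left h1
  rw [hr, hr1, mul_one]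
  exact Nat.gcd_dvd_right q q'

/-- size of complete sums -/
lemma gs_decay (hIW : IW D C) {q : ℕ} (hq : 0 < q) {a : Fin D → ℤ} (hc : Cop q a) {δ : ℝ}
    (hδ : 0 < δ) (hδ2 : δ ≤ 1 / 2) (h : δ ≤ ‖gs q a‖) : (q : ℝ) ≤ δ⁻¹ ^ C := by
  obtain ⟨K, hK⟩ := exists_nat_gt (δ⁻¹ ^ C)
  have hK0 : 0 < K := by
    have h1 : (0 : ℝ) < δ⁻¹ ^ C := pow_pos (inv_pos.2 hδ) _
    have : (0 : ℝ) < K := h1.trans hK
    exact_mod_cast this
  have hN : 0 < q * K := Nat.mul_pos hq hK0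
  rw [gs_eq q hq a K hK0] at h
  obtain ⟨q', hq'0, hq', hqe⟩ := hIW δ hδ hδ2 (q * K) hN _ h
  have hqpos : (0 : ℝ) < q := Nat.cast_pos.2 hq
  have hdvd : ∀ e, (q : ℤ) ∣ (q' : ℤ) * a e := by
    intro e
    have h1 := hqe e
    set n : ℤ := round ((q' : ℝ) * ((a e : ℝ) / q)) with hn
    have h2 : |((q' * a e - n * q : ℤ) : ℝ)| < 1 := by
      have h3 : ((q' * a e - n * q : ℤ) : ℝ) = q * ((q' : ℝ) * ((a e : ℝ) / q) - n) := by
        push_cast
        field_simp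
      rw [h3, abs_mul, abs_of_pos hqpos]
      have h4 : δ⁻¹ ^ C / ((q * K : ℕ) : ℝ) ^ ((e : ℕ) + 1) < 1 / q := by
        have h5 : (1 : ℝ) ≤ ((q * K : ℕ) : ℝ) := by exact_mod_cast hN
        have h6 : ((q * K : ℕ) : ℝ) ≤ ((q * K : ℕ) : ℝ) ^ ((e : ℕ) + 1) := by
          calc ((q * K : ℕ) : ℝ) = ((q * K : ℕ) : ℝ) ^ 1 := (pow_one _).symm
            _ ≤ _ := pow_le_pow_right₀ h5 (by omega)
        rw [div_lt_div_iff₀ (by positivity) hqpos]
        calc δ⁻¹ ^ C * q < K * q := mul_lt_mul_of_pos_right hK hqpos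
          _ = ((q * K : ℕ) : ℝ) := by push_cast; ring
          _ ≤ 1 * ((q * K : ℕ) : ℝ) ^ ((e : ℕ) + 1) := by rw [one_mul]; exact h6
      calc (q : ℝ) * |(q' : ℝ) * ((a e : ℝ) / q) - n| < q * (1 / q) :=
            mul_lt_mul_of_pos_left (lt_of_le_of_lt h1 h4) hqpos
        _ = 1 := by field_simp
    have h7 : q' * a e - n * q = 0 := by
      rw [← Int.cast_abs] at h2
      have h8 : |(q' * a e - n * q : ℤ)| < 1 := by exact_mod_cast h2
      exact Int.abs_lt_one_iff.1 h8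
    exact ⟨n, by linarith⟩
  have h9 := dvd_of_cop hq hc hdvd
  exact le_trans (by exact_mod_cast Nat.le_of_dvd hq'0 h9) hq'

end Pool.Agent.Lib.Pf720ae.Poly
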