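import Mathlib

/-!
# Exponential sums along the curve `(n, n ^ 2, …, n ^ D)`: definitions
-/

set_option autoImplicit false

namespace Pool.Agent.Lib.Pf720ae.Poly

/-- `exp (2 π i x)` -/
noncomputable def ee (x : ℝ) : ℂ := Complex.exp (2 * Real.pi * x * Complex.I)

/-- the phase `∑_e ξ_e x ^ (e + 1)` -/
noncomputable def ph {D : ℕ} (ξ : Fin D → ℝ) (x : ℝ) : ℝ := ∑ e : Fin D, ξ e * x ^ ((e : ℕ) + 1)

/-- the normalised exponential sum over `0 ≤ n < N` -/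
noncomputable def em {D : ℕ} (ξ : Fin D → ℝ) (N : ℕ) : ℂ :=
  (N : ℂ)⁻¹ * ∑ n ∈ Finset.range N, ee (ph ξ n)

/-- the complete sum -/
noncomputable def gs {D : ℕ} (q : ℕ) (a : Fin D → ℤ) : ℂ := em (fun e => (a e : ℝ) / q) q

/-- the continuous version -/
noncomputable def vv {D : ℕ} (β : Fin D → ℝ) (N : ℕ) : ℂ := ∫ t in (0 : ℝ)..1, ee (ph β (N * t))

end Pool.Agent.Lib.Pf720ae.Poly
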