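import Pool.Agent.Lib.Pf720ae.Poly.MixedMax

/-!
# Multiple polynomial averages for affine maps of compact abelian groups: bounded functions
-/

set_option autoImplicit false
set_option linter.unusedSectionVars false

open Finset MeasureTheory Filter Topology
open scoped ENNReal ComplexConjugate
open Pool.Agent.Lib.Pf720ae.Alg (cz integral_char)

namespace Pool.Agent.Lib.Pf720ae.Aff

/-- polynomials without mixed monomials -/
lemma sep_repr {k : ℕ} (P : MvPolynomial (Fin k) ℤ) (h : ∀ s ∈ P.support, s.support.card ≤ 1) :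
    ∃ (c : ℤ) (p : Fin k → Polynomial ℤ), ∀ v : Fin k → ℤ,
      MvPolynomial.eval v P = c + ∑ l, (p l).eval (v l) := by
  classical
  have hmon : ∀ s : Fin k →₀ ℕ, s.support.card ≤ 1 → ∀ b : ℤ,
      ∃ (c : ℤ) (p : Fin k → Polynomial ℤ), ∀ v : Fin k → ℤ,
      MvPolynomial.eval v (MvPolynomial.monomial s b) = c + ∑ l, (p l).eval (v l) := by
    intro s hs b
    rcases Nat.le_one_iff_eq_zero_or_eq_one.1 hs with h0 | h1
    · have h2 : s = 0 := Finsupp.support_eq_empty.1 (Finset.card_eq_zero.1 h0)
      refine ⟨b, fun _ => 0, fun v => ?_⟩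
      rw [h2]
      simp
    · obtain ⟨l, hl⟩ := Finset.card_eq_one.1 h1
      refine ⟨0, fun l' => if l' = l then Polynomial.monomial (s l) b else 0, fun v => ?_⟩
      rw [MvPolynomial.eval_monomial, Finsupp.prod, hl, Finset.prod_singleton, zero_add,
        Finset.sum_eq_single l]
      · simp only [if_true, Polynomial.eval_monomial]
      · intro l' _ hl'
        simp only [if_neg hl', Polynomial.eval_zero]
      · intro h
        exact absurd (Finset.mem_univ l) h
  have hsum : ∀ t : Finset (Fin k →₀ ℕ), (∀ s ∈ t, s.support.card ≤ 1) →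
      ∃ (c : ℤ) (p : Fin k → Polynomial ℤ), ∀ v : Fin k → ℤ,
      MvPolynomial.eval v (∑ s ∈ t, MvPolynomial.monomial s (MvPolynomial.coeff s P)) =
        c + ∑ l, (p l).eval (v l) := by
    intro t
    induction t using Finset.induction_on with
    | empty =>
      intro _
      exact ⟨0, fun _ => 0, fun v => by simp⟩
    | insert s t hs ih =>
      intro ht
      obtain ⟨c, p, hp⟩ := ih fun s hs => ht s (Finset.mem_insert_of_mem hs)
      obtain ⟨c', p', hp'⟩ := hmon s (ht s (Finset.mem_insert_self _ _)) (MvPolynomial.coeff s P)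
      refine ⟨c' + c, fun l => p' l + p l, fun v => ?_⟩
      rw [Finset.sum_insert hs, map_add, hp, hp']
      simp only [Polynomial.eval_add, Finset.sum_add_distrib]
      ring
  obtain ⟨c, p, hp⟩ := hsum P.support h
  refine ⟨c, p, fun v => ?_⟩
  rw [← hp v]
  congr 1
  exact MvPolynomial.as_sum P

variable {X : Type} [CommGroup X] [TopologicalSpace X] [IsTopologicalGroup X] [CompactSpace X]
  [T2Space X] [MeasurableSpace X] [BorelSpace X] {μ : Measure X} [IsProbabilityMeasure μ]

/-- The theorem on affine actions. -/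
theorem thmAffMax (d k n : ℕ) [μ.IsHaarMeasure] [μ.Regular]
    (hsep : ∀ x : X, x ≠ 1 → ∃ χ : X →ₜ* Circle, χ x ≠ 1)
    (T : Fin d → Equiv.Perm X) (hTc : ∀ i, Continuous (T i)) (a : Fin d → X) (α : Fin d → X →* X)
    (hTα : ∀ i x, T i x = a i * α i x) (hα : ∀ i i' x, α i (α i' x) = α i' (α i x))
    (hnil : Group.IsNilpotent (Subgroup.closure (Set.range T)))
    (P : Fin d → Fin n → MvPolynomial (Fin k) ℤ) (f : Fin n → X → ℂ)
    (hf : ∀ j, RI μ (f j) ∨ (MemLp (f j) ⊤ μ ∧
      (∀ i, ∀ s ∈ (P i j).support, s.support.card ≤ 1) ∧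
      ∀ i i', P i j ≠ 0 → P i' j ≠ 0 → T i * T i' = T i' * T i)) :
    ∀ᵐ x ∂μ, ∃ L : ℂ, Tendsto (fun M : Fin k → ℕ => (∏ l, (M l : ℂ))⁻¹ *
      ∑ m ∈ Fintype.piFinset (fun l => Finset.Icc 1 (M l)), ∏ j, f j
        ((List.ofFn fun i => T i ^ (MvPolynomial.eval (fun l => (m l : ℤ)) (P i j))).prod x))
      atTop (𝓝 L) := by
  classical
  have hTaff : ∀ i, T i ∈ affc X := by
    intro i
    refine ⟨hTc i, ?_, fun x y => ?_⟩
    · exact ((hTc i).homeoOfEquivCompactToT2).symm.continuous
    · rw [hTα, hTα, hTα, hTα, map_mul, map_one, mul_one]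
      rw [mul_mul_mul_comm, mul_assoc, mul_comm]
      simp only [mul_assoc, mul_comm]
  set T' : Fin d → affc X := fun i => ⟨T i, hTaff i⟩ with hT'
  have hlinα : ∀ i x, linf (T' i) x = α i x := by
    intro i x
    rw [linf_apply]
    change T i x / T i 1 = α i x
    rw [hTα, hTα, map_one, mul_one, mul_div_cancel_left]
  have hlin : ∀ i j x, linf (T' i) (linf (T' j) x) = linf (T' j) (linf (T' i) x) := by
    intro i j x
    rw [hlinα, hlinα, hlinα, hlinα, hα]
  set P' : Fin n → (Fin k → ℤ) → (Fin d → ℤ) := fun j v i => MvPolynomial.eval (v + 1) (P i j)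
    with hP'
  have hnice : ∃ K, ∀ j, Nice K (P' j) := by
    choose K hK using fun j => mv_nice (fun i => P i j)
    refine ⟨∑ j, K j, fun j => ?_⟩
    have h1 := (hK j).comp_affine (AddMonoidHom.id _) 1
    exact h1.mono (Finset.single_le_sum (fun _ _ => Nat.zero_le _) (Finset.mem_univ j))
  obtain ⟨K, hK⟩ := hnice
  set S : Fin n → (Fin k → ℕ) → X → X := fun j m x =>
    ((oprod T' (P' j (cz m)) : affc X) : Equiv.Perm X) x with hS
  have hSmp : ∀ j m, MeasurePreserving (S j m) μ μ := fun j m => affc_mp _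
  have hSeq : ∀ j (m : Fin k → ℕ) x, S j m x =
      (List.ofFn fun i => T i ^ (MvPolynomial.eval (fun l => (((m + 1) l : ℕ) : ℤ)) (P i j))).prod x := by
    intro j m x
    have h1 : ((oprod T' (P' j (cz m)) : affc X) : Equiv.Perm X) = oprod T (P' j (cz m)) :=
      map_oprod (affc X).subtype T' _
    simp only [hS]
    rw [h1]
    unfold oprod
    have h2 : (cz m + 1 : Fin k → ℤ) = fun l => (((m + 1) l : ℕ) : ℤ) := by
      funext l
      simp [cz]
    simp only [hP', h2]
  have hrep : ∀ j, ∃ (C : ℝ) (F : Fin 2 → X → ℝ), (∀ i x, |F i x| ≤ 1) ∧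
      (∀ i, Riem μ (F i) ∨ (Measurable (F i) ∧
        MaxBd μ (fun (m : Fin k → ℕ) x => ((oprod T' (P' j (cz m)) : affc X) : Equiv.Perm X) x))) ∧
      ∀ᵐ x ∂μ, f j x = (C : ℂ) * ((F 0 x : ℂ) + (F 1 x : ℂ) * Complex.I) := by
    intro j
    rcases hf j with h | ⟨h, hdeg, hcom⟩
    · obtain ⟨C, F, hF1, hF2, hF3⟩ := h.rep
      exact ⟨C, F, hF1, fun i => Or.inl (hF2 i), Eventually.of_forall hF3⟩
    · obtain ⟨C, F, hFm, hF1, hF3⟩ := exists_rep h
      refine ⟨C, F, hF1, fun i => Or.inr ⟨hFm i, ?_⟩, hF3⟩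
      set T'' : Fin d → affc X := fun i => if P i j = 0 then 1 else T' i with hT''
      have hcom'' : ∀ i i', T'' i * T'' i' = T'' i' * T'' i := by
        intro i i'
        simp only [hT'']
        split_ifs with h1 h2 h2
        · rfl
        · rw [one_mul, mul_one]
        · rw [one_mul, mul_one]
        · exact Subtype.ext (hcom i i' h1 h2)
      have hop : ∀ p : Fin d → ℤ, (∀ i, P i j = 0 → p i = 0) → oprod T' p = oprod T'' p := by
        intro p hp
        unfold oprod
        congr 2
        funext i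
        simp only [hT'']
        split_ifs with h1
        · rw [hp i h1, zpow_zero, zpow_zero]
        · rfl
      choose c p hcp using fun i => sep_repr (P i j) (hdeg i)
      have h1 := maxBd_poly (μ := μ) (κ := Fin k)
        (act := fun (q : Fin d → ℤ) x => ((oprod T'' q : affc X) : Equiv.Perm X) x)
        (fun x => by
          change ((oprod T'' 0 : affc X) : Equiv.Perm X) x = x
          rw [oprod_zero]
          rfl)
        (fun q q' x => by
          change ((oprod T'' (q + q') : affc X) : Equiv.Perm X) x = _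
          rw [oprod_add T'' hcom'']
          rfl)
        (fun q => affc_mp _)
        (fun l i => (p i l).comp (Polynomial.X + 1))
      have h2 := h1.post (affc_mp (μ := μ) (oprod T'' c))
      refine h2.congr fun m x => ?_
      have hP'c : P' j (cz m) = c + fun i => ∑ l, ((p i l).comp (Polynomial.X + 1)).eval
          ((m l : ℕ) : ℤ) := by
        funext i
        simp only [hP', Pi.add_apply]
        rw [hcp i]
        congr 1
        refine Finset.sum_congr rfl fun l _ => ?_
        rw [Polynomial.eval_comp]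
        simp [cz]
      have hP0 : ∀ i, P i j = 0 → P' j (cz m) i = 0 := fun i hi => by simp [hP', hi]
      rw [hop _ hP0, hP'c, oprod_add T'' hcom'']
      rfl
  choose C F hF1 hF2 hF3 using hrep
  have hmain : ∀ e : Fin n → Fin 2, ∀ᵐ x ∂μ, Cvg fun m => ∏ j, F j (e j) (S j m x) := by
    intro e
    have h1 := mixed_max (μ := μ) hsep (fun χ hχ => integral_char χ hχ) T' hlin hnil P' hK
      Finset.univ (fun j x => (F j (e j) x : ℂ))
      (fun j _ => ⟨F j (e j), hF1 j (e j), fun x => rfl, hF2 j (e j)⟩)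
      (fun j hj => absurd (Finset.mem_univ j) hj)
    filter_upwards [h1] with x hx
    refine hx.1.congr fun m => ?_
    rw [← Complex.ofReal_prod, Complex.ofReal_re]
  have h1 := lift_gen S hSmp f C F hF3 hmain
  filter_upwards [h1] with x hx
  obtain ⟨L, hL⟩ := hx
  refine ⟨L, hL.congr fun M => ?_⟩
  rw [sum_Icc_eq]
  congr 1
  refine Finset.sum_congr rfl fun m _ => Finset.prod_congr rfl fun j _ => ?_
  rw [hSeq]

end Pool.Agent.Lib.Pf720ae.Aff
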