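import Pool.Agent.Lib.Pf720ae.Poly.Defs

set_option autoImplicit false

namespace Pool.Agent.Lib.Pf720ae.Poly

namespace IW

/-! ### distance to the nearest integer -/

/-- distance to the nearest integer -/
noncomputable def nd (x : ℝ) : ℝ := |x - round x|

theorem nd_le (x : ℝ) (z : ℤ) : nd x ≤ |x - z| := round_le x z

theorem nd_nonneg (x : ℝ) : 0 ≤ nd x := abs_nonneg _

theorem nd_le_half (x : ℝ) : nd x ≤ 1 / 2 := abs_sub_round x

theorem nd_add (x y : ℝ) : nd (x + y) ≤ nd x + nd y := by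
  refine (nd_le (x + y) (round x + round y)).trans ?_
  push_cast
  have : x + y - (round x + round y : ℝ) = (x - round x) + (y - round y) := by ring
  rw [this]
  exact abs_add_le _ _

theorem nd_neg (x : ℝ) : nd (-x) = nd x := by
  have h : ∀ x : ℝ, nd (-x) ≤ nd x := by
    intro x
    refine (nd_le (-x) (-round x)).trans ?_
    push_cast
    rw [show -x - -(round x : ℝ) = -(x - round x) by ring, abs_neg]
    rfl
  refine le_antisymm (h x) ?_
  have := h (-x)
  rwa [neg_neg] at this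

theorem nd_sub (x y : ℝ) : nd (x - y) ≤ nd x + nd y := by
  rw [sub_eq_add_neg]
  refine (nd_add _ _).trans ?_
  rw [nd_neg]

theorem nd_nat_mul (m : ℕ) (x : ℝ) : nd (m * x) ≤ m * nd x := by
  refine (nd_le (m * x) (m * round x)).trans ?_
  push_cast
  rw [← mul_sub, abs_mul, Nat.abs_cast]
  rfl

theorem nd_sum {ι : Type*} (s : Finset ι) (f : ι → ℝ) : nd (∑ i ∈ s, f i) ≤ ∑ i ∈ s, nd (f i) := by
  classical
  induction s using Finset.induction_on with
  | empty => simp [nd]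
  | insert a s ha ih =>
    rw [Finset.sum_insert ha, Finset.sum_insert ha]
    exact (nd_add _ _).trans (by linarith)

theorem nd_int (z : ℤ) : nd (z : ℝ) = 0 := by simp [nd]

/-! ### exponentials -/

theorem ee_eq (x : ℝ) : ee x = Complex.exp (Complex.I * ((2 * Real.pi * x : ℝ) : ℂ)) := by
  rw [ee]
  congr 1
  push_cast
  ring

theorem norm_ee (x : ℝ) : ‖ee x‖ = 1 := by
  rw [ee_eq, Complex.norm_exp_I_mul_ofReal]

theorem ee_add (x y : ℝ) : ee (x + y) = ee x * ee y := by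
  rw [ee, ee, ee, ← Complex.exp_add]
  congr 1
  push_cast
  ring

theorem ee_zero : ee 0 = 1 := by simp [ee]

theorem ee_int (z : ℤ) : ee (z : ℝ) = 1 := by
  rw [ee, show (2 * Real.pi * ((z : ℝ) : ℂ) * Complex.I : ℂ) = z * (2 * Real.pi * Complex.I) by
    push_cast; ring]
  exact Complex.exp_int_mul_two_pi_mul_I z

theorem ee_add_int (x : ℝ) (z : ℤ) : ee (x + z) = ee x := by
  rw [ee_add, ee_int, mul_one]

theorem conj_ee (x : ℝ) : (starRingEnd ℂ) (ee x) = ee (-x) := by
  rw [ee, ee, ← Complex.exp_conj]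
  congr 1
  have h2 : (starRingEnd ℂ) 2 = 2 := map_ofNat _ 2
  simp [h2]

theorem ee_nat_mul (n : ℕ) (x : ℝ) : ee (n * x) = ee x ^ n := by
  rw [ee, ee, ← Complex.exp_nat_mul]
  congr 1
  push_cast
  ring

theorem norm_ee_sub_one (x : ℝ) : ‖ee x - 1‖ = 2 * |Real.sin (Real.pi * x)| := by
  rw [ee_eq, Complex.norm_exp_I_mul_ofReal_sub_one, norm_mul, Real.norm_eq_abs, Real.norm_eq_abs,
    abs_of_pos (by norm_num : (0:ℝ) < 2)]
  congr 3
  ring

theorem norm_ee_sub_ee_le (x y : ℝ) : ‖ee x - ee y‖ ≤ 2 * Real.pi * |x - y| := by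
  have h : ee x - ee y = ee y * (ee (x - y) - 1) := by
    rw [mul_sub, ← ee_add, mul_one]
    congr 2
    ring
  rw [h, norm_mul, norm_ee, one_mul, ee_eq]
  refine Real.norm_exp_I_mul_ofReal_sub_one_le.trans ?_
  rw [Real.norm_eq_abs, abs_mul, abs_of_pos (by positivity : 0 < 2 * Real.pi)]

theorem nd_le_norm (x : ℝ) : 4 * nd x ≤ ‖ee x - 1‖ := by
  have h1 : ee x = ee (x - round x) := by
    have := ee_add_int (x - round x) (round x)
    rw [sub_add_cancel] at this
    exact this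
  rw [h1, norm_ee_sub_one]
  have h2 : |Real.pi * (x - round x)| ≤ Real.pi / 2 := by
    rw [abs_mul, abs_of_pos Real.pi_pos]
    have := nd_le_half x
    unfold nd at this
    nlinarith [Real.pi_pos]
  have h3 := Real.mul_abs_le_abs_sin h2
  rw [abs_mul, abs_of_pos Real.pi_pos] at h3
  have h4 : 2 / Real.pi * (Real.pi * |x - round x|) = 2 * nd x := by
    unfold nd
    field_simp
  rw [h4] at h3
  linarith

/-- the linear exponential sum -/
theorem linear_sum (α β : ℝ) (M : ℕ) :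
    2 * nd α * ‖∑ m ∈ Finset.range M, ee (β + m * α)‖ ≤ 1 := by
  have h1 : ∑ m ∈ Finset.range M, ee (β + m * α) = ee β * ∑ m ∈ Finset.range M, ee α ^ m := by
    rw [Finset.mul_sum]
    refine Finset.sum_congr rfl fun m _ => ?_
    rw [ee_add, ee_nat_mul]
  rw [h1, norm_mul, norm_ee, one_mul]
  have h2 := mul_geom_sum (ee α) M
  have h3 : ‖ee α - 1‖ * ‖∑ m ∈ Finset.range M, ee α ^ m‖ ≤ 2 := by
    rw [← norm_mul, h2]
    refine (norm_sub_le _ _).trans ?_
    rw [norm_pow, norm_ee, norm_one]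
    norm_num
  have h4 := nd_le_norm α
  have h5 := norm_nonneg (∑ m ∈ Finset.range M, ee α ^ m)
  nlinarith

/-! ### van der Corput -/

/-- the correlations -/
noncomputable def cor (f : ℕ → ℂ) (N k : ℕ) : ℂ :=
  ∑ m ∈ Finset.range (N - (k + 1)), f (m + (k + 1)) * (starRingEnd ℂ) (f m)

theorem sum_cor (f : ℕ → ℂ) (N : ℕ) :
    ∑ k ∈ Finset.range (N + 1), cor f (N + 1) k = ∑ k ∈ Finset.range N, cor f N k
      + f N * (starRingEnd ℂ) (∑ n ∈ Finset.range N, f n) := by
  rw [Finset.sum_range_succ]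
  have h0 : cor f (N + 1) N = 0 := by simp [cor]
  rw [h0, add_zero, map_sum, Finset.mul_sum, ← Finset.sum_range_reflect (fun m => f N * (starRingEnd ℂ) (f m)) N,
    ← Finset.sum_add_distrib]
  refine Finset.sum_congr rfl fun k hk => ?_
  have hk' : k < N := Finset.mem_range.1 hk
  rw [cor, cor, show N + 1 - (k + 1) = (N - (k + 1)) + 1 by omega, Finset.sum_range_succ,
    show N - (k + 1) + (k + 1) = N by omega, show N - 1 - k = N - (k + 1) by omega]

theorem vdc_identity (f : ℕ → ℂ) (hf : ∀ n, ‖f n‖ = 1) (N : ℕ) :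
    ‖∑ n ∈ Finset.range N, f n‖ ^ 2 = N + 2 * (∑ k ∈ Finset.range N, cor f N k).re := by
  induction N with
  | zero => simp
  | succ N ih =>
    rw [sum_cor, Finset.sum_range_succ]
    set S := ∑ n ∈ Finset.range N, f n
    have h1 : ‖S + f N‖ ^ 2 = ‖S‖ ^ 2 + ‖f N‖ ^ 2 + 2 * (f N * (starRingEnd ℂ) S).re := by
      rw [← Complex.normSq_eq_norm_sq, ← Complex.normSq_eq_norm_sq, ← Complex.normSq_eq_norm_sq,
        add_comm S, Complex.normSq_add]
      ring
    rw [h1, ih, hf, Complex.add_re]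
    push_cast
    ring

theorem norm_cor_le (f : ℕ → ℂ) (hf : ∀ n, ‖f n‖ = 1) (N k : ℕ) : ‖cor f N k‖ ≤ (N - (k + 1) : ℕ) := by
  rw [cor]
  refine (norm_sum_le _ _).trans ?_
  simp [hf]

/-- many large correlations -/
theorem vdc (f : ℕ → ℂ) (hf : ∀ n, ‖f n‖ = 1) {K : ℝ} (hK : 2 ≤ K) {N : ℕ} (hN : K ^ 3 ≤ N)
    (h : (N : ℝ) ≤ K * ‖∑ n ∈ Finset.range N, f n‖) :
    ∃ H : Finset ℕ, (∀ k ∈ H, k < N ∧ (N : ℝ) ≤ K ^ 5 * ‖cor f N k‖) ∧ (N : ℝ) ≤ K ^ 5 * H.card := by
  classical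
  set H := (Finset.range N).filter fun k => (N : ℝ) ≤ K ^ 5 * ‖cor f N k‖ with hH
  refine ⟨H, fun k hk => ⟨Finset.mem_range.1 (Finset.mem_filter.1 hk).1, (Finset.mem_filter.1 hk).2⟩, ?_⟩
  have hN0 : (0:ℝ) < N := lt_of_lt_of_le (by positivity) hN
  have h1 : ‖∑ n ∈ Finset.range N, f n‖ ^ 2 ≤ N + 2 * ∑ k ∈ Finset.range N, ‖cor f N k‖ := by
    rw [vdc_identity f hf N]
    have h2 : (∑ k ∈ Finset.range N, cor f N k).re ≤ ∑ k ∈ Finset.range N, ‖cor f N k‖ :=
      (Complex.re_le_norm _).trans (norm_sum_le _ _)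
    linarith
  have h3 : ∑ k ∈ Finset.range N, ‖cor f N k‖ ≤ H.card * N + N * (N / K ^ 5) := by
    have h4 : ∀ k ∈ Finset.range N, ‖cor f N k‖ ≤ (if k ∈ H then (N:ℝ) else 0) + N / K ^ 5 := by
      intro k hk
      have hpos : (0:ℝ) ≤ N / K ^ 5 := by positivity
      by_cases hkH : k ∈ H
      · rw [if_pos hkH]
        have h5 := norm_cor_le f hf N k
        have h6 : ((N - (k + 1) : ℕ) : ℝ) ≤ N := by exact_mod_cast Nat.sub_le _ _
        linarith
      · rw [if_neg hkH, zero_add]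
        have h5 : ¬ (N : ℝ) ≤ K ^ 5 * ‖cor f N k‖ := fun h => hkH (Finset.mem_filter.2 ⟨hk, h⟩)
        rw [le_div_iff₀ (by positivity)]
        push Not at h5
        linarith
    refine (Finset.sum_le_sum h4).trans ?_
    rw [Finset.sum_add_distrib, Finset.sum_const, Finset.card_range, nsmul_eq_mul]
    have h7 : ∑ k ∈ Finset.range N, (if k ∈ H then (N:ℝ) else 0) = H.card * N := by
      rw [← Finset.sum_filter, Finset.sum_const, nsmul_eq_mul]
      congr 3
      ext k
      rw [Finset.mem_filter]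
      constructor
      · exact fun h => h.2
      · exact fun h => ⟨(Finset.mem_filter.1 h).1, h⟩
    rw [h7]
  have h8 : (N:ℝ) ^ 2 ≤ K ^ 2 * (N + 2 * (H.card * N + N * (N / K ^ 5))) := by
    calc (N:ℝ) ^ 2 ≤ (K * ‖∑ n ∈ Finset.range N, f n‖) ^ 2 := by
          apply pow_le_pow_left₀ hN0.le h
      _ = K ^ 2 * ‖∑ n ∈ Finset.range N, f n‖ ^ 2 := by ring
      _ ≤ _ := by
          apply mul_le_mul_of_nonneg_left _ (by positivity)
          linarith
  have h9 : (N:ℝ) ≤ K ^ 2 * (1 + 2 * (H.card + (N / K ^ 5))) := by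
    have : (N:ℝ) * N ≤ N * (K ^ 2 * (1 + 2 * (H.card + (N / K ^ 5)))) := by nlinarith
    exact le_of_mul_le_mul_left this hN0
  have h10 : K ^ 2 * (1 + 2 * (H.card + (N / K ^ 5))) = K ^ 2 + 2 * K ^ 2 * H.card + 2 * (N / K ^ 3) := by
    field_simp
    ring
  rw [h10] at h9
  have h11 : K ^ 2 ≤ N / 2 := by
    rw [le_div_iff₀ (by norm_num)]
    calc K ^ 2 * 2 ≤ K ^ 2 * K := by apply mul_le_mul_of_nonneg_left hK (by positivity)
      _ = K ^ 3 := by ring
      _ ≤ N := hN
  have h12 : 2 * (N / K ^ 3) ≤ (N:ℝ) / 4 := by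
    have : (8:ℝ) ≤ K ^ 3 := by
      calc (8:ℝ) = 2 ^ 3 := by norm_num
        _ ≤ K ^ 3 := pow_le_pow_left₀ (by norm_num) hK 3
    rw [mul_div_assoc', div_le_div_iff₀ (by positivity) (by norm_num)]
    nlinarith
  have h13 : (N:ℝ) ≤ 8 * K ^ 2 * H.card := by linarith
  refine h13.trans ?_
  apply mul_le_mul_of_nonneg_right _ (by positivity)
  calc 8 * K ^ 2 = 2 ^ 3 * K ^ 2 := by norm_num
    _ ≤ K ^ 3 * K ^ 2 := by
        apply mul_le_mul_of_nonneg_right (pow_le_pow_left₀ (by norm_num) hK 3) (by positivity)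
    _ = K ^ 5 := by ring


/-! ### Vinogradov's lemma -/

theorem sep {α : ℝ} {r : ℚ} {n k : ℕ} (hr : |α - r| ≤ 1 / ((n + 1) * r.den)) (hk : 0 < k)
    (hkn : 2 * k ≤ n + 1) (hkq : k < r.den) : 1 / (2 * (r.den : ℝ)) ≤ nd (k * α) := by
  have hq : (0:ℝ) < r.den := by exact_mod_cast r.den_pos
  unfold nd
  set z := round ((k:ℝ) * α) with hz
  have h1 : 1 / (r.den : ℝ) ≤ |(k:ℝ) * r - z| := by
    have h2 : (k:ℝ) * r - z = ((k * r.num - z * r.den : ℤ) : ℝ) / r.den := by
      have : (r : ℝ) = r.num / r.den := by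
        exact_mod_cast (Rat.num_div_den r).symm
      rw [this]
      push_cast
      field_simp
    rw [h2, abs_div, abs_of_pos hq]
    apply div_le_div_of_nonneg_right _ hq.le
    have h3 : (k * r.num - z * r.den : ℤ) ≠ 0 := by
      intro h0
      have h4 : (r.den : ℤ) ∣ k * r.num := ⟨z, by linarith⟩
      have h5 : IsCoprime (r.den : ℤ) r.num := by
        have := r.reduced
        rw [Int.isCoprime_iff_gcd_eq_one, Int.gcd_comm]
        simpa [Int.gcd] using this
      have h6 : (r.den : ℤ) ∣ k := h5.dvd_of_dvd_mul_right h4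
      have h7 : r.den ∣ k := by exact_mod_cast h6
      exact absurd (Nat.le_of_dvd hk h7) (by omega)
    have h8 : (1:ℤ) ≤ |(k * r.num - z * r.den : ℤ)| := Int.one_le_abs h3
    exact_mod_cast h8
  have h2 : |(k:ℝ) * r - (k:ℝ) * α| ≤ 1 / (2 * (r.den : ℝ)) := by
    rw [← mul_sub, abs_mul, Nat.abs_cast, abs_sub_comm]
    refine (mul_le_mul_of_nonneg_left hr (Nat.cast_nonneg k)).trans ?_
    rw [mul_one_div, div_le_div_iff₀ (by positivity) (by positivity)]
    have : (2:ℝ) * k ≤ n + 1 := by exact_mod_cast hkn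
    nlinarith
  have h3 : |(k:ℝ) * r - z| ≤ |(k:ℝ) * r - (k:ℝ) * α| + |(k:ℝ) * α - z| := by
    have : (k:ℝ) * r - z = ((k:ℝ) * r - (k:ℝ) * α) + ((k:ℝ) * α - z) := by ring
    rw [this]
    exact abs_add_le _ _
  have h4 : 1 / (r.den : ℝ) = 1 / (2 * (r.den : ℝ)) + 1 / (2 * (r.den : ℝ)) := by
    field_simp
    norm_num
  linarith

theorem vin {α : ℝ} {N : ℕ} {A ε : ℝ} (hA : 1 ≤ A) (hε0 : 0 < ε) (hε : 64 * A * ε ≤ 1)
    (hN : 16 * A ≤ N) (H : Finset ℕ) (hH : ∀ h ∈ H, h ≤ N) (hcard : (N : ℝ) ≤ A * H.card)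
    (hnd : ∀ h ∈ H, nd (h * α) ≤ ε) :
    ∃ q : ℕ, 0 < q ∧ (q : ℝ) ≤ 16 * A ∧ nd (q * α) ≤ 32 * A * ε / N := by
  have hA0 : 0 < A := by linarith
  have hN0 : (0:ℝ) < N := by linarith
  set n := ⌊(N:ℝ) / (32 * A * ε)⌋₊ with hn
  have hAe : 0 < 32 * A * ε := by positivity
  have hn1 : 1 ≤ n := by
    apply Nat.le_floor
    rw [Nat.cast_one, le_div_iff₀ hAe]
    nlinarith
  obtain ⟨r, hr, hden⟩ := Real.exists_rat_abs_sub_le_and_den_le α (Nat.lt_of_lt_of_le Nat.zero_lt_one hn1)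
  have hq0 : 0 < r.den := r.den_pos
  have hq : (0:ℝ) < r.den := by exact_mod_cast hq0
  have hn2 : (N:ℝ) / (32 * A * ε) < n + 1 := Nat.lt_floor_add_one _
  have hn3 : (n:ℝ) ≤ N / (32 * A * ε) := Nat.floor_le (by positivity)
  refine ⟨r.den, hq0, ?_, ?_⟩
  · by_contra hcon
    push Not at hcon
    have hdr : (r.den : ℝ) ≤ n := by exact_mod_cast hden
    set L := (r.den + 1) / 2 with hL
    have hL1 : 0 < L := by omega
    have hL2 : (r.den : ℝ) ≤ 2 * L := by
      have : r.den ≤ 2 * L := by omega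
      exact_mod_cast this
    let θ : ℕ → ℝ := fun h => (h:ℝ) * α - round ((h:ℝ) * α)
    let φ : ℕ → ℕ × ℤ := fun h => (h / L, ⌊2 * (r.den : ℝ) * θ h⌋)
    have hinj : Set.InjOn φ (H : Set ℕ) := by
      have key : ∀ h h' : ℕ, h < h' → φ h = φ h' → False := by
        intro h h' hlt heq
        have h1 : h / L = h' / L := congrArg Prod.fst heq
        have h2 : ⌊2 * (r.den : ℝ) * θ h⌋ = ⌊2 * (r.den : ℝ) * θ h'⌋ := congrArg Prod.snd heq
        have h3 : h' - h < L := by
          have e1 := Nat.div_add_mod h L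
          have e2 := Nat.div_add_mod h' L
          have e3 := Nat.mod_lt h hL1
          have e4 := Nat.mod_lt h' hL1
          rw [← h1] at e2
          omega
        have h4 := Int.abs_sub_lt_one_of_floor_eq_floor h2
        have h5 : |θ h' - θ h| < 1 / (2 * (r.den : ℝ)) := by
          rw [lt_div_iff₀ (by positivity)]
          rw [← mul_sub, abs_mul, abs_of_pos (by positivity : 0 < 2 * (r.den : ℝ)), abs_sub_comm] at h4
          linarith
        have h6 := sep (k := h' - h) hr (by omega) (by omega) (by omega)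
        have h7 : nd (((h' - h : ℕ) : ℝ) * α) ≤ |θ h' - θ h| := by
          refine (nd_le _ (round ((h':ℝ) * α) - round ((h:ℝ) * α))).trans (le_of_eq ?_)
          simp only [θ]
          rw [Nat.cast_sub hlt.le]
          push_cast
          congr 1
          ring
        linarith
      intro h _ h' _ heq
      rcases lt_trichotomy h h' with hlt | heq' | hlt
      · exact (key h h' hlt heq).elim
      · exact heq'
      · exact (key h' h hlt heq.symm).elim
    have hmaps : ∀ h ∈ H, φ h ∈ Finset.range (N / L + 1) ×ˢ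
        Finset.Icc ⌊-(2 * (r.den : ℝ) * ε)⌋ ⌊2 * (r.den : ℝ) * ε⌋ := by
      intro h hh
      rw [Finset.mem_product, Finset.mem_range, Finset.mem_Icc]
      have h1 := abs_le.1 (hnd h hh)
      refine ⟨Nat.lt_succ_of_le (Nat.div_le_div_right (hH h hh)), ?_, ?_⟩
      · apply Int.floor_le_floor
        have := mul_le_mul_of_nonneg_left h1.1 (by positivity : 0 ≤ 2 * (r.den : ℝ))
        simp only [θ]
        linarith
      · apply Int.floor_le_floor
        have := mul_le_mul_of_nonneg_left h1.2 (by positivity : 0 ≤ 2 * (r.den : ℝ))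
        simp only [θ]
        linarith
    have hle := Finset.card_le_card_of_injOn φ hmaps hinj
    rw [Finset.card_product, Finset.card_range, Int.card_Icc] at hle
    have hle' : (H.card : ℝ) ≤ (2 * N / r.den + 1) * (4 * r.den * ε + 2) := by
      have h1 : (H.card : ℝ) ≤ ((N / L : ℕ) + 1) *
          ((⌊2 * (r.den : ℝ) * ε⌋ + 1 - ⌊-(2 * (r.den : ℝ) * ε)⌋).toNat : ℝ) := by exact_mod_cast hle
      refine h1.trans ?_
      apply mul_le_mul _ _ (by positivity) (by positivity)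
      · have h2 : ((N / L : ℕ) : ℝ) ≤ (N:ℝ) / L := Nat.cast_div_le
        have h3 : (N:ℝ) / L ≤ 2 * N / r.den := by
          rw [div_le_div_iff₀ (by exact_mod_cast hL1) hq]
          nlinarith
        linarith
      · have h2 : (0:ℤ) ≤ ⌊2 * (r.den : ℝ) * ε⌋ + 1 - ⌊-(2 * (r.den : ℝ) * ε)⌋ := by
          have h3 : ⌊-(2 * (r.den : ℝ) * ε)⌋ ≤ ⌊2 * (r.den : ℝ) * ε⌋ := by
            apply Int.floor_le_floor
            have : 0 ≤ 2 * (r.den : ℝ) * ε := by positivity
            linarith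
          omega
        have h3 : ((⌊2 * (r.den : ℝ) * ε⌋ + 1 - ⌊-(2 * (r.den : ℝ) * ε)⌋).toNat : ℝ)
            = (⌊2 * (r.den : ℝ) * ε⌋ : ℝ) + 1 - ⌊-(2 * (r.den : ℝ) * ε)⌋ := by
          have := Int.toNat_of_nonneg h2
          have h4 : (((⌊2 * (r.den : ℝ) * ε⌋ + 1 - ⌊-(2 * (r.den : ℝ) * ε)⌋).toNat : ℤ) : ℝ)
            = ((⌊2 * (r.den : ℝ) * ε⌋ + 1 - ⌊-(2 * (r.den : ℝ) * ε)⌋ : ℤ) : ℝ) := by rw [this]
          push_cast at h4
          exact h4
        rw [h3]
        have h5 := Int.floor_le (2 * (r.den : ℝ) * ε)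
        have h6 := Int.lt_floor_add_one (-(2 * (r.den : ℝ) * ε))
        linarith
    have hexp : (2 * N / r.den + 1) * (4 * r.den * ε + 2)
        = 8 * N * ε + 4 * N / r.den + 4 * (r.den * ε) + 2 := by
      field_simp
      ring
    rw [hexp] at hle'
    have b1 : A * (8 * N * ε) ≤ N / 8 := by nlinarith
    have b2 : A * (4 * N / r.den) ≤ N / 4 := by
      rw [mul_div_assoc', div_le_div_iff₀ hq (by norm_num)]
      nlinarith
    have b3 : A * (4 * (r.den * ε)) ≤ N / 8 := by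
      have h1 : (r.den : ℝ) * ε ≤ N / (32 * A * ε) * ε :=
        mul_le_mul_of_nonneg_right (hdr.trans hn3) hε0.le
      have h2 : (N:ℝ) / (32 * A * ε) * ε = N / (32 * A) := by
        field_simp
      rw [h2] at h1
      have h3 : A * (4 * (N / (32 * A))) = N / 8 := by
        field_simp
        norm_num
      nlinarith
    have b4 : A * 2 ≤ N / 8 := by linarith
    have h10 := mul_le_mul_of_nonneg_left hle' hA0.le
    have h11 : A * (8 * N * ε + 4 * N / r.den + 4 * (r.den * ε) + 2)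
      = A * (8 * N * ε) + A * (4 * N / r.den) + A * (4 * (r.den * ε)) + A * 2 := by ring
    rw [h11] at h10
    linarith
  · refine (nd_le _ r.num).trans ?_
    have h1 : (r.den : ℝ) * α - r.num = r.den * (α - r) := by
      have : (r : ℝ) = r.num / r.den := by
        exact_mod_cast (Rat.num_div_den r).symm
      rw [this]
      field_simp
    rw [h1, abs_mul, abs_of_pos hq]
    have h2 : (r.den : ℝ) * |α - r| ≤ 1 / (n + 1) := by
      refine (mul_le_mul_of_nonneg_left hr hq.le).trans (le_of_eq ?_)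
      field_simp
    refine h2.trans ?_
    rw [div_le_div_iff₀ (by positivity) hN0]
    rw [div_lt_iff₀ hAe] at hn2
    linarith


/-! ### polynomials -/

/-- the phase polynomial -/
noncomputable def PP (D : ℕ) (ξ : ℕ → ℝ) (x : ℝ) : ℝ := ∑ e ∈ Finset.range D, ξ e * x ^ (e + 1)

/-- coefficients of the differenced polynomial -/
noncomputable def cc (D : ℕ) (ξ : ℕ → ℝ) (h : ℝ) (j : ℕ) : ℝ :=
  ∑ e ∈ Finset.range D, if j < e then ξ e * ((e + 1).choose (j + 1) : ℝ) * h ^ (e - j) else 0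

theorem add_pow_split (x h : ℝ) (e : ℕ) : (x + h) ^ (e + 1) = h ^ (e + 1) + x ^ (e + 1) +
    ∑ j ∈ Finset.range e, x ^ (j + 1) * h ^ (e - j) * ((e + 1).choose (j + 1) : ℝ) := by
  rw [add_pow, Finset.sum_range_succ, Finset.sum_range_succ']
  simp only [Nat.reduceSubDiff, Nat.sub_self, pow_zero, mul_one, Nat.choose_self, Nat.cast_one,
    one_mul, Nat.choose_zero_right, Nat.sub_zero]
  ring

theorem PP_shift (D : ℕ) (ξ : ℕ → ℝ) (x h : ℝ) :
    PP (D + 1) ξ (x + h) - PP (D + 1) ξ x = PP (D + 1) ξ h + PP D (cc (D + 1) ξ h) x := by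
  have h1 : PP D (cc (D + 1) ξ h) x = ∑ e ∈ Finset.range (D + 1), ξ e *
      ∑ j ∈ Finset.range e, x ^ (j + 1) * h ^ (e - j) * ((e + 1).choose (j + 1) : ℝ) := by
    rw [PP]
    simp only [cc, Finset.sum_mul, Finset.mul_sum]
    rw [Finset.sum_comm]
    refine Finset.sum_congr rfl fun e he => ?_
    have he' : e ≤ D := Nat.lt_succ_iff.1 (Finset.mem_range.1 he)
    have h2 : Finset.range e = (Finset.range D).filter fun j => j < e := by
      ext j
      simp only [Finset.mem_range, Finset.mem_filter]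
      omega
    rw [h2, Finset.sum_filter]
    refine Finset.sum_congr rfl fun j _ => ?_
    by_cases hj : j < e
    · rw [if_pos hj, if_pos hj]
      ring
    · rw [if_neg hj, if_neg hj, zero_mul]
  rw [h1, PP, PP, PP, ← Finset.sum_sub_distrib, ← Finset.sum_add_distrib]
  refine Finset.sum_congr rfl fun e _ => ?_
  rw [add_pow_split]
  ring

/-- simultaneous approximation of the coefficients with index `≥ i` -/
def Good (K : ℝ) (C N D i : ℕ) (ξ : ℕ → ℝ) : Prop :=
  ∃ q : ℕ, 0 < q ∧ (q : ℝ) ≤ K ^ C ∧ ∀ e, i ≤ e → e < D → nd (q * ξ e) ≤ K ^ C / (N : ℝ) ^ (e + 1)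

theorem Good.small {K : ℝ} (hK : 2 ≤ K) {F N D : ℕ} (hN : 0 < N) (h : (N : ℝ) ≤ K ^ F) (i : ℕ)
    (ξ : ℕ → ℝ) : Good K (F * D) N D i ξ := by
  have hK1 : 1 ≤ K := by linarith
  refine ⟨1, Nat.one_pos, by simpa using one_le_pow₀ hK1, ?_⟩
  intro e _ he
  have hN' : (0:ℝ) < N := by exact_mod_cast hN
  refine (nd_le_half _).trans ?_
  rw [le_div_iff₀ (by positivity)]
  have h1 : (N:ℝ) ^ (e + 1) ≤ (K ^ F) ^ (e + 1) := pow_le_pow_left₀ hN'.le h _
  have h2 : (K ^ F) ^ (e + 1) ≤ K ^ (F * D) := by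
    rw [← pow_mul]
    exact pow_le_pow_right₀ hK1 (Nat.mul_le_mul_left _ he)
  have h3 : (0:ℝ) < (N:ℝ) ^ (e + 1) := by positivity
  linarith

theorem Good.mono {K : ℝ} (hK : 2 ≤ K) {C C' N D i : ℕ} (hC : C ≤ C') {ξ : ℕ → ℝ}
    (h : Good K C N D i ξ) : Good K C' N D i ξ := by
  have hK1 : 1 ≤ K := by linarith
  obtain ⟨q, h1, h2, h3⟩ := h
  refine ⟨q, h1, h2.trans (pow_le_pow_right₀ hK1 hC), fun e h4 h5 => (h3 e h4 h5).trans ?_⟩
  exact div_le_div_of_nonneg_right (pow_le_pow_right₀ hK1 hC) (by positivity)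

/-- the outcome of differencing and induction -/
def Dat (K : ℝ) (C N D : ℕ) (ξ : ℕ → ℝ) : Prop :=
  ∃ q : ℕ, 0 < q ∧ (q : ℝ) ≤ K ^ C ∧ ∃ H : Finset ℕ, (∀ k ∈ H, k < N) ∧ (N : ℝ) ≤ K ^ C * H.card ∧
    ∀ k ∈ H, ∀ j < D, nd (q * cc (D + 1) ξ ((k : ℝ) + 1) j) ≤ K ^ C / (N : ℝ) ^ (j + 1)

theorem two_pow_le {K : ℝ} (hK : 2 ≤ K) (n : ℕ) : (2:ℝ) ^ n ≤ K ^ n :=
  pow_le_pow_left₀ (by norm_num) hK n

theorem nat_le_pow {K : ℝ} (hK : 2 ≤ K) (n : ℕ) : (n : ℝ) ≤ K ^ n := by
  have h1 : (n : ℝ) ≤ 2 ^ n := by exact_mod_cast Nat.lt_two_pow_self.le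
  exact h1.trans (two_pow_le hK n)

theorem step1 {D C0 : ℕ} (ih : ∀ K : ℝ, 2 ≤ K → ∀ N : ℕ, 0 < N → ∀ ξ : ℕ → ℝ,
      (N : ℝ) ≤ K * ‖∑ n ∈ Finset.range N, ee (PP D ξ n)‖ → Good K C0 N D 0 ξ)
    {K : ℝ} (hK : 2 ≤ K) {N : ℕ} (hN0 : 0 < N) (hN : K ^ 3 ≤ N) (ξ : ℕ → ℝ)
    (h : (N : ℝ) ≤ K * ‖∑ n ∈ Finset.range N, ee (PP (D + 1) ξ n)‖) :
    Dat K (5 * C0 + 5 * D + 5) N D ξ := by
  classical
  have hK1 : 1 ≤ K := by linarith
  have hNr : (0:ℝ) < N := by exact_mod_cast hN0
  obtain ⟨H, hH, hHc⟩ := vdc (fun n => ee (PP (D + 1) ξ n)) (fun n => norm_ee _) hK hN h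
  have hcor : ∀ k, ‖cor (fun n => ee (PP (D + 1) ξ n)) N k‖
      = ‖∑ m ∈ Finset.range (N - (k + 1)), ee (PP D (cc (D + 1) ξ ((k : ℝ) + 1)) m)‖ := by
    intro k
    have h1 : cor (fun n => ee (PP (D + 1) ξ n)) N k = ee (PP (D + 1) ξ ((k : ℝ) + 1)) *
        ∑ m ∈ Finset.range (N - (k + 1)), ee (PP D (cc (D + 1) ξ ((k : ℝ) + 1)) m) := by
      rw [cor, Finset.mul_sum]
      refine Finset.sum_congr rfl fun m _ => ?_
      rw [conj_ee, ← ee_add, ← ee_add, ← PP_shift]
      push_cast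
      rw [sub_eq_add_neg]
    rw [h1, norm_mul, norm_ee, one_mul]
  have hex : ∀ k ∈ H, ∃ q : ℕ, 0 < q ∧ (q : ℝ) ≤ K ^ (5 * C0) ∧ ∀ j < D,
      nd (q * cc (D + 1) ξ ((k : ℝ) + 1) j) ≤ K ^ (5 * C0 + 5 * D) / (N : ℝ) ^ (j + 1) := by
    intro k hk
    obtain ⟨hkN, hkc⟩ := hH k hk
    have hle := norm_cor_le (fun n => ee (PP (D + 1) ξ n)) (fun n => norm_ee _) N k
    set M := N - (k + 1) with hM
    have hNM : (N : ℝ) ≤ K ^ 5 * M := hkc.trans (mul_le_mul_of_nonneg_left hle (by positivity))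
    have hM0 : 0 < M := by
      rcases Nat.eq_zero_or_pos M with h0 | h0
      · rw [h0] at hNM
        simp at hNM
        omega
      · exact h0
    have hMr : (0:ℝ) < M := by exact_mod_cast hM0
    have hMN : (M : ℝ) ≤ N := by exact_mod_cast Nat.sub_le _ _
    have hK5 : 2 ≤ K ^ 5 := by
      calc (2:ℝ) ≤ K := hK
        _ = K ^ 1 := (pow_one K).symm
        _ ≤ K ^ 5 := pow_le_pow_right₀ hK1 (by norm_num)
    rw [hcor] at hkc
    obtain ⟨q, hq0, hq1, hq2⟩ := ih (K ^ 5) hK5 M hM0 (cc (D + 1) ξ ((k : ℝ) + 1)) (hMN.trans hkc)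
    refine ⟨q, hq0, by rwa [pow_mul], fun j hj => (hq2 j (Nat.zero_le _) hj).trans ?_⟩
    rw [div_le_div_iff₀ (by positivity) (by positivity), ← pow_mul, pow_add K (5 * C0) (5 * D), mul_assoc]
    apply mul_le_mul_of_nonneg_left _ (by positivity)
    calc (N:ℝ) ^ (j + 1) ≤ (K ^ 5 * M) ^ (j + 1) := pow_le_pow_left₀ hNr.le hNM _
      _ = K ^ (5 * (j + 1)) * (M:ℝ) ^ (j + 1) := by rw [mul_pow, ← pow_mul]
      _ ≤ K ^ (5 * D) * (M:ℝ) ^ (j + 1) := by
          apply mul_le_mul_of_nonneg_right _ (by positivity)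
          exact pow_le_pow_right₀ hK1 (by omega)
  choose! qf hq0 hq1 hq2 using hex
  -- pigeonhole
  have hHne : H.Nonempty := by
    rw [Finset.nonempty_iff_ne_empty]
    rintro rfl
    simp at hHc
    omega
  set Q := ⌊K ^ (5 * C0)⌋₊ with hQ
  have hmaps : ∀ k ∈ H, qf k ∈ Finset.Icc 1 Q := by
    intro k hk
    rw [Finset.mem_Icc]
    exact ⟨hq0 k hk, Nat.le_floor (hq1 k hk)⟩
  have hIne : (Finset.Icc 1 Q).Nonempty := by
    obtain ⟨k, hk⟩ := hHne
    exact ⟨_, hmaps k hk⟩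
  have hsum := Finset.card_eq_sum_card_fiberwise hmaps
  have hpig : ∃ q ∈ Finset.Icc 1 Q, (H.card : ℝ) / Q ≤ ((H.filter fun k => qf k = q).card : ℝ) := by
    apply Finset.exists_le_of_sum_le hIne
    rw [Finset.sum_const, Nat.card_Icc, nsmul_eq_mul]
    have hQ0 : (0:ℝ) < Q := by
      obtain ⟨x, hx⟩ := hIne
      rw [Finset.mem_Icc] at hx
      have : 0 < Q := by omega
      exact_mod_cast this
    rw [show Q + 1 - 1 = Q by omega, mul_div_cancel₀ _ hQ0.ne', hsum]
    push_cast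
    exact le_rfl
  obtain ⟨q, hq, hqc⟩ := hpig
  rw [Finset.mem_Icc] at hq
  have hQle : (Q : ℝ) ≤ K ^ (5 * C0) := Nat.floor_le (by positivity)
  have hQ0 : (0:ℝ) < Q := by
    have : 0 < Q := by omega
    exact_mod_cast this
  refine ⟨q, by omega, ?_, H.filter fun k => qf k = q, ?_, ?_, ?_⟩
  · have h1 : (q : ℝ) ≤ Q := by exact_mod_cast hq.2
    exact (h1.trans hQle).trans (pow_le_pow_right₀ hK1 (by omega))
  · intro k hk
    exact (hH k (Finset.mem_filter.1 hk).1).1
  · rw [div_le_iff₀ hQ0] at hqc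
    have h1 : (H.card : ℝ) ≤ ((H.filter fun k => qf k = q).card : ℝ) * K ^ (5 * C0) :=
      hqc.trans (mul_le_mul_of_nonneg_left hQle (by positivity))
    calc (N:ℝ) ≤ K ^ 5 * H.card := hHc
      _ ≤ K ^ 5 * (((H.filter fun k => qf k = q).card : ℝ) * K ^ (5 * C0)) :=
          mul_le_mul_of_nonneg_left h1 (by positivity)
      _ = K ^ (5 * C0 + 5) * ((H.filter fun k => qf k = q).card : ℝ) := by rw [pow_add]; ring
      _ ≤ _ := by
          apply mul_le_mul_of_nonneg_right _ (by positivity)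
          exact pow_le_pow_right₀ hK1 (by omega)
  · intro k hk j hj
    rw [Finset.mem_filter] at hk
    have := hq2 k hk.1 j hj
    rw [hk.2] at this
    refine this.trans ?_
    exact div_le_div_of_nonneg_right (pow_le_pow_right₀ hK1 (by omega)) (by positivity)


theorem cc_split (D : ℕ) (ξ : ℕ → ℝ) (h : ℝ) {j : ℕ} (hj : j < D) :
    cc (D + 1) ξ h j = ξ (j + 1) * ((j : ℝ) + 2) * h + ∑ e ∈ Finset.range (D + 1),
      if j + 1 < e then ξ e * ((e + 1).choose (j + 1) : ℝ) * h ^ (e - j) else 0 := by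
  rw [cc, ← Finset.add_sum_erase _ _ (Finset.mem_range.2 (by omega : j + 1 < D + 1)),
    ← Finset.add_sum_erase (Finset.range (D + 1))
      (fun e => if j + 1 < e then ξ e * ((e + 1).choose (j + 1) : ℝ) * h ^ (e - j) else 0)
      (Finset.mem_range.2 (by omega : j + 1 < D + 1))]
  simp only [lt_irrefl, if_false, zero_add, Nat.lt_succ_self, if_true]
  congr 1
  · rw [show j + 1 - j = 1 by omega, pow_one, Nat.choose_succ_self_right]
    push_cast
    ring
  · refine Finset.sum_congr rfl fun e he => ?_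
    rw [Finset.mem_erase] at he
    by_cases h1 : j < e
    · rw [if_pos h1, if_pos (by omega)]
    · rw [if_neg h1, if_neg (by omega)]

theorem step2 {C1 D : ℕ} (m : ℕ) (hm : m ≤ D) : ∃ C2 : ℕ, ∀ K : ℝ, 2 ≤ K → ∀ N : ℕ, 0 < N →
    ∀ ξ : ℕ → ℝ, Dat K C1 N D ξ → Good K C2 N (D + 1) (D + 1 - m) ξ := by
  induction m with
  | zero =>
    refine ⟨0, fun K hK N hN ξ _ => ⟨1, Nat.one_pos, by simp, fun e h1 h2 => ?_⟩⟩
    omega
  | succ m ihm =>
    obtain ⟨C, hC⟩ := ihm (by omega)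
    set E := C1 + C + 2 * D + 3 with hE
    set F := C1 + E + 6 with hF
    refine ⟨F * (D + 1) + (2 * C1 + C + D + E + 20), fun K hK N hN0 ξ hdat => ?_⟩
    have hK1 : 1 ≤ K := by linarith
    have hK0 : 0 < K := by linarith
    have hNr : (0:ℝ) < N := by exact_mod_cast hN0
    by_cases hNF : (N : ℝ) ≤ K ^ F
    · exact (Good.small hK hN0 hNF _ ξ).mono hK (by omega)
    push Not at hNF
    obtain ⟨q', hq'0, hq'1, hq'2⟩ := hC K hK N hN0 ξ hdat
    obtain ⟨q, hq0, hq1, H, hH, hHc, hHnd⟩ := hdat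
    obtain ⟨j, hj⟩ : ∃ j, D + 1 - m = j + 2 := ⟨D + 1 - m - 2, by omega⟩
    have hjD : j < D := by omega
    rw [hj] at hq'2
    rw [show D + 1 - (m + 1) = j + 1 by omega]
    set α : ℝ := (q' : ℝ) * q * (j + 2) * ξ (j + 1) with hα
    set ε : ℝ := K ^ E / (N : ℝ) ^ (j + 1) with hε
    have hε0 : 0 < ε := by positivity
    -- the estimate for the multiples
    have hnd : ∀ k ∈ H, nd (((k : ℝ) + 1) * α) ≤ ε := by
      intro k hk
      have hkN : (k : ℝ) + 1 ≤ N := by exact_mod_cast hH k hk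
      have hk0 : (0:ℝ) ≤ (k:ℝ) + 1 := by positivity
      have h1 : ((k : ℝ) + 1) * α = (q' : ℝ) * (q * cc (D + 1) ξ ((k : ℝ) + 1) j)
          - ∑ e ∈ Finset.range (D + 1), if j + 1 < e then
            ((q * (e + 1).choose (j + 1) * (k + 1) ^ (e - j) : ℕ) : ℝ) * (q' * ξ e) else 0 := by
        rw [cc_split D ξ _ hjD]
        have h2 : (q' : ℝ) * (q * (ξ (j + 1) * ((j : ℝ) + 2) * ((k : ℝ) + 1) + ∑ e ∈ Finset.range (D + 1),
            if j + 1 < e then ξ e * ((e + 1).choose (j + 1) : ℝ) * ((k : ℝ) + 1) ^ (e - j) else 0))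
            = ((k : ℝ) + 1) * α + ∑ e ∈ Finset.range (D + 1), if j + 1 < e then
            ((q * (e + 1).choose (j + 1) * (k + 1) ^ (e - j) : ℕ) : ℝ) * (q' * ξ e) else 0 := by
          rw [mul_add, mul_add, Finset.mul_sum, Finset.mul_sum]
          congr 1
          · rw [hα]
            ring
          · refine Finset.sum_congr rfl fun e _ => ?_
            split_ifs
            · push_cast
              ring
            · simp
        rw [h2]
        ring
      rw [h1]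
      refine (nd_sub _ _).trans ?_
      have h2 : nd ((q' : ℝ) * (q * cc (D + 1) ξ ((k : ℝ) + 1) j)) ≤ K ^ (E - 1) / (N : ℝ) ^ (j + 1) := by
        refine (nd_nat_mul _ _).trans ?_
        refine (mul_le_mul hq'1 (hHnd k hk j hjD) (nd_nonneg _) (by positivity)).trans ?_
        rw [mul_div_assoc', ← pow_add]
        exact div_le_div_of_nonneg_right (pow_le_pow_right₀ hK1 (by omega)) (by positivity)
      have h3 : nd (∑ e ∈ Finset.range (D + 1), if j + 1 < e then
            ((q * (e + 1).choose (j + 1) * (k + 1) ^ (e - j) : ℕ) : ℝ) * (q' * ξ e) else 0)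
            ≤ K ^ (E - 1) / (N : ℝ) ^ (j + 1) := by
        refine (nd_sum _ _).trans ?_
        have h4 : ∀ e ∈ Finset.range (D + 1), nd (if j + 1 < e then
            ((q * (e + 1).choose (j + 1) * (k + 1) ^ (e - j) : ℕ) : ℝ) * (q' * ξ e) else 0)
            ≤ K ^ (C1 + C + D + 1) / (N : ℝ) ^ (j + 1) := by
          intro e he
          have he' : e < D + 1 := Finset.mem_range.1 he
          split_ifs with hje
          · refine (nd_nat_mul _ _).trans ?_
            have h5 := hq'2 e (by omega) he'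
            have h6 : ((q * (e + 1).choose (j + 1) * (k + 1) ^ (e - j) : ℕ) : ℝ)
                ≤ K ^ C1 * K ^ (D + 1) * (N : ℝ) ^ (e - j) := by
              push_cast
              apply mul_le_mul _ (pow_le_pow_left₀ hk0 hkN _) (by positivity) (by positivity)
              apply mul_le_mul hq1 _ (by positivity) (by positivity)
              have h7 : ((e + 1).choose (j + 1) : ℝ) ≤ 2 ^ (e + 1) := by
                exact_mod_cast Nat.choose_le_two_pow _ _
              refine h7.trans ((two_pow_le hK _).trans ?_)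
              exact pow_le_pow_right₀ hK1 (by omega)
            refine (mul_le_mul h6 h5 (nd_nonneg _) (by positivity)).trans (le_of_eq ?_)
            have h8 : (N : ℝ) ^ (e + 1) = (N : ℝ) ^ (e - j) * (N : ℝ) ^ (j + 1) := by
              rw [← pow_add]
              congr 1
              omega
            rw [h8, show C1 + C + D + 1 = C1 + (D + 1) + C by ring]
            field_simp
            ring
          · rw [show (0:ℝ) = ((0:ℤ) : ℝ) by simp, nd_int]
            positivity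
        refine (Finset.sum_le_sum h4).trans ?_
        rw [Finset.sum_const, Finset.card_range, nsmul_eq_mul]
        have h9 := nat_le_pow hK (D + 1)
        refine (mul_le_mul_of_nonneg_right h9 (by positivity)).trans ?_
        rw [mul_div_assoc', ← pow_add]
        exact div_le_div_of_nonneg_right (pow_le_pow_right₀ hK1 (by omega)) (by positivity)
      have h10 : K ^ (E - 1) / (N : ℝ) ^ (j + 1) + K ^ (E - 1) / (N : ℝ) ^ (j + 1) ≤ ε := by
        rw [hε, ← add_div]
        apply div_le_div_of_nonneg_right _ (by positivity)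
        have : K ^ E = K ^ (E - 1) * K := by
          rw [← pow_succ]
          congr 1
        rw [this]
        have : 0 < K ^ (E - 1) := by positivity
        nlinarith
      linarith
    -- Vinogradov
    have hA : (1:ℝ) ≤ K ^ C1 := one_le_pow₀ hK1
    have h64 : (64:ℝ) ≤ K ^ 6 := by
      calc (64:ℝ) = 2 ^ 6 := by norm_num
        _ ≤ K ^ 6 := two_pow_le hK 6
    have hεle : 64 * K ^ C1 * ε ≤ 1 := by
      rw [hε, mul_div_assoc', div_le_one (by positivity)]
      calc 64 * K ^ C1 * K ^ E ≤ K ^ 6 * K ^ C1 * K ^ E := by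
            apply mul_le_mul_of_nonneg_right _ (by positivity)
            apply mul_le_mul_of_nonneg_right h64 (by positivity)
        _ = K ^ F := by rw [← pow_add, ← pow_add]; congr 1; omega
        _ ≤ N := hNF.le
        _ = (N:ℝ) ^ 1 := (pow_one _).symm
        _ ≤ (N:ℝ) ^ (j + 1) := pow_le_pow_right₀ (by exact_mod_cast hN0) (by omega)
    have h16 : 16 * K ^ C1 ≤ N := by
      calc 16 * K ^ C1 ≤ K ^ 6 * K ^ C1 := by
            apply mul_le_mul_of_nonneg_right _ (by positivity)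
            linarith
        _ = K ^ (6 + C1) := by rw [pow_add]
        _ ≤ K ^ F := pow_le_pow_right₀ hK1 (by omega)
        _ ≤ N := hNF.le
    obtain ⟨q'', hq''0, hq''1, hq''2⟩ := vin (α := α) hA hε0 hεle h16 (H.image fun k => k + 1)
      (by
        intro h hh
        rw [Finset.mem_image] at hh
        obtain ⟨k, hk, rfl⟩ := hh
        exact hH k hk)
      (by
        rw [Finset.card_image_of_injective _ (fun a b h => Nat.succ_injective h)]
        exact hHc)
      (by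
        intro h hh
        rw [Finset.mem_image] at hh
        obtain ⟨k, hk, rfl⟩ := hh
        push_cast
        exact hnd k hk)
    have h16' : 16 * K ^ C1 ≤ K ^ (C1 + 4) := by
      rw [pow_add, mul_comm]
      apply mul_le_mul_of_nonneg_left _ (by positivity)
      calc (16:ℝ) = 2 ^ 4 := by norm_num
        _ ≤ K ^ 4 := two_pow_le hK 4
    have hj2 : ((j + 2 : ℕ) : ℝ) ≤ K ^ (D + 1) :=
      (nat_le_pow hK (j + 2)).trans (pow_le_pow_right₀ hK1 (by omega))
    refine ⟨q'' * (q' * q * (j + 2)), by positivity, ?_, ?_⟩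
    · push_cast at hj2 ⊢
      calc (q'' : ℝ) * ((q' : ℝ) * q * (j + 2)) ≤ K ^ (C1 + 4) * (K ^ C * K ^ C1 * K ^ (D + 1)) := by
            apply mul_le_mul (hq''1.trans h16') _ (by positivity) (by positivity)
            apply mul_le_mul _ hj2 (by positivity) (by positivity)
            exact mul_le_mul hq'1 hq1 (by positivity) (by positivity)
        _ = K ^ (C1 + 4 + (C + C1 + (D + 1))) := by rw [← pow_add, ← pow_add, ← pow_add]
        _ ≤ _ := pow_le_pow_right₀ hK1 (by omega)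
    · intro e he1 he2
      rcases Nat.eq_or_lt_of_le he1 with rfl | he3
      · have h1 : ((q'' * (q' * q * (j + 2)) : ℕ) : ℝ) * ξ (j + 1) = q'' * α := by
          rw [hα]
          push_cast
          ring
        rw [h1]
        refine hq''2.trans ?_
        rw [hε, mul_div_assoc', div_div, ← pow_succ]
        apply div_le_div_of_nonneg_right _ (by positivity)
        calc 32 * K ^ C1 * K ^ E ≤ K ^ 5 * K ^ C1 * K ^ E := by
              apply mul_le_mul_of_nonneg_right _ (by positivity)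
              apply mul_le_mul_of_nonneg_right _ (by positivity)
              calc (32:ℝ) = 2 ^ 5 := by norm_num
                _ ≤ K ^ 5 := two_pow_le hK 5
          _ = K ^ (5 + C1 + E) := by rw [← pow_add, ← pow_add]
          _ ≤ _ := pow_le_pow_right₀ hK1 (by omega)
      · have h1 : ((q'' * (q' * q * (j + 2)) : ℕ) : ℝ) * ξ e
            = ((q'' * q * (j + 2) : ℕ) : ℝ) * (q' * ξ e) := by
          push_cast
          ring
        rw [h1]
        refine (nd_nat_mul _ _).trans ?_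
        have h2 : ((q'' * q * (j + 2) : ℕ) : ℝ) ≤ K ^ (C1 + 4) * K ^ C1 * K ^ (D + 1) := by
          push_cast at hj2 ⊢
          apply mul_le_mul _ hj2 (by positivity) (by positivity)
          exact mul_le_mul (hq''1.trans h16') hq1 (by positivity) (by positivity)
        refine (mul_le_mul h2 (hq'2 e (by omega) he2) (nd_nonneg _) (by positivity)).trans ?_
        rw [mul_div_assoc', ← pow_add, ← pow_add, ← pow_add]
        exact div_le_div_of_nonneg_right (pow_le_pow_right₀ hK1 (by omega)) (by positivity)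


/-! ### the linear coefficient -/

theorem shift_norm (f : ℕ → ℂ) (hf : ∀ n, ‖f n‖ = 1) (N s : ℕ) :
    ‖∑ n ∈ Finset.range N, f n - ∑ n ∈ Finset.range N, f (n + s)‖ ≤ 2 * s := by
  have h1 : ∑ n ∈ Finset.range N, f (n + s) = ∑ n ∈ Finset.range N, f n
      + ∑ n ∈ Finset.range s, f (N + n) - ∑ n ∈ Finset.range s, f n := by
    have h2 := Finset.sum_range_add f N s
    have h3 := Finset.sum_range_add f s N
    rw [add_comm s N, h2] at h3
    rw [h3, show ∑ n ∈ Finset.range N, f (n + s) = ∑ n ∈ Finset.range N, f (s + n) from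
      Finset.sum_congr rfl fun n _ => by rw [add_comm]]
    ring
  rw [h1, show ∑ n ∈ Finset.range N, f n - (∑ n ∈ Finset.range N, f n
      + ∑ n ∈ Finset.range s, f (N + n) - ∑ n ∈ Finset.range s, f n)
      = ∑ n ∈ Finset.range s, f n - ∑ n ∈ Finset.range s, f (N + n) by ring]
  refine (norm_sub_le _ _).trans ?_
  have h4 : ‖∑ n ∈ Finset.range s, f n‖ ≤ s := by
    refine (norm_sum_le _ _).trans ?_
    simp [hf]
  have h5 : ‖∑ n ∈ Finset.range s, f (N + n)‖ ≤ s := by
    refine (norm_sum_le _ _).trans ?_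
    simp [hf]
  linarith

theorem exists_block (f : ℕ → ℂ) (hf : ∀ n, ‖f n‖ = 1) {K : ℝ} (hK : 2 ≤ K) {N q M : ℕ}
    (hN0 : 0 < N) (hM0 : 0 < M) (hqM : 4 * K * q * M ≤ N)
    (h : (N : ℝ) ≤ K * ‖∑ n ∈ Finset.range N, f n‖) :
    ∃ n₀ < N, (M : ℝ) ≤ 2 * K * ‖∑ m ∈ Finset.range M, f (n₀ + m * q)‖ := by
  by_contra hcon
  push Not at hcon
  have hK0 : 0 < K := by linarith
  have hNr : (0:ℝ) < N := by exact_mod_cast hN0
  have hMr : (0:ℝ) < M := by exact_mod_cast hM0
  set S := ∑ n ∈ Finset.range N, f n with hS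
  have h1 : ‖(M : ℂ) * S - ∑ m ∈ Finset.range M, ∑ n ∈ Finset.range N, f (n + m * q)‖
      ≤ M * (2 * (q * M)) := by
    have h2 : (M : ℂ) * S = ∑ m ∈ Finset.range M, S := by
      rw [Finset.sum_const, Finset.card_range, nsmul_eq_mul]
    rw [h2, ← Finset.sum_sub_distrib]
    refine (norm_sum_le _ _).trans ?_
    have h3 : ∀ m ∈ Finset.range M, ‖S - ∑ n ∈ Finset.range N, f (n + m * q)‖ ≤ 2 * (q * M) := by
      intro m hm
      refine (shift_norm f hf N (m * q)).trans ?_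
      have h4 : (m : ℝ) ≤ M := by exact_mod_cast (Finset.mem_range.1 hm).le
      push_cast
      have h5 : (0:ℝ) ≤ q := Nat.cast_nonneg q
      nlinarith
    refine (Finset.sum_le_sum h3).trans ?_
    rw [Finset.sum_const, Finset.card_range, nsmul_eq_mul]
  have h2 : ‖∑ m ∈ Finset.range M, ∑ n ∈ Finset.range N, f (n + m * q)‖ ≤ N * (M / (2 * K)) := by
    rw [Finset.sum_comm]
    refine (norm_sum_le _ _).trans ?_
    have h3 : ∀ n ∈ Finset.range N, ‖∑ m ∈ Finset.range M, f (n + m * q)‖ ≤ M / (2 * K) := by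
      intro n hn
      rw [le_div_iff₀ (by positivity)]
      have := hcon n (Finset.mem_range.1 hn)
      linarith
    refine (Finset.sum_le_sum h3).trans ?_
    rw [Finset.sum_const, Finset.card_range, nsmul_eq_mul]
  have h3 : (M : ℝ) * ‖S‖ ≤ M * (2 * (q * M)) + N * (M / (2 * K)) := by
    have h4 : (M : ℝ) * ‖S‖ = ‖(M : ℂ) * S‖ := by rw [norm_mul, Complex.norm_natCast]
    rw [h4]
    have h5 : (M : ℂ) * S = ((M : ℂ) * S - ∑ m ∈ Finset.range M, ∑ n ∈ Finset.range N, f (n + m * q))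
        + ∑ m ∈ Finset.range M, ∑ n ∈ Finset.range N, f (n + m * q) := by ring
    rw [h5]
    refine (norm_add_le _ _).trans ?_
    linarith
  -- strictness
  have h2' : ‖∑ m ∈ Finset.range M, ∑ n ∈ Finset.range N, f (n + m * q)‖ < N * (M / (2 * K)) := by
    rw [Finset.sum_comm]
    refine lt_of_le_of_lt (norm_sum_le _ _) ?_
    have h3 : ∀ n ∈ Finset.range N, ‖∑ m ∈ Finset.range M, f (n + m * q)‖ < M / (2 * K) := by
      intro n hn
      rw [lt_div_iff₀ (by positivity)]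
      have := hcon n (Finset.mem_range.1 hn)
      linarith
    refine lt_of_lt_of_le (Finset.sum_lt_sum_of_nonempty ⟨0, Finset.mem_range.2 hN0⟩ h3) ?_
    rw [Finset.sum_const, Finset.card_range, nsmul_eq_mul]
  have h3' : (M : ℝ) * ‖S‖ < M * (2 * (q * M)) + N * (M / (2 * K)) := by
    have h4 : (M : ℝ) * ‖S‖ = ‖(M : ℂ) * S‖ := by rw [norm_mul, Complex.norm_natCast]
    rw [h4]
    have h5 : (M : ℂ) * S = ((M : ℂ) * S - ∑ m ∈ Finset.range M, ∑ n ∈ Finset.range N, f (n + m * q))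
        + ∑ m ∈ Finset.range M, ∑ n ∈ Finset.range N, f (n + m * q) := by ring
    rw [h5]
    refine lt_of_le_of_lt (norm_add_le _ _) ?_
    linarith
  have h6 : ‖S‖ < 2 * (q * M) + N / (2 * K) := by
    have h7 : (M : ℝ) * (2 * (q * M)) + N * (M / (2 * K)) = M * (2 * (q * M) + N / (2 * K)) := by ring
    rw [h7] at h3'
    exact lt_of_mul_lt_mul_left h3' hMr.le
  have h8 : K * ‖S‖ < K * (2 * (q * M) + N / (2 * K)) := mul_lt_mul_of_pos_left h6 hK0
  have h9 : K * (2 * (q * M) + N / (2 * K)) = (4 * K * q * M) / 2 + N / 2 := by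
    field_simp
    ring
  rw [h9] at h8
  linarith

/-- the difference of powers -/
theorem pow_diff (n₀ m q e N : ℕ) (h1 : n₀ ≤ N) (h2 : m * q ≤ N) : ∃ u : ℕ,
    ((n₀ + m * q : ℕ) : ℝ) ^ (e + 1) = (n₀ : ℝ) ^ (e + 1) + (m * u * q : ℕ) ∧
      (u : ℝ) ≤ (e + 1) * (2 * N) ^ e := by
  refine ⟨∑ i ∈ Finset.range (e + 1), (n₀ + m * q) ^ i * n₀ ^ (e + 1 - 1 - i), ?_, ?_⟩
  · have h3 := (Commute.all ((n₀ + m * q : ℕ) : ℝ) (n₀ : ℝ)).mul_geom_sum₂ (e + 1)
    have h4 : (((m * ∑ i ∈ Finset.range (e + 1), (n₀ + m * q) ^ i * n₀ ^ (e + 1 - 1 - i)) * q : ℕ) : ℝ)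
        = (((n₀ + m * q : ℕ) : ℝ) - n₀) * ∑ i ∈ Finset.range (e + 1),
          ((n₀ + m * q : ℕ) : ℝ) ^ i * (n₀ : ℝ) ^ (e + 1 - 1 - i) := by
      push_cast
      ring
    rw [h4]
    linarith
  · push_cast
    have h3 : ∀ i ∈ Finset.range (e + 1), ((n₀ : ℝ) + m * q) ^ i * (n₀ : ℝ) ^ (e - i) ≤ (2 * N) ^ e := by
      intro i hi
      have hi' : i ≤ e := Nat.lt_succ_iff.1 (Finset.mem_range.1 hi)
      have h4 : (n₀ : ℝ) + m * q ≤ 2 * N := by
        have : n₀ + m * q ≤ 2 * N := by omega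
        exact_mod_cast this
      have h5 : (n₀ : ℝ) ≤ 2 * N := by
        have : n₀ ≤ 2 * N := by omega
        exact_mod_cast this
      calc ((n₀ : ℝ) + m * q) ^ i * (n₀ : ℝ) ^ (e - i) ≤ (2 * N) ^ i * (2 * N) ^ (e - i) := by
            apply mul_le_mul (pow_le_pow_left₀ (by positivity) h4 _)
              (pow_le_pow_left₀ (by positivity) h5 _) (by positivity) (by positivity)
        _ = (2 * N) ^ e := by
            rw [← pow_add]
            congr 1
            omega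
    refine (Finset.sum_le_sum h3).trans (le_of_eq ?_)
    rw [Finset.sum_const, Finset.card_range, nsmul_eq_mul]
    push_cast
    ring

theorem step3 (C D : ℕ) : ∃ C3 : ℕ, ∀ K : ℝ, 2 ≤ K → ∀ N : ℕ, 0 < N → ∀ ξ : ℕ → ℝ,
    Good K C N (D + 1) 1 ξ → (N : ℝ) ≤ K * ‖∑ n ∈ Finset.range N, ee (PP (D + 1) ξ n)‖ →
    Good K C3 N (D + 1) 0 ξ := by
  set F := 3 * D + 12 + C with hF
  refine ⟨F * (D + 1) + (C + F + 5), fun K hK N hN0 ξ hg h => ?_⟩
  have hK1 : 1 ≤ K := by linarith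
  have hK0 : 0 < K := by linarith
  have hNr : (0:ℝ) < N := by exact_mod_cast hN0
  by_cases hNF : (N : ℝ) ≤ K ^ F
  · exact (Good.small hK hN0 hNF _ ξ).mono hK (by omega)
  push Not at hNF
  obtain ⟨q, hq0, hq1, hq2⟩ := hg
  set M := ⌊(N : ℝ) / K ^ F⌋₊ with hM
  have hKF : 0 < K ^ F := by positivity
  have hM1 : 1 ≤ M := by
    apply Nat.le_floor
    rw [Nat.cast_one, le_div_iff₀ hKF]
    linarith
  have hMr : (0:ℝ) < M := by exact_mod_cast hM1
  have hMle : (M : ℝ) ≤ N / K ^ F := Nat.floor_le (by positivity)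
  have hMge : (N : ℝ) / K ^ F ≤ 2 * M := by
    have h1 : (N : ℝ) / K ^ F < M + 1 := Nat.lt_floor_add_one _
    have h2 : (1:ℝ) ≤ M := by exact_mod_cast hM1
    linarith
  have hqM : 4 * K * q * M ≤ N := by
    calc 4 * K * q * M ≤ K ^ 2 * K * K ^ C * (N / K ^ F) := by
          apply mul_le_mul _ hMle hMr.le (by positivity)
          apply mul_le_mul _ hq1 (by positivity) (by positivity)
          apply mul_le_mul_of_nonneg_right _ hK0.le
          calc (4:ℝ) = 2 ^ 2 := by norm_num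
            _ ≤ K ^ 2 := two_pow_le hK 2
      _ = K ^ (C + 3) / K ^ F * N := by
          rw [pow_add]
          ring
      _ ≤ 1 * N := by
          apply mul_le_mul_of_nonneg_right _ hNr.le
          rw [div_le_one hKF]
          exact pow_le_pow_right₀ hK1 (by omega)
      _ = N := one_mul _
  obtain ⟨n₀, hn₀, hblock⟩ := exists_block (fun n => ee (PP (D + 1) ξ n)) (fun n => norm_ee _) hK hN0
    hM1 hqM h
  -- compare with a linear phase
  have hcmp : ∀ m ∈ Finset.range M, ‖ee (PP (D + 1) ξ ((n₀ + m * q : ℕ) : ℝ))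
      - ee (PP (D + 1) ξ (n₀ : ℝ) + m * (q * ξ 0))‖ ≤ 1 / (4 * K) := by
    intro m hm
    have hmM : (m : ℝ) ≤ M := by exact_mod_cast (Finset.mem_range.1 hm).le
    have hmq : m * q ≤ N := by
      have h1 : (m : ℝ) * q ≤ N := by
        calc (m : ℝ) * q ≤ M * q := by
              apply mul_le_mul_of_nonneg_right hmM (by positivity)
          _ = 1 * q * M := by ring
          _ ≤ 4 * K * q * M := by
              apply mul_le_mul_of_nonneg_right _ hMr.le
              apply mul_le_mul_of_nonneg_right _ (by positivity)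
              linarith
          _ ≤ N := hqM
      exact_mod_cast h1
    have hu := fun e => pow_diff n₀ m q e N hn₀.le hmq
    choose u hu1 hu2 using hu
    have hexp : PP (D + 1) ξ ((n₀ + m * q : ℕ) : ℝ) = PP (D + 1) ξ (n₀ : ℝ) + m * (q * ξ 0)
        + (∑ e ∈ Finset.range D, ((m * u (e + 1) : ℕ) : ℝ) * (q * ξ (e + 1) - round (q * ξ (e + 1))))
        + ((∑ e ∈ Finset.range D, (m * u (e + 1) : ℕ) * round (q * ξ (e + 1)) : ℤ) : ℝ) := by
      have h1 : PP (D + 1) ξ ((n₀ + m * q : ℕ) : ℝ) = PP (D + 1) ξ (n₀ : ℝ)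
          + ∑ e ∈ Finset.range (D + 1), ((m * u e : ℕ) : ℝ) * (q * ξ e) := by
        rw [PP, PP, ← Finset.sum_add_distrib]
        refine Finset.sum_congr rfl fun e _ => ?_
        rw [hu1 e]
        push_cast
        ring
      have hu0 : (m : ℝ) * u 0 * q = m * q := by
        have := hu1 0
        push_cast at this
        linarith
      rw [h1, Finset.sum_range_succ' _ D]
      push_cast
      rw [add_assoc (PP (D + 1) ξ (n₀ : ℝ) + (m : ℝ) * ((q : ℝ) * ξ 0)), ← Finset.sum_add_distrib]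
      have h2 : ∀ e ∈ Finset.range D, (m : ℝ) * u (e + 1) * (q * ξ (e + 1) - round (q * ξ (e + 1)))
          + (m : ℝ) * u (e + 1) * round (q * ξ (e + 1)) = (m : ℝ) * u (e + 1) * (q * ξ (e + 1)) := by
        intro e _
        ring
      rw [Finset.sum_congr rfl h2]
      linear_combination ξ 0 * hu0
    rw [hexp, ee_add_int]
    refine (norm_ee_sub_ee_le _ _).trans ?_
    rw [add_sub_cancel_left]
    have h1 : |∑ e ∈ Finset.range D, ((m * u (e + 1) : ℕ) : ℝ) * (q * ξ (e + 1) - round (q * ξ (e + 1)))|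
        ≤ K ^ (3 * D + 5 + C) * (M / N) := by
      refine (Finset.abs_sum_le_sum_abs _ _).trans ?_
      have h2 : ∀ e ∈ Finset.range D, |((m * u (e + 1) : ℕ) : ℝ) * (q * ξ (e + 1) - round (q * ξ (e + 1)))|
          ≤ K ^ (2 * D + 2 + C) * (M / N) := by
        intro e he
        have he' : e < D := Finset.mem_range.1 he
        rw [abs_mul, Nat.abs_cast]
        have h3 : nd (q * ξ (e + 1)) ≤ K ^ C / (N : ℝ) ^ (e + 2) := hq2 (e + 1) (by omega) (by omega)
        have h4 : ((m * u (e + 1) : ℕ) : ℝ) ≤ M * (((e + 1 : ℕ) + 1) * (2 * N) ^ (e + 1)) := by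
          push_cast
          have := hu2 (e + 1)
          push_cast at this
          exact mul_le_mul hmM this (by positivity) hMr.le
        refine (mul_le_mul h4 h3 (nd_nonneg _) (by positivity)).trans ?_
        have h5 : (((e + 1 : ℕ) : ℝ) + 1) ≤ K ^ (D + 1) := by
          have := nat_le_pow hK (e + 2)
          push_cast at this ⊢
          have h6 : K ^ (e + 2) ≤ K ^ (D + 1) := pow_le_pow_right₀ hK1 (by omega)
          linarith
        have h6 : (2:ℝ) ^ (e + 1) ≤ K ^ (D + 1) :=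
          (two_pow_le hK _).trans (pow_le_pow_right₀ hK1 (by omega))
        have h7 : (M : ℝ) * ((((e + 1 : ℕ) : ℝ) + 1) * (2 * N) ^ (e + 1)) * (K ^ C / (N : ℝ) ^ (e + 2))
            = (((e + 1 : ℕ) : ℝ) + 1) * 2 ^ (e + 1) * K ^ C * (M / N) := by
          rw [mul_pow]
          field_simp
          ring
        rw [h7]
        apply mul_le_mul_of_nonneg_right _ (by positivity)
        calc (((e + 1 : ℕ) : ℝ) + 1) * 2 ^ (e + 1) * K ^ C ≤ K ^ (D + 1) * K ^ (D + 1) * K ^ C := by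
              apply mul_le_mul_of_nonneg_right _ (by positivity)
              exact mul_le_mul h5 h6 (by positivity) (by positivity)
          _ = K ^ (D + 1 + (D + 1) + C) := by rw [← pow_add, ← pow_add]
          _ ≤ _ := pow_le_pow_right₀ hK1 (by omega)
      refine (Finset.sum_le_sum h2).trans ?_
      rw [Finset.sum_const, Finset.card_range, nsmul_eq_mul, ← mul_assoc]
      apply mul_le_mul_of_nonneg_right _ (by positivity)
      refine (mul_le_mul_of_nonneg_right (nat_le_pow hK D) (by positivity)).trans ?_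
      rw [← pow_add]
      exact pow_le_pow_right₀ hK1 (by omega)
    have h2 : (M : ℝ) / N ≤ 1 / K ^ F := by
      rw [div_le_div_iff₀ hNr hKF]
      rw [le_div_iff₀ hKF] at hMle
      linarith
    have hpi : 2 * Real.pi ≤ K ^ 3 := by
      have h3 : (8:ℝ) ≤ K ^ 3 := by
        calc (8:ℝ) = 2 ^ 3 := by norm_num
          _ ≤ K ^ 3 := two_pow_le hK 3
      have := Real.pi_lt_four
      linarith
    calc 2 * Real.pi * |∑ e ∈ Finset.range D, ((m * u (e + 1) : ℕ) : ℝ) * (q * ξ (e + 1) - round (q * ξ (e + 1)))|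
        ≤ K ^ 3 * (K ^ (3 * D + 5 + C) * (1 / K ^ F)) := by
          apply mul_le_mul hpi _ (abs_nonneg _) (by positivity)
          exact h1.trans (mul_le_mul_of_nonneg_left h2 (by positivity))
      _ = K ^ (3 * D + 8 + C) / K ^ F := by
          rw [show 3 * D + 8 + C = 3 + (3 * D + 5 + C) by ring, pow_add K 3]
          ring
      _ ≤ 1 / (4 * K) := by
          rw [div_le_div_iff₀ hKF (by positivity), one_mul]
          calc K ^ (3 * D + 8 + C) * (4 * K) ≤ K ^ (3 * D + 8 + C) * K ^ 3 := by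
                apply mul_le_mul_of_nonneg_left _ (by positivity)
                have h3 : (4:ℝ) ≤ K ^ 2 := by
                  calc (4:ℝ) = 2 ^ 2 := by norm_num
                    _ ≤ K ^ 2 := two_pow_le hK 2
                calc 4 * K ≤ K ^ 2 * K := mul_le_mul_of_nonneg_right h3 hK0.le
                  _ = K ^ 3 := by ring
            _ = K ^ (3 * D + 8 + C + 3) := by rw [← pow_add]
            _ ≤ K ^ F := pow_le_pow_right₀ hK1 (by omega)
  have hlin : (M : ℝ) / (4 * K) ≤ ‖∑ m ∈ Finset.range M, ee (PP (D + 1) ξ (n₀ : ℝ) + m * (q * ξ 0))‖ := by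
    have h1 : ‖∑ m ∈ Finset.range M, ee (PP (D + 1) ξ ((n₀ + m * q : ℕ) : ℝ))
        - ∑ m ∈ Finset.range M, ee (PP (D + 1) ξ (n₀ : ℝ) + m * (q * ξ 0))‖ ≤ M * (1 / (4 * K)) := by
      rw [← Finset.sum_sub_distrib]
      refine (norm_sum_le _ _).trans ((Finset.sum_le_sum hcmp).trans ?_)
      rw [Finset.sum_const, Finset.card_range, nsmul_eq_mul]
    have h2 : (M : ℝ) / (2 * K) ≤ ‖∑ m ∈ Finset.range M, ee (PP (D + 1) ξ ((n₀ + m * q : ℕ) : ℝ))‖ := by
      rw [div_le_iff₀ (by positivity)]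
      linarith
    have h3 := norm_sub_norm_le (∑ m ∈ Finset.range M, ee (PP (D + 1) ξ ((n₀ + m * q : ℕ) : ℝ)))
      (∑ m ∈ Finset.range M, ee (PP (D + 1) ξ (n₀ : ℝ) + m * (q * ξ 0)))
    have h4 : (M : ℝ) / (4 * K) = M / (2 * K) - M * (1 / (4 * K)) := by
      field_simp
      ring
    rw [h4]
    linarith
  have hfin := linear_sum (q * ξ 0) (PP (D + 1) ξ (n₀ : ℝ)) M
  have hnd0 : nd (q * ξ 0) ≤ K ^ (F + 5) / (N : ℝ) ^ (0 + 1) := by
    have h0 := nd_nonneg (q * ξ 0)
    have h1 : 2 * nd (q * ξ 0) * (M / (4 * K)) ≤ 1 :=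
      (mul_le_mul_of_nonneg_left hlin (by positivity)).trans hfin
    have h2 : nd (q * ξ 0) * M ≤ 2 * K := by
      have h3 : 2 * nd (q * ξ 0) * (M / (4 * K)) = nd (q * ξ 0) * M / (2 * K) := by
        field_simp
        ring
      rw [h3, div_le_one (by positivity)] at h1
      exact h1
    rw [zero_add, pow_one, le_div_iff₀ hNr]
    have h3 : (N : ℝ) ≤ 2 * M * K ^ F := by
      rw [div_le_iff₀ hKF] at hMge
      exact hMge
    calc nd (q * ξ 0) * N ≤ nd (q * ξ 0) * (2 * M * K ^ F) := mul_le_mul_of_nonneg_left h3 h0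
      _ = 2 * K ^ F * (nd (q * ξ 0) * M) := by ring
      _ ≤ 2 * K ^ F * (2 * K) := mul_le_mul_of_nonneg_left h2 (by positivity)
      _ = K ^ F * (4 * K) := by ring
      _ ≤ K ^ F * K ^ 5 := by
          apply mul_le_mul_of_nonneg_left _ (by positivity)
          have h5 : (4:ℝ) ≤ K ^ 4 := by
            have : (16:ℝ) ≤ K ^ 4 := by
              calc (16:ℝ) = 2 ^ 4 := by norm_num
                _ ≤ K ^ 4 := two_pow_le hK 4
            linarith
          calc 4 * K ≤ K ^ 4 * K := mul_le_mul_of_nonneg_right h5 hK0.le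
            _ = K ^ 5 := by ring
      _ = K ^ (F + 5) := by rw [← pow_add]
  refine ⟨q, hq0, hq1.trans (pow_le_pow_right₀ hK1 (by omega)), fun e _ he => ?_⟩
  rcases Nat.eq_zero_or_pos e with rfl | he0
  · exact hnd0.trans (div_le_div_of_nonneg_right (pow_le_pow_right₀ hK1 (by omega)) (by positivity))
  · refine (hq2 e he0 he).trans ?_
    exact div_le_div_of_nonneg_right (pow_le_pow_right₀ hK1 (by omega)) (by positivity)

theorem main (D : ℕ) : ∃ C : ℕ, ∀ K : ℝ, 2 ≤ K → ∀ N : ℕ, 0 < N → ∀ ξ : ℕ → ℝ,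
    (N : ℝ) ≤ K * ‖∑ n ∈ Finset.range N, ee (PP D ξ n)‖ → Good K C N D 0 ξ := by
  induction D with
  | zero =>
    refine ⟨0, fun K hK N hN ξ _ => ⟨1, Nat.one_pos, by simp, fun e _ h2 => ?_⟩⟩
    omega
  | succ D ih =>
    obtain ⟨C0, hC0⟩ := ih
    obtain ⟨C2, hC2⟩ := step2 (C1 := 5 * C0 + 5 * D + 5) (D := D) D le_rfl
    obtain ⟨C3, hC3⟩ := step3 C2 D
    refine ⟨3 * (D + 1) + C3, fun K hK N hN0 ξ h => ?_⟩
    by_cases hN : (N : ℝ) ≤ K ^ 3
    · exact (Good.small hK hN0 hN _ ξ).mono hK (by omega)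
    · push Not at hN
      have h1 := step1 hC0 hK hN0 hN.le ξ h
      have h2 := hC2 K hK N hN0 ξ h1
      rw [show D + 1 - D = 1 by omega] at h2
      exact (hC3 K hK N hN0 ξ h2 h).mono hK (by omega)

end IW

open IW in
/-- **Inverse Weyl theorem**: if a normalised exponential sum with polynomial phase is at least `δ` then
all coefficients are close to rational numbers with one common small denominator. -/
theorem inverse_weyl (D : ℕ) : ∃ C : ℕ, ∀ δ : ℝ, 0 < δ → δ ≤ 1 / 2 → ∀ N : ℕ, 0 < N →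
    ∀ ξ : Fin D → ℝ, δ ≤ ‖em ξ N‖ → ∃ q : ℕ, 0 < q ∧ (q : ℝ) ≤ δ⁻¹ ^ C ∧
      ∀ e : Fin D, |(q : ℝ) * ξ e - round ((q : ℝ) * ξ e)| ≤ δ⁻¹ ^ C / (N : ℝ) ^ ((e : ℕ) + 1) := by
  obtain ⟨C, hC⟩ := IW.main D
  refine ⟨C, fun δ hδ0 hδ N hN ξ h => ?_⟩
  have hNr : (0:ℝ) < N := by exact_mod_cast hN
  have hK : (2:ℝ) ≤ δ⁻¹ := by
    rw [le_inv_comm₀ (by norm_num) hδ0]
    linarith
  set ζ : ℕ → ℝ := fun e => if he : e < D then ξ ⟨e, he⟩ else 0 with hζ
  have hph : ∀ x : ℝ, ph ξ x = PP D ζ x := by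
    intro x
    rw [ph, PP, ← Fin.sum_univ_eq_sum_range (fun e => ζ e * x ^ (e + 1)) D]
    refine Finset.sum_congr rfl fun e _ => ?_
    simp [hζ]
  have hsum : (N : ℝ) ≤ δ⁻¹ * ‖∑ n ∈ Finset.range N, ee (PP D ζ n)‖ := by
    rw [em, norm_mul, norm_inv, Complex.norm_natCast] at h
    simp only [hph] at h
    rw [le_inv_mul_iff₀ hδ0]
    have h2 := mul_le_mul_of_nonneg_left h hNr.le
    rw [← mul_assoc, mul_inv_cancel₀ hNr.ne', one_mul] at h2
    linarith
  obtain ⟨q, hq0, hq1, hq2⟩ := hC δ⁻¹ hK N hN ζ hsum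
  refine ⟨q, hq0, hq1, fun e => ?_⟩
  have := hq2 e (Nat.zero_le _) e.2
  have hζe : ζ e = ξ e := by simp [hζ]
  rw [hζe] at this
  exact this

end Pool.Agent.Lib.Pf720ae.Poly
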