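import Pool.Agent.Lib.Pf720ae.Poly.Fin

/-!
# Rademacher-Menshov for multipliers of bounded variation
-/

set_option autoImplicit false
set_option linter.unusedSectionVars false

open Finset ZMod

namespace Pool.Agent.Lib.Pf720ae.Poly

variable {D L : ℕ} [NeZero L]

lemma norm_telescope (g : ℕ → ℂ) (a K : ℕ) :
    ‖g (a + K) - g a‖ ≤ ∑ j ∈ range K, ‖g (a + j + 1) - g (a + j)‖ := by
  have h1 : g (a + K) - g a = ∑ j ∈ range K, (g (a + j + 1) - g (a + j)) := by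
    have h2 := Finset.sum_range_sub (fun j => g (a + j)) K
    simp only [add_zero, ← add_assoc] at h2
    exact h2.symm
  rw [h1]
  exact norm_sum_le _ _

lemma sum_norm_block_le (g : ℕ → ℂ) (K M : ℕ) :
    ∑ l ∈ range M, ‖g ((l + 1) * K) - g (l * K)‖ ≤ ∑ j ∈ range (M * K), ‖g (j + 1) - g j‖ := by
  induction M with
  | zero => simp
  | succ M ih =>
    rw [Finset.sum_range_succ, add_mul, one_mul, Finset.sum_range_add]
    refine add_le_add ih ?_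
    have h1 := norm_telescope g (M * K) K
    exact h1

lemma sum_sq_le_sq {ι : Type*} (s : Finset ι) (a : ι → ℝ) (ha : ∀ i ∈ s, 0 ≤ a i) {B : ℝ}
    (h : ∑ i ∈ s, a i ≤ B) : ∑ i ∈ s, a i ^ 2 ≤ B ^ 2 := by
  have h0 : 0 ≤ ∑ i ∈ s, a i := Finset.sum_nonneg ha
  calc ∑ i ∈ s, a i ^ 2 ≤ ∑ i ∈ s, a i * ∑ j ∈ s, a j := by
        refine Finset.sum_le_sum fun i hi => ?_
        rw [sq]
        exact mul_le_mul_of_nonneg_left (Finset.single_le_sum ha hi) (ha i hi)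
    _ = (∑ i ∈ s, a i) ^ 2 := by rw [← Finset.sum_mul, sq]
    _ ≤ B ^ 2 := pow_le_pow_left₀ h0 h 2

/-- variational bound for a measurable choice of scales -/
theorem rm_op (r : ℕ) (m : ℕ → (Fin D → ZMod L) → ℂ) {B : ℝ}
    (hB : ∀ a, ∑ j ∈ range (2 ^ r), ‖m (j + 1) a - m j a‖ ≤ B) (F : (Fin D → ZMod L) → ℂ)
    (j : (Fin D → ZMod L) → ℕ) (hj : ∀ x, j x < 2 ^ r) :
    ∑ x, ‖op (m (j x)) F x - op (m 0) F x‖ ^ 2 ≤ (r : ℝ) ^ 2 * B ^ 2 * nn F := by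
  have h1 : ∀ x, ‖op (m (j x)) F x - op (m 0) F x‖ ^ 2 ≤
      r * ∑ i ∈ range r, ∑ l ∈ range (2 ^ (r - i)),
        ‖op (fun a => m ((l + 1) * 2 ^ i) a - m (l * 2 ^ i) a) F x‖ ^ 2 := by
    intro x
    refine (rm_pointwise r (fun i => op (m i) F x) (j x) (hj x)).trans (le_of_eq ?_)
    congr 1
    refine Finset.sum_congr rfl fun i _ => Finset.sum_congr rfl fun l _ => ?_
    rw [op_sub]
  refine (Finset.sum_le_sum fun x _ => h1 x).trans ?_
  rw [← Finset.mul_sum, Finset.sum_comm]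
  have h2 : ∀ i ∈ range r, ∑ x, ∑ l ∈ range (2 ^ (r - i)),
      ‖op (fun a => m ((l + 1) * 2 ^ i) a - m (l * 2 ^ i) a) F x‖ ^ 2 ≤ B ^ 2 * nn F := by
    intro i hi
    rw [Finset.sum_comm]
    refine sum_nn_op_le (range (2 ^ (r - i)))
      (fun l => fun a => m ((l + 1) * 2 ^ i) a - m (l * 2 ^ i) a) (fun a => ?_) F
    refine sum_sq_le_sq _ _ (fun _ _ => norm_nonneg _) ?_
    refine (sum_norm_block_le (fun l => m l a) (2 ^ i) (2 ^ (r - i))).trans ?_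
    have h3 : 2 ^ (r - i) * 2 ^ i = 2 ^ r := by
      rw [← pow_add, Nat.sub_add_cancel (Finset.mem_range.1 hi).le]
    rw [h3]
    exact hB a
  refine (mul_le_mul_of_nonneg_left (Finset.sum_le_sum h2) (Nat.cast_nonneg r)).trans (le_of_eq ?_)
  rw [Finset.sum_const, Finset.card_range, nsmul_eq_mul]
  ring

/-- the same with the value at `0` included -/
theorem rm_op' (r : ℕ) (m : ℕ → (Fin D → ZMod L) → ℂ) {B G : ℝ}
    (hB : ∀ a, ∑ j ∈ range (2 ^ r), ‖m (j + 1) a - m j a‖ ≤ B) (hG : ∀ a, ‖m 0 a‖ ≤ G)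
    (F : (Fin D → ZMod L) → ℂ) (j : (Fin D → ZMod L) → ℕ) (hj : ∀ x, j x < 2 ^ r) :
    ∑ x, ‖op (m (j x)) F x‖ ^ 2 ≤ (2 * (r : ℝ) ^ 2 * B ^ 2 + 2 * G ^ 2) * nn F := by
  have h1 := rm_op r m hB F j hj
  have h2 : ∑ x, ‖op (m 0) F x‖ ^ 2 ≤ G ^ 2 * nn F := nn_op_le (m 0) hG F
  have h3 : ∀ x, ‖op (m (j x)) F x‖ ^ 2 ≤
      2 * ‖op (m (j x)) F x - op (m 0) F x‖ ^ 2 + 2 * ‖op (m 0) F x‖ ^ 2 := by
    intro x
    have h4 : ‖op (m (j x)) F x‖ ≤ ‖op (m (j x)) F x - op (m 0) F x‖ + ‖op (m 0) F x‖ := by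
      have h5 := norm_add_le (op (m (j x)) F x - op (m 0) F x) (op (m 0) F x)
      rwa [sub_add_cancel] at h5
    have h5 := norm_nonneg (op (m (j x)) F x)
    have h6 := norm_nonneg (op (m (j x)) F x - op (m 0) F x)
    have h7 := norm_nonneg (op (m 0) F x)
    nlinarith [sq_nonneg (‖op (m (j x)) F x - op (m 0) F x‖ - ‖op (m 0) F x‖)]
  refine (Finset.sum_le_sum fun x _ => h3 x).trans ?_
  rw [Finset.sum_add_distrib, ← Finset.mul_sum, ← Finset.mul_sum]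
  nlinarith

end Pool.Agent.Lib.Pf720ae.Poly
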