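import Pool.Agent.Lib.Pf720ae.Poly.StrongMax
import Pool.Agent.Lib.Pf720ae.Poly.Rm

/-!
# Maximal inequality for the rational points of a given height
-/

set_option autoImplicit false
set_option linter.unusedSectionVars false

open Finset ZMod
open scoped Nat

namespace Pool.Agent.Lib.Pf720ae.Poly

variable {D C : ℕ}

/-- size of the Gauss sums -/
noncomputable def gm (C s : ℕ) : ℝ := (1 / 2) ^ (s / (C + 1))

lemma gm_nonneg (C s : ℕ) : 0 ≤ gm C s := by unfold gm; positivity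

lemma gs_small (hIW : IW D C) {s q : ℕ} {a : Fin D → ℤ} (hq : 2 ^ s ≤ q) (hc : Cop q a) :
    ‖gs q a‖ ≤ gm C s := by
  unfold gm
  by_contra hcon
  push Not at hcon
  have hq0 : 0 < q := lt_of_lt_of_le (pow_pos two_pos s) hq
  rcases Nat.eq_zero_or_pos (s / (C + 1)) with h0 | hpos
  · rw [h0, pow_zero] at hcon
    exact absurd (norm_gs_le q a) (not_le.2 hcon)
  · set i := s / (C + 1) with hi
    have h1 : ((1 : ℝ) / 2) ^ i ≤ 1 / 2 := by
      calc ((1 : ℝ) / 2) ^ i ≤ (1 / 2) ^ 1 :=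
            pow_le_pow_of_le_one (by norm_num) (by norm_num) hpos
        _ = 1 / 2 := pow_one _
    have h2 := gs_decay hIW hq0 hc (by positivity) h1 hcon.le
    have h3 : i * (C + 1) ≤ s := Nat.div_mul_le_self s (C + 1)
    have h4 : (((1 : ℝ) / 2) ^ i)⁻¹ ^ C = 2 ^ (i * C) := by
      rw [← inv_pow, ← pow_mul]
      norm_num
    rw [h4] at h2
    have h5 : (2 : ℝ) ^ s ≤ q := by exact_mod_cast hq
    have h6 : i * C < s := by
      have : i * (C + 1) = i * C + i := by ring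
      omega
    have h7 : (2 : ℝ) ^ (i * C) < 2 ^ s := pow_lt_pow_right₀ one_lt_two h6
    linarith

open Classical in
/-- restricted Gauss multiplier -/
noncomputable def Es (s : ℕ) (ξ : Fin D → ℝ) : ℂ :=
  if h : ∃ p, Near s ξ p ∧ ∀ e, (((2 ^ (s + 1))! : ℕ) : ℝ) * |bet ξ p e| ≤ 1 / 2 then
    gs h.choose.1 h.choose.2 else 0

lemma Es_of_near {s : ℕ} {ξ : Fin D → ℝ} {p : ℕ × (Fin D → ℤ)} (h : Near s ξ p)
    (h' : ∀ e, (((2 ^ (s + 1))! : ℕ) : ℝ) * |bet ξ p e| ≤ 1 / 2) : Es s ξ = gs p.1 p.2 := by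
  have hex : ∃ p, Near s ξ p ∧ ∀ e, (((2 ^ (s + 1))! : ℕ) : ℝ) * |bet ξ p e| ≤ 1 / 2 := ⟨p, h, h'⟩
  unfold Es
  rw [dif_pos hex]
  exact (hex.choose_spec.1.unique h).1

lemma Es_of_near_not {s : ℕ} {ξ : Fin D → ℝ} {p : ℕ × (Fin D → ℤ)} (h : Near s ξ p)
    (h' : ¬ ∀ e, (((2 ^ (s + 1))! : ℕ) : ℝ) * |bet ξ p e| ≤ 1 / 2) : Es s ξ = 0 := by
  unfold Es
  rw [dif_neg]
  rintro ⟨p', hp', hp''⟩
  apply h'
  rw [(h.unique hp').2]
  exact hp''

lemma Es_of_not {s : ℕ} {ξ : Fin D → ℝ} (h : ¬ ∃ p, Near s ξ p) : Es s ξ = 0 := by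
  unfold Es
  rw [dif_neg]
  rintro ⟨p', hp', -⟩
  exact h ⟨p', hp'⟩

lemma norm_Es_le (hIW : IW D C) (s : ℕ) (ξ : Fin D → ℝ) : ‖Es s ξ‖ ≤ gm C s := by
  unfold Es
  split_ifs with h
  · exact gs_small hIW h.choose_spec.1.1 h.choose_spec.1.2.2.1
  · rw [norm_zero]; exact gm_nonneg C s

lemma norm_Lf_le' (hIW : IW D C) (j s : ℕ) (ξ : Fin D → ℝ) : ‖Lf j s ξ‖ ≤ gm C s := by
  by_cases h : ∃ p, Near s ξ p
  · obtain ⟨p, hp⟩ := h
    rw [Lf_of_near hp, norm_mul]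
    exact (mul_le_of_le_one_right (norm_nonneg _) (norm_vv_le _ _)).trans
      (gs_small hIW hp.1 hp.2.2.1)
  · rw [Lf_of_not h, norm_zero]; exact gm_nonneg C s

lemma Q_le (s : ℕ) : (2 ^ (s + 1))! ≤ 2 ^ ((s + 1) * 2 ^ (s + 1)) := by
  refine (Nat.factorial_le_pow _).trans (le_of_eq ?_)
  rw [pow_mul]

lemma kap_lt (s : ℕ) : (s + 1) * 2 ^ (s + 1) < 2 ^ (2 * s + 3) := by
  have h1 : s + 1 < 2 ^ (s + 1) := Nat.lt_two_pow_self
  calc (s + 1) * 2 ^ (s + 1) ≤ 2 ^ (s + 1) * 2 ^ (s + 1) := Nat.mul_le_mul_right _ h1.le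
    _ = 2 ^ (2 * s + 2) := by rw [← pow_add]; congr 1; ring
    _ < 2 ^ (2 * s + 3) := Nat.pow_lt_pow_right (by norm_num) (by omega)

/-- comparison at a large scale -/
lemma Lf_sub_Es (hIW : IW D C) {s j : ℕ} (hj : 2 ^ (2 * s + 3) ≤ j) {ξ : Fin D → ℝ}
    {p : ℕ × (Fin D → ℤ)} (hp : Near s ξ p) :
    ‖Lf j s ξ - Es s ξ * bb ((2 ^ (s + 1))!) j ξ‖ ≤
      gm C s * ((24 + 5 * (D + 1)) * phi ((C : ℝ) + 1)⁻¹ (sz (bet ξ p) ((2 ^ j : ℕ) : ℝ))) := by
  set Q := (2 ^ (s + 1))! with hQ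
  have hQ0 : 0 < Q := Nat.factorial_pos _
  have hQj : 2 * Q ≤ 2 ^ j := by
    have h1 := Q_le s
    have h2 := kap_lt s
    calc 2 * Q ≤ 2 * 2 ^ ((s + 1) * 2 ^ (s + 1)) := Nat.mul_le_mul_left 2 h1
      _ = 2 ^ ((s + 1) * 2 ^ (s + 1) + 1) := by rw [pow_succ]; ring
      _ ≤ 2 ^ j := Nat.pow_le_pow_right two_pos (by omega)
  have hQj' : Q ≤ 2 ^ j := by omega
  have hD : (0 : ℝ) ≤ D := Nat.cast_nonneg D
  have hg0 := gm_nonneg C s
  have hgs := gs_small hIW hp.1 hp.2.2.1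
  have hdvd : p.1 ∣ Q := by
    rw [hQ]
    exact Nat.dvd_factorial hp.pos hp.2.1.le
  rw [Lf_of_near hp]
  by_cases h : ∀ e, ((Q : ℕ) : ℝ) * |bet ξ p e| ≤ 1 / 2
  · rw [Es_of_near hp h, bb_eq_bet ξ hp.pos hdvd, ← mul_sub, norm_mul]
    refine mul_le_mul hgs (vv_bb hIW hQ0 hQj' h) (norm_nonneg _) hg0
  · rw [Es_of_near_not hp h, zero_mul, sub_zero, norm_mul]
    refine mul_le_mul hgs ?_ (norm_nonneg _) hg0
    push Not at h
    obtain ⟨e, he⟩ := h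
    set t := sz (bet ξ p) ((2 ^ j : ℕ) : ℝ) with ht
    have ht1 : 1 < t := by
      have h1 : |bet ξ p e| * ((2 ^ j : ℕ) : ℝ) ^ ((e : ℕ) + 1) ≤ t := by
        rw [ht]
        unfold sz
        exact Finset.single_le_sum (f := fun e : Fin D => |bet ξ p e| *
          ((2 ^ j : ℕ) : ℝ) ^ ((e : ℕ) + 1)) (fun _ _ => by positivity) (Finset.mem_univ e)
      have h2 : ((2 ^ j : ℕ) : ℝ) ≤ ((2 ^ j : ℕ) : ℝ) ^ ((e : ℕ) + 1) := by
        have h3 : (1 : ℝ) ≤ ((2 ^ j : ℕ) : ℝ) := by exact_mod_cast Nat.one_le_two_pow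
        calc ((2 ^ j : ℕ) : ℝ) = ((2 ^ j : ℕ) : ℝ) ^ 1 := (pow_one _).symm
          _ ≤ ((2 ^ j : ℕ) : ℝ) ^ ((e : ℕ) + 1) := pow_le_pow_right₀ h3 (by omega)
      have h4 : 2 * (Q : ℝ) ≤ ((2 ^ j : ℕ) : ℝ) := by exact_mod_cast hQj
      have h5 : 0 ≤ |bet ξ p e| := abs_nonneg _
      nlinarith
    have h1 := vv_rpow hIW (bet ξ p) (2 ^ j) (by linarith)
    unfold phi
    rw [if_neg (not_le.2 ht1)]
    refine h1.trans ?_
    rw [← ht]
    have h5 : 0 ≤ t ^ (-((C : ℝ) + 1)⁻¹) := Real.rpow_nonneg (by linarith) _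
    nlinarith

/-- maximal inequality for each height -/
theorem level (hIW : IW D C) : ∃ A : ℝ, 0 ≤ A ∧ ∀ (L : ℕ) [NeZero L] (s : ℕ)
    (F : (Fin D → ZMod L) → ℂ) (j : (Fin D → ZMod L) → ℕ),
    ∑ x, ‖op (fun a => Lf (j x) s (fq a)) F x‖ ^ 2 ≤
      A * ((s : ℝ) + 1) ^ 2 * gm C s ^ 2 * nn F := by
  obtain ⟨A₁, hA₁, hvar⟩ := vv_variation hIW
  have hc0 : 0 < ((C : ℝ) + 1)⁻¹ := by positivity
  have h2c : (2 : ℝ) ^ (-((C : ℝ) + 1)⁻¹) < 1 :=
    Real.rpow_lt_one_of_one_lt_of_neg one_lt_two (neg_lt_zero.2 hc0)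
  have hK2 : 0 < (1 - (2 : ℝ) ^ (-((C : ℝ) + 1)⁻¹))⁻¹ := inv_pos.2 (by linarith)
  set K₂ : ℝ := 2 + (1 - (2 : ℝ) ^ (-((C : ℝ) + 1)⁻¹))⁻¹ with hK₂
  set K₁ : ℝ := 24 + 5 * (D + 1) with hK₁
  have hK₁0 : 0 ≤ K₁ := by rw [hK₁]; positivity
  have hK₂0 : 0 ≤ K₂ := by rw [hK₂]; linarith
  refine ⟨18 * A₁ ^ 2 + 2 + (2 * (K₁ ^ 2 * K₂) + 2 * 4 ^ D), by positivity, ?_⟩
  intro L _ s F j
  have hnn := nn_nonneg F
  have hg0 := gm_nonneg C s
  set R : ℕ := 2 ^ (2 * s + 3) with hR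
  set j₁ : (Fin D → ZMod L) → ℕ := fun x => if j x < R then j x else 0 with hj₁
  set j₂ : (Fin D → ZMod L) → ℕ := fun x => if j x < R then R else j x with hj₂
  -- splitting
  have hsplit : ∀ x, ‖op (fun a => Lf (j x) s (fq a)) F x‖ ^ 2 ≤
      ‖op (fun a => Lf (j₁ x) s (fq a)) F x‖ ^ 2 + ‖op (fun a => Lf (j₂ x) s (fq a)) F x‖ ^ 2 := by
    intro x
    by_cases h : j x < R
    · simp only [hj₁, if_pos h]
      exact le_add_of_nonneg_right (sq_nonneg _)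
    · simp only [hj₂, if_neg h]
      exact le_add_of_nonneg_left (sq_nonneg _)
  -- small scales
  have hsmall : ∑ x, ‖op (fun a => Lf (j₁ x) s (fq a)) F x‖ ^ 2 ≤
      (18 * A₁ ^ 2 + 2) * ((s : ℝ) + 1) ^ 2 * gm C s ^ 2 * nn F := by
    have h1 := rm_op' (2 * s + 3) (fun j => fun a : Fin D → ZMod L => Lf j s (fq a))
      (B := gm C s * A₁) (G := gm C s) (fun a => ?_) (fun a => norm_Lf_le' hIW 0 s (fq a)) F j₁
      (fun x => ?_)
    · refine h1.trans ?_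
      push_cast
      have h2 : (2 * (2 * (s : ℝ) + 3) ^ 2 * (gm C s * A₁) ^ 2 + 2 * gm C s ^ 2) ≤
          (18 * A₁ ^ 2 + 2) * ((s : ℝ) + 1) ^ 2 * gm C s ^ 2 := by
        have hs : (0 : ℝ) ≤ s := Nat.cast_nonneg s
        have h3 : (2 * (s : ℝ) + 3) ^ 2 ≤ 9 * ((s : ℝ) + 1) ^ 2 := by nlinarith
        have h4 : 1 ≤ ((s : ℝ) + 1) ^ 2 := by nlinarith
        have h5 : 0 ≤ gm C s ^ 2 * A₁ ^ 2 := by positivity
        have h6 : 0 ≤ gm C s ^ 2 := by positivity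
        calc (2 * (2 * (s : ℝ) + 3) ^ 2 * (gm C s * A₁) ^ 2 + 2 * gm C s ^ 2) =
              2 * ((2 * (s : ℝ) + 3) ^ 2) * (gm C s ^ 2 * A₁ ^ 2) + 2 * gm C s ^ 2 * 1 := by ring
          _ ≤ 2 * (9 * ((s : ℝ) + 1) ^ 2) * (gm C s ^ 2 * A₁ ^ 2) +
              2 * gm C s ^ 2 * ((s : ℝ) + 1) ^ 2 := by
              refine add_le_add ?_ ?_
              · exact mul_le_mul_of_nonneg_right (by linarith) h5
              · exact mul_le_mul_of_nonneg_left h4 (by positivity)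
          _ = (18 * A₁ ^ 2 + 2) * ((s : ℝ) + 1) ^ 2 * gm C s ^ 2 := by ring
      exact mul_le_mul_of_nonneg_right h2 hnn
    · by_cases h : ∃ p, Near s (fq a) p
      · obtain ⟨p, hp⟩ := h
        have h2 : ∀ i, ‖Lf (i + 1) s (fq a) - Lf i s (fq a)‖ =
            ‖gs p.1 p.2‖ * ‖vv (bet (fq a) p) (2 ^ (0 + i + 1)) - vv (bet (fq a) p) (2 ^ (0 + i))‖ := by
          intro i
          rw [Lf_of_near hp, Lf_of_near hp, ← mul_sub, norm_mul, zero_add]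
        simp only [h2]
        rw [← Finset.mul_sum]
        exact mul_le_mul (gs_small hIW hp.1 hp.2.2.1) (hvar _ 0 _)
          (Finset.sum_nonneg fun _ _ => norm_nonneg _) hg0
      · have h2 : ∀ i, ‖Lf (i + 1) s (fq a) - Lf i s (fq a)‖ = 0 := by
          intro i
          rw [Lf_of_not h, Lf_of_not h, sub_zero, norm_zero]
        simp only [h2, Finset.sum_const_zero]
        positivity
    · simp only [hj₁]
      split_ifs with h
      · exact h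
      · positivity
  -- large scales
  set Q := (2 ^ (s + 1))! with hQ
  have hlarge : ∑ x, ‖op (fun a => Lf (j₂ x) s (fq a)) F x‖ ^ 2 ≤
      (2 * (K₁ ^ 2 * K₂) + 2 * 4 ^ D) * gm C s ^ 2 * nn F := by
    have h1 : ∀ x, ‖op (fun a => Lf (j₂ x) s (fq a)) F x‖ ^ 2 ≤
        2 * ‖op (fun a => Lf (j₂ x) s (fq a) - Es s (fq a) * bb Q (j₂ x) (fq a)) F x‖ ^ 2 +
        2 * ‖op (fun a => bb Q (j₂ x) (fq a)) (op (fun a => Es s (fq a)) F) x‖ ^ 2 := by
      intro x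
      have h2 : op (fun a => bb Q (j₂ x) (fq a)) (op (fun a => Es s (fq a)) F) x =
          op (fun a => Es s (fq a) * bb Q (j₂ x) (fq a)) F x := by
        rw [op_op]
        congr 1
        funext a
        ring
      rw [h2, op_sub]
      set u := op (fun a => Lf (j₂ x) s (fq a)) F x
      set v := op (fun a => Es s (fq a) * bb Q (j₂ x) (fq a)) F x
      have h4 : ‖u‖ ≤ ‖u - v‖ + ‖v‖ := by
        have h5 := norm_add_le (u - v) v
        rwa [sub_add_cancel] at h5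
      have h5 := norm_nonneg u
      have h6 := norm_nonneg (u - v)
      have h7 := norm_nonneg v
      nlinarith [sq_nonneg (‖u - v‖ - ‖v‖)]
    refine (Finset.sum_le_sum fun x _ => h1 x).trans ?_
    rw [Finset.sum_add_distrib, ← Finset.mul_sum, ← Finset.mul_sum]
    have hA : ∑ x, ‖op (fun a => Lf (j₂ x) s (fq a) - Es s (fq a) * bb Q (j₂ x) (fq a)) F x‖ ^ 2 ≤
        gm C s ^ 2 * (K₁ ^ 2 * K₂) * nn F := by
      set n : ℕ := ∑ x, (j₂ x - R + 1) with hn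
      have h3 : ∀ x, ∃ i ∈ range n, j₂ x = R + i := by
        intro x
        have hRj : R ≤ j₂ x := by
          simp only [hj₂]
          split_ifs with h
          · exact le_rfl
          · exact not_lt.1 h
        refine ⟨j₂ x - R, ?_, by omega⟩
        rw [Finset.mem_range]
        have h4 : j₂ x - R + 1 ≤ n :=
          Finset.single_le_sum (f := fun x => j₂ x - R + 1) (fun _ _ => Nat.zero_le _)
            (Finset.mem_univ x)
        omega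
      have h4 : ∀ x, ‖op (fun a => Lf (j₂ x) s (fq a) - Es s (fq a) * bb Q (j₂ x) (fq a)) F x‖ ^ 2 ≤
          ∑ i ∈ range n,
            ‖op (fun a => Lf (R + i) s (fq a) - Es s (fq a) * bb Q (R + i) (fq a)) F x‖ ^ 2 := by
        intro x
        obtain ⟨i, hi, hi'⟩ := h3 x
        rw [hi']
        exact Finset.single_le_sum (f := fun i => ‖op (fun a => Lf (R + i) s (fq a) -
          Es s (fq a) * bb Q (R + i) (fq a)) F x‖ ^ 2) (fun _ _ => sq_nonneg _) hi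
      refine (Finset.sum_le_sum fun x _ => h4 x).trans ?_
      rw [Finset.sum_comm]
      refine sum_nn_op_le (range n) (fun i => fun a : Fin D → ZMod L =>
        Lf (R + i) s (fq a) - Es s (fq a) * bb Q (R + i) (fq a)) (fun a => ?_) F
      by_cases h : ∃ p, Near s (fq a) p
      · obtain ⟨p, hp⟩ := h
        set t : ℕ → ℝ := fun i => sz (bet (fq a) p) ((2 ^ (R + i) : ℕ) : ℝ) with ht
        have ht0 : ∀ i, 0 ≤ t i := fun i => sz_nonneg _ (Nat.cast_nonneg _)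
        have h5 : ∀ i ∈ range n, ‖Lf (R + i) s (fq a) - Es s (fq a) * bb Q (R + i) (fq a)‖ ^ 2 ≤
            gm C s ^ 2 * K₁ ^ 2 * phi ((C : ℝ) + 1)⁻¹ (t i) := by
          intro i _
          have h6 := Lf_sub_Es hIW (s := s) (j := R + i) (Nat.le_add_right _ _) hp
          have h7 : 0 ≤ phi ((C : ℝ) + 1)⁻¹ (t i) := phi_nonneg (ht0 i)
          have h8 : phi ((C : ℝ) + 1)⁻¹ (t i) ≤ 1 := phi_le_one hc0
          refine (pow_le_pow_left₀ (norm_nonneg _) h6 2).trans ?_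
          have h9 : (gm C s * ((24 + 5 * ((D : ℝ) + 1)) * phi ((C : ℝ) + 1)⁻¹ (t i))) ^ 2 =
              gm C s ^ 2 * K₁ ^ 2 * (phi ((C : ℝ) + 1)⁻¹ (t i)) ^ 2 := by
            rw [hK₁]; ring
          refine (le_of_eq h9).trans (mul_le_mul_of_nonneg_left ?_ (by positivity))
          nlinarith
        refine (Finset.sum_le_sum h5).trans ?_
        rw [← Finset.mul_sum, mul_assoc (gm C s ^ 2)]
        refine mul_le_mul_of_nonneg_left ?_ (by positivity)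
        refine mul_le_mul_of_nonneg_left ?_ (by positivity)
        exact sum_phi hc0 ht0 (fun i => by
          have := sz_two (bet (fq a) p) (R + i)
          rwa [add_assoc] at this) n
      · have h5 : ∀ i ∈ range n,
            ‖Lf (R + i) s (fq a) - Es s (fq a) * bb Q (R + i) (fq a)‖ ^ 2 = 0 := by
          intro i _
          rw [Lf_of_not h, Es_of_not h, zero_mul, sub_zero, norm_zero]
          norm_num
        rw [Finset.sum_congr rfl h5, Finset.sum_const_zero]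
        positivity
    have hB : ∑ x, ‖op (fun a => bb Q (j₂ x) (fq a)) (op (fun a => Es s (fq a)) F) x‖ ^ 2 ≤
        4 ^ D * (gm C s ^ 2 * nn F) := by
      refine (box_max Q j₂ _).trans ?_
      exact mul_le_mul_of_nonneg_left (nn_op_le _ (fun a => norm_Es_le hIW s (fq a)) F)
        (by positivity)
    nlinarith
  refine (Finset.sum_le_sum fun x _ => hsplit x).trans ?_
  rw [Finset.sum_add_distrib]
  have h4 : 1 ≤ ((s : ℝ) + 1) ^ 2 := by
    have hs : (0 : ℝ) ≤ s := Nat.cast_nonneg s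
    nlinarith
  have h5 : (2 * (K₁ ^ 2 * K₂) + 2 * 4 ^ D) * gm C s ^ 2 * nn F ≤
      (2 * (K₁ ^ 2 * K₂) + 2 * 4 ^ D) * ((s : ℝ) + 1) ^ 2 * gm C s ^ 2 * nn F := by
    refine mul_le_mul_of_nonneg_right ?_ hnn
    refine mul_le_mul_of_nonneg_right ?_ (by positivity)
    exact le_mul_of_one_le_right (by positivity) h4
  calc _ ≤ (18 * A₁ ^ 2 + 2) * ((s : ℝ) + 1) ^ 2 * gm C s ^ 2 * nn F +
        (2 * (K₁ ^ 2 * K₂) + 2 * 4 ^ D) * ((s : ℝ) + 1) ^ 2 * gm C s ^ 2 * nn F :=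
        add_le_add hsmall (hlarge.trans h5)
    _ = (18 * A₁ ^ 2 + 2 + (2 * (K₁ ^ 2 * K₂) + 2 * 4 ^ D)) * ((s : ℝ) + 1) ^ 2 * gm C s ^ 2 *
        nn F := by ring

end Pool.Agent.Lib.Pf720ae.Poly
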