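import Pool.Agent.Lib.Pf720ae.Poly.Defs

/-!
# Major arcs
-/

set_option autoImplicit false
set_option linter.unusedSectionVars false

open Finset MeasureTheory

namespace Pool.Agent.Lib.Pf720ae.Poly

lemma ee_zero : ee 0 = 1 := by simp [ee]

lemma ee_add (x y : ℝ) : ee (x + y) = ee x * ee y := by
  unfold ee
  rw [← Complex.exp_add]
  congr 1
  push_cast
  ring

lemma norm_ee (x : ℝ) : ‖ee x‖ = 1 := by
  unfold ee
  have : (2 * (Real.pi : ℂ) * (x : ℂ) * Complex.I) = ((2 * Real.pi * x : ℝ) : ℂ) * Complex.I := by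
    push_cast; ring
  rw [this, Complex.norm_exp_ofReal_mul_I]

lemma ee_int (n : ℤ) : ee n = 1 := by
  unfold ee
  rw [Complex.exp_eq_one_iff]
  exact ⟨n, by push_cast; ring⟩

lemma ee_add_int (x : ℝ) (n : ℤ) : ee (x + n) = ee x := by
  rw [ee_add, ee_int, mul_one]

lemma ee_neg (x : ℝ) : ee (-x) = (starRingEnd ℂ) (ee x) := by
  unfold ee
  rw [← Complex.exp_conj]
  congr 1
  simp only [map_mul, Complex.conj_ofReal, Complex.conj_I, map_ofNat]
  push_cast
  ring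

lemma continuous_ee : Continuous ee := by
  unfold ee
  fun_prop

lemma norm_ee_sub_le (x y : ℝ) : ‖ee x - ee y‖ ≤ 2 * Real.pi * |x - y| := by
  have h1 : ee x - ee y = ee y * (ee (x - y) - 1) := by
    have : ee x = ee y * ee (x - y) := by rw [← ee_add]; congr 1; ring
    rw [this]; ring
  rw [h1, norm_mul, norm_ee, one_mul]
  have h2 : ee (x - y) = Complex.exp (((2 * Real.pi * (x - y) : ℝ) : ℂ) * Complex.I) := by
    unfold ee
    congr 1
    push_cast; ring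
  rw [h2]
  have h3 := Real.norm_exp_I_mul_ofReal_sub_one_le (x := 2 * Real.pi * (x - y))
  rw [mul_comm] at h3
  rw [Real.norm_eq_abs, abs_mul, abs_of_pos Real.two_pi_pos] at h3
  exact h3

variable {D : ℕ}

lemma continuous_ph (β : Fin D → ℝ) : Continuous (ph β) := by
  unfold ph
  fun_prop

lemma ph_add (ξ β : Fin D → ℝ) (x : ℝ) : ph (fun e => ξ e + β e) x = ph ξ x + ph β x := by
  unfold ph
  rw [← Finset.sum_add_distrib]
  exact Finset.sum_congr rfl fun e _ => add_mul _ _ _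

/-- total size of the frequency `β` at scale `N` -/
noncomputable def sz (β : Fin D → ℝ) (N : ℝ) : ℝ := ∑ e : Fin D, |β e| * N ^ ((e : ℕ) + 1)

lemma sz_nonneg (β : Fin D → ℝ) {N : ℝ} (hN : 0 ≤ N) : 0 ≤ sz β N :=
  Finset.sum_nonneg fun _ _ => mul_nonneg (abs_nonneg _) (pow_nonneg hN _)

lemma sz_mono (β : Fin D → ℝ) {N N' : ℝ} (hN : 0 ≤ N) (h : N ≤ N') : sz β N ≤ sz β N' :=
  Finset.sum_le_sum fun _ _ => mul_le_mul_of_nonneg_left (pow_le_pow_left₀ hN h _) (abs_nonneg _)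

lemma abs_ph_le (β : Fin D → ℝ) {x : ℝ} (hx : 0 ≤ x) : |ph β x| ≤ sz β x := by
  unfold ph sz
  refine (Finset.abs_sum_le_sum_abs _ _).trans (Finset.sum_le_sum fun e _ => ?_)
  rw [abs_mul, abs_of_nonneg (pow_nonneg hx _)]

/-- variation of the phase -/
lemma abs_ph_sub_le (β : Fin D → ℝ) {x y z w : ℝ} (hx : 0 ≤ z) (h1 : z ≤ x) (h2 : x ≤ w)
    (h3 : z ≤ y) (h4 : y ≤ w) : |ph β x - ph β y| ≤ sz β w - sz β z := by
  unfold ph sz
  rw [← Finset.sum_sub_distrib, ← Finset.sum_sub_distrib]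
  refine (Finset.abs_sum_le_sum_abs _ _).trans (Finset.sum_le_sum fun e _ => ?_)
  rw [← mul_sub, ← mul_sub, abs_mul]
  refine mul_le_mul_of_nonneg_left ?_ (abs_nonneg _)
  have a1 := pow_le_pow_left₀ hx h1 ((e : ℕ) + 1)
  have a2 := pow_le_pow_left₀ (hx.trans h1) h2 ((e : ℕ) + 1)
  have a3 := pow_le_pow_left₀ hx h3 ((e : ℕ) + 1)
  have a4 := pow_le_pow_left₀ (hx.trans h3) h4 ((e : ℕ) + 1)
  rw [abs_le]
  constructor <;> linarith

lemma vv_eq (β : Fin D → ℝ) {N : ℕ} (hN : 0 < N) :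
    vv β N = (N : ℂ)⁻¹ * ∫ y in (0 : ℝ)..N, ee (ph β y) := by
  unfold vv
  have h1 := intervalIntegral.integral_comp_mul_left (fun y => ee (ph β y)) (c := (N : ℝ))
    (a := 0) (b := 1) (Nat.cast_ne_zero.2 hN.ne')
  rw [h1]
  simp

/-- periodicity of the rational phase -/
lemma ee_rat_periodic (q : ℕ) (hq : 0 < q) (a : Fin D → ℤ) (m r : ℕ) :
    ee (ph (fun e => (a e : ℝ) / q) ((q * m + r : ℕ) : ℝ)) = ee (ph (fun e => (a e : ℝ) / q) r) := by
  have h1 : ∀ e : Fin D, ∃ k : ℤ, (a e : ℝ) / q * ((q * m + r : ℕ) : ℝ) ^ ((e : ℕ) + 1) =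
      (a e : ℝ) / q * (r : ℝ) ^ ((e : ℕ) + 1) + k := by
    intro e
    have h2 : (q : ℤ) ∣ ((q * m + r : ℕ) : ℤ) ^ ((e : ℕ) + 1) - (r : ℤ) ^ ((e : ℕ) + 1) := by
      refine dvd_trans ?_ (sub_dvd_pow_sub_pow _ _ _)
      push_cast
      exact ⟨m, by ring⟩
    obtain ⟨k, hk⟩ := h2
    refine ⟨a e * k, ?_⟩
    have h3 : ((q * m + r : ℕ) : ℝ) ^ ((e : ℕ) + 1) = (r : ℝ) ^ ((e : ℕ) + 1) + q * k := by
      have := congrArg (fun z : ℤ => (z : ℝ)) hk
      push_cast at this ⊢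
      linarith
    have hq' : (q : ℝ) ≠ 0 := Nat.cast_ne_zero.2 hq.ne'
    rw [h3]
    push_cast
    field_simp
  choose k hk using h1
  have h2 : ph (fun e => (a e : ℝ) / q) ((q * m + r : ℕ) : ℝ) =
      ph (fun e => (a e : ℝ) / q) r + ((∑ e, k e : ℤ) : ℝ) := by
    unfold ph
    push_cast
    rw [← Finset.sum_add_distrib]
    refine Finset.sum_congr rfl fun e _ => ?_
    have := hk e
    push_cast at this
    exact this
  rw [h2, ee_add_int]

lemma sum_block (q M : ℕ) (f : ℕ → ℂ) :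
    ∑ n ∈ range (q * M), f n = ∑ m ∈ range M, ∑ r ∈ range q, f (q * m + r) := by
  induction M with
  | zero => simp
  | succ M ih =>
    rw [Nat.mul_succ, Finset.sum_range_add, ih, Finset.sum_range_succ]

/-- major arc approximation -/
theorem major (q : ℕ) (hq : 0 < q) (a : Fin D → ℤ) (β : Fin D → ℝ) (N : ℕ) (hN : 0 < N) :
    ‖em (fun e => (a e : ℝ) / q + β e) N - gs q a * vv β N‖ ≤
      13 * ((q : ℝ) / N) * (1 + sz β N) := by
  set A : ℕ → ℂ := fun n => ee (ph (fun e => (a e : ℝ) / q) n) with hA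
  set g : ℝ → ℂ := fun y => ee (ph β y) with hg
  have hgc : Continuous g := continuous_ee.comp (continuous_ph β)
  have hgi : ∀ a b : ℝ, IntervalIntegrable g volume a b := fun a b => hgc.intervalIntegrable a b
  have hA1 : ∀ n, ‖A n‖ = 1 := fun n => norm_ee _
  have hg1 : ∀ y, ‖g y‖ = 1 := fun n => norm_ee _
  set M := N / q with hM
  have hqM : q * M ≤ N := Nat.mul_div_le N q
  have hqM' : N < q * M + q := by
    have := Nat.lt_mul_div_succ N hq
    rw [Nat.mul_succ] at this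
    exact this
  set G : ℂ := ∑ r ∈ range q, A r with hG
  have hgs : gs q a = (q : ℂ)⁻¹ * G := rfl
  have hq0 : (q : ℂ) ≠ 0 := Nat.cast_ne_zero.2 hq.ne'
  have hN0 : (N : ℂ) ≠ 0 := Nat.cast_ne_zero.2 hN.ne'
  have hGn : ‖G‖ ≤ q := by
    refine (norm_sum_le _ _).trans ?_
    simp [hA1]
  -- variation on the blocks
  set W : ℕ → ℝ := fun m => sz β ((q * m : ℕ) : ℝ) with hW
  have hvar : ∀ (m : ℕ) (x y : ℝ), ((q * m : ℕ) : ℝ) ≤ x → x ≤ ((q * (m + 1) : ℕ) : ℝ) →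
      ((q * m : ℕ) : ℝ) ≤ y → y ≤ ((q * (m + 1) : ℕ) : ℝ) →
      ‖g x - g y‖ ≤ 2 * Real.pi * (W (m + 1) - W m) := by
    intro m x y h1 h2 h3 h4
    refine (norm_ee_sub_le _ _).trans ?_
    exact mul_le_mul_of_nonneg_left
      (abs_ph_sub_le β (Nat.cast_nonneg _) h1 h2 h3 h4) Real.two_pi_pos.le
  have htel : ∑ m ∈ range M, (W (m + 1) - W m) ≤ sz β N := by
    rw [Finset.sum_range_sub]
    have h0 : 0 ≤ W 0 := sz_nonneg β (Nat.cast_nonneg _)
    have h1 : W M ≤ sz β N := sz_mono β (Nat.cast_nonneg _) (by exact_mod_cast hqM)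
    linarith
  -- the exponential sum
  have hsum1 : ∑ n ∈ range N, ee (ph (fun e => (a e : ℝ) / q + β e) n) =
      ∑ n ∈ range N, A n * g n := by
    refine Finset.sum_congr rfl fun n _ => ?_
    rw [ph_add, ee_add]
  have hsplit : ∑ n ∈ range N, A n * g n = ∑ n ∈ range (q * M), A n * g n +
      ∑ n ∈ range (N - q * M), A (q * M + n) * g ((q * M + n : ℕ) : ℝ) := by
    rw [← Finset.sum_range_add, Nat.add_sub_cancel' hqM]
  have htail : ‖∑ n ∈ range (N - q * M), A (q * M + n) * g ((q * M + n : ℕ) : ℝ)‖ ≤ q := by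
    refine (norm_sum_le _ _).trans ?_
    simp only [norm_mul, hA1, hg1, mul_one, Finset.sum_const, Finset.card_range, nsmul_eq_mul]
    have : N - q * M ≤ q := by omega
    exact_mod_cast this
  have hblock : ‖∑ n ∈ range (q * M), A n * g n - ∑ m ∈ range M, G * g ((q * m : ℕ) : ℝ)‖ ≤
      q * (2 * Real.pi * sz β N) := by
    rw [sum_block, ← Finset.sum_sub_distrib]
    refine (norm_sum_le _ _).trans ?_
    have h1 : ∀ m ∈ range M, ‖∑ r ∈ range q, A (q * m + r) * g ((q * m + r : ℕ) : ℝ) -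
        G * g ((q * m : ℕ) : ℝ)‖ ≤ q * (2 * Real.pi * (W (m + 1) - W m)) := by
      intro m _
      rw [hG, Finset.sum_mul, ← Finset.sum_sub_distrib]
      refine (norm_sum_le _ _).trans ?_
      have h2 : ∀ r ∈ range q, ‖A (q * m + r) * g ((q * m + r : ℕ) : ℝ) -
          A r * g ((q * m : ℕ) : ℝ)‖ ≤ 2 * Real.pi * (W (m + 1) - W m) := by
        intro r hr
        have hr' : r < q := Finset.mem_range.1 hr
        have h3 : A (q * m + r) = A r := ee_rat_periodic q hq a m r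
        rw [h3, ← mul_sub, norm_mul, hA1, one_mul]
        refine hvar m _ _ ?_ ?_ le_rfl ?_
        · exact_mod_cast Nat.le_add_right _ _
        · have : q * m + r ≤ q * (m + 1) := by rw [Nat.mul_succ]; omega
          exact_mod_cast this
        · have : q * m ≤ q * (m + 1) := Nat.mul_le_mul_left _ (Nat.le_succ m)
          exact_mod_cast this
      refine (Finset.sum_le_sum h2).trans ?_
      simp
    refine (Finset.sum_le_sum h1).trans ?_
    rw [← Finset.mul_sum, ← Finset.mul_sum]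
    exact mul_le_mul_of_nonneg_left (mul_le_mul_of_nonneg_left htel Real.two_pi_pos.le)
      (Nat.cast_nonneg _)
  -- the integral
  have hintM : ∫ y in (0 : ℝ)..((q * M : ℕ) : ℝ), g y =
      ∑ m ∈ range M, ∫ y in ((q * m : ℕ) : ℝ)..((q * (m + 1) : ℕ) : ℝ), g y := by
    have := intervalIntegral.sum_integral_adjacent_intervals (μ := volume) (f := g)
      (a := fun m : ℕ => ((q * m : ℕ) : ℝ)) (n := M) (fun k _ => hgi _ _)
    simpa using this.symm
  have hint2 : ‖(∫ y in (0 : ℝ)..((q * M : ℕ) : ℝ), g y) -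
      ∑ m ∈ range M, (q : ℂ) * g ((q * m : ℕ) : ℝ)‖ ≤ q * (2 * Real.pi * sz β N) := by
    rw [hintM, ← Finset.sum_sub_distrib]
    refine (norm_sum_le _ _).trans ?_
    have h1 : ∀ m ∈ range M, ‖(∫ y in ((q * m : ℕ) : ℝ)..((q * (m + 1) : ℕ) : ℝ), g y) -
        (q : ℂ) * g ((q * m : ℕ) : ℝ)‖ ≤ q * (2 * Real.pi * (W (m + 1) - W m)) := by
      intro m _
      have hle : ((q * m : ℕ) : ℝ) ≤ ((q * (m + 1) : ℕ) : ℝ) := by
        exact_mod_cast Nat.mul_le_mul_left q (Nat.le_succ m)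
      have hlen : ((q * (m + 1) : ℕ) : ℝ) - ((q * m : ℕ) : ℝ) = q := by
        push_cast; ring
      have h2 : (q : ℂ) * g ((q * m : ℕ) : ℝ) =
          ∫ _ in ((q * m : ℕ) : ℝ)..((q * (m + 1) : ℕ) : ℝ), g ((q * m : ℕ) : ℝ) := by
        rw [intervalIntegral.integral_const, hlen]
        simp
      rw [h2, ← intervalIntegral.integral_sub (hgi _ _) (by simp)]
      have h3 := intervalIntegral.norm_integral_le_of_norm_le_const
        (C := 2 * Real.pi * (W (m + 1) - W m)) (f := fun y => g y - g ((q * m : ℕ) : ℝ))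
        (a := ((q * m : ℕ) : ℝ)) (b := ((q * (m + 1) : ℕ) : ℝ)) (by
          intro y hy
          rw [Set.uIoc_of_le hle] at hy
          exact hvar m _ _ hy.1.le hy.2 le_rfl hle)
      rw [hlen, abs_of_nonneg (Nat.cast_nonneg _)] at h3
      rw [mul_comm (q : ℝ)]
      exact h3
    refine (Finset.sum_le_sum h1).trans ?_
    rw [← Finset.mul_sum, ← Finset.mul_sum]
    exact mul_le_mul_of_nonneg_left (mul_le_mul_of_nonneg_left htel Real.two_pi_pos.le)
      (Nat.cast_nonneg _)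
  have hint3 : ‖(∫ y in (0 : ℝ)..(N : ℝ), g y) - ∫ y in (0 : ℝ)..((q * M : ℕ) : ℝ), g y‖ ≤ q := by
    rw [intervalIntegral.integral_interval_sub_left (hgi _ _) (hgi _ _)]
    have h3 := intervalIntegral.norm_integral_le_of_norm_le_const
      (C := 1) (f := g) (a := ((q * M : ℕ) : ℝ)) (b := (N : ℝ)) (fun y _ => (hg1 y).le)
    refine h3.trans ?_
    rw [one_mul, abs_of_nonneg (by
      have : ((q * M : ℕ) : ℝ) ≤ N := by exact_mod_cast hqM
      linarith)]
    have : (N : ℝ) ≤ ((q * M : ℕ) : ℝ) + q := by exact_mod_cast hqM'.le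
    linarith
  -- assembly
  have hkey : (∑ n ∈ range N, A n * g n) - (q : ℂ)⁻¹ * G * ∫ y in (0 : ℝ)..(N : ℝ), g y =
      (∑ n ∈ range (N - q * M), A (q * M + n) * g ((q * M + n : ℕ) : ℝ)) +
      (∑ n ∈ range (q * M), A n * g n - ∑ m ∈ range M, G * g ((q * m : ℕ) : ℝ)) -
      (q : ℂ)⁻¹ * G * ((∫ y in (0 : ℝ)..((q * M : ℕ) : ℝ), g y) -
        ∑ m ∈ range M, (q : ℂ) * g ((q * m : ℕ) : ℝ)) -
      (q : ℂ)⁻¹ * G * ((∫ y in (0 : ℝ)..(N : ℝ), g y) -
        ∫ y in (0 : ℝ)..((q * M : ℕ) : ℝ), g y) := by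
    have h1 : (q : ℂ)⁻¹ * G * ∑ m ∈ range M, (q : ℂ) * g ((q * m : ℕ) : ℝ) =
        ∑ m ∈ range M, G * g ((q * m : ℕ) : ℝ) := by
      rw [Finset.mul_sum]
      refine Finset.sum_congr rfl fun m _ => ?_
      field_simp
    rw [hsplit, mul_sub, mul_sub, h1]
    ring
  have hGq : ‖(q : ℂ)⁻¹ * G‖ ≤ 1 := by
    rw [norm_mul, norm_inv, Complex.norm_natCast]
    have hqpos : (0 : ℝ) < q := Nat.cast_pos.2 hq
    rw [inv_mul_le_iff₀ hqpos, mul_one]
    exact hGn
  have hmain : ‖(∑ n ∈ range N, A n * g n) - (q : ℂ)⁻¹ * G * ∫ y in (0 : ℝ)..(N : ℝ), g y‖ ≤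
      q + q * (2 * Real.pi * sz β N) + q * (2 * Real.pi * sz β N) + q := by
    rw [hkey]
    have t1 : ∀ z : ℂ, ‖(q : ℂ)⁻¹ * G * z‖ ≤ ‖z‖ := fun z => by
      rw [norm_mul]
      exact mul_le_of_le_one_left (norm_nonneg _) hGq
    refine (norm_sub_le _ _).trans (add_le_add ((norm_sub_le _ _).trans (add_le_add
      ((norm_add_le _ _).trans (add_le_add htail hblock)) ((t1 _).trans hint2))) ((t1 _).trans hint3))
  have hfin : em (fun e => (a e : ℝ) / q + β e) N - gs q a * vv β N =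
      (N : ℂ)⁻¹ * ((∑ n ∈ range N, A n * g n) -
        (q : ℂ)⁻¹ * G * ∫ y in (0 : ℝ)..(N : ℝ), g y) := by
    rw [vv_eq β hN, hgs]
    unfold em
    rw [hsum1]
    ring
  rw [hfin, norm_mul, norm_inv, Complex.norm_natCast]
  have hNpos : (0 : ℝ) < N := Nat.cast_pos.2 hN
  have hsz := sz_nonneg β hNpos.le
  have hpi : Real.pi ≤ 3.25 := by linarith [Real.pi_lt_d2]
  have h5 : (q : ℝ) + q * (2 * Real.pi * sz β N) + q * (2 * Real.pi * sz β N) + q ≤
      13 * q * (1 + sz β N) := by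
    have hq1 : (0 : ℝ) ≤ q := Nat.cast_nonneg _
    have h6 : (q : ℝ) * (2 * Real.pi * sz β N) ≤ q * (2 * 3.25 * sz β N) := by gcongr
    nlinarith [mul_nonneg hq1 hsz]
  calc (N : ℝ)⁻¹ * ‖(∑ n ∈ range N, A n * g n) -
        (q : ℂ)⁻¹ * G * ∫ y in (0 : ℝ)..(N : ℝ), g y‖ ≤ (N : ℝ)⁻¹ * (13 * q * (1 + sz β N)) :=
        mul_le_mul_of_nonneg_left (hmain.trans h5) (inv_nonneg.2 hNpos.le)
    _ = 13 * ((q : ℝ) / N) * (1 + sz β N) := by
        field_simp

end Pool.Agent.Lib.Pf720ae.Poly
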