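import Pool.Agent.Lib.Pf720ae.Poly.Level
import Pool.Agent.Lib.Pf720ae.Poly.InvWeyl

/-!
# Maximal inequality along the curve on finite tori
-/

set_option autoImplicit false
set_option linter.unusedSectionVars false

open Finset ZMod

namespace Pool.Agent.Lib.Pf720ae.Poly

variable {D C : ℕ}

lemma summable_half (k K : ℕ) (hK : 0 < K) :
    Summable fun s : ℕ => ((s : ℝ) + 1) ^ k * (1 / 2) ^ (s / K) := by
  have hKR : (0 : ℝ) < K := Nat.cast_pos.2 hK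
  set ρ : ℝ := (1 / 2 : ℝ) ^ ((K : ℝ)⁻¹) with hρ
  have hρ0 : 0 < ρ := Real.rpow_pos_of_pos (by norm_num) _
  have hρ1 : ρ < 1 := Real.rpow_lt_one (by norm_num) (by norm_num) (inv_pos.2 hKR)
  have h1 : Summable fun s : ℕ => ((s : ℝ)) ^ k * ρ ^ s :=
    summable_pow_mul_geometric_of_norm_lt_one k (by rwa [Real.norm_of_nonneg hρ0.le])
  have h2 : Summable fun s : ℕ => (((s + 1 : ℕ) : ℝ)) ^ k * ρ ^ (s + 1) :=
    (summable_nat_add_iff 1).2 h1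
  refine Summable.of_nonneg_of_le (fun s => by positivity) (fun s => ?_) (h2.mul_left (2 * ρ⁻¹))
  have h3 : ((1 : ℝ) / 2) ^ (s / K) ≤ 2 * ρ ^ s := by
    have h4 : ρ ^ s = (1 / 2 : ℝ) ^ ((s : ℝ) / K) := by
      rw [hρ, ← Real.rpow_natCast, ← Real.rpow_mul (by norm_num)]
      congr 1
      field_simp
    have h5 : (2 : ℝ) * (1 / 2 : ℝ) ^ ((s : ℝ) / K) = (1 / 2 : ℝ) ^ ((s : ℝ) / K - 1) := by
      rw [Real.rpow_sub (by norm_num), Real.rpow_one]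
      ring
    rw [h4, h5, ← Real.rpow_natCast]
    refine Real.rpow_le_rpow_of_exponent_ge (by norm_num) (by norm_num) ?_
    have h6 : s < K * (s / K + 1) := Nat.lt_mul_div_succ s hK
    have h7 : (s : ℝ) < K * (((s / K : ℕ) : ℝ) + 1) := by exact_mod_cast h6
    have h8 : (s : ℝ) / K < ((s / K : ℕ) : ℝ) + 1 := by
      rw [div_lt_iff₀ hKR]
      linarith
    linarith
  calc ((s : ℝ) + 1) ^ k * (1 / 2) ^ (s / K) ≤ ((s : ℝ) + 1) ^ k * (2 * ρ ^ s) :=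
        mul_le_mul_of_nonneg_left h3 (by positivity)
    _ = 2 * ρ⁻¹ * (((s + 1 : ℕ) : ℝ) ^ k * ρ ^ (s + 1)) := by
        rw [pow_succ]
        push_cast
        field_simp

lemma half_sq_le (i : ℕ) : (((1 : ℝ) / 2) ^ i) ^ 2 ≤ (1 / 2) ^ i := by
  have h0 : (0 : ℝ) ≤ (1 / 2) ^ i := by positivity
  have h1 : ((1 : ℝ) / 2) ^ i ≤ 1 := pow_le_one₀ (by norm_num) (by norm_num)
  nlinarith

theorem maxfin_em (hIW : IW D C) : ∃ A : ℝ, 0 ≤ A ∧ ∀ (L : ℕ) [NeZero L]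
    (F : (Fin D → ZMod L) → ℂ) (j : (Fin D → ZMod L) → ℕ),
    ∑ x, ‖op (fun a => em (fq a) (2 ^ j x)) F x‖ ^ 2 ≤ A * nn F := by
  obtain ⟨A₁, hA₁, hlev⟩ := level hIW
  have hS1 := summable_half 4 (C + 1) (Nat.succ_pos C)
  have hS2 := summable_half 2 (16 * (C + 1)) (by positivity)
  have hS3 : Summable fun s : ℕ => (((s : ℝ) + 1)⁻¹) ^ 2 := by
    have h1 : Summable fun n : ℕ => 1 / ((n : ℝ)) ^ 2 :=
      Real.summable_one_div_nat_pow.2 one_lt_two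
    have h2 := (summable_nat_add_iff 1).2 h1
    refine h2.congr fun s => ?_
    push_cast
    rw [inv_pow, one_div]
  set Z₁ := ∑' s : ℕ, ((s : ℝ) + 1) ^ 4 * (1 / 2) ^ (s / (C + 1)) with hZ₁
  set Z₂ := ∑' s : ℕ, ((s : ℝ) + 1) ^ 2 * (1 / 2) ^ (s / (16 * (C + 1))) with hZ₂
  set Z₃ := ∑' s : ℕ, (((s : ℝ) + 1)⁻¹) ^ 2 with hZ₃
  set B : ℝ := 26 * (1 + D) + 30 with hB
  have hZ₁0 : 0 ≤ Z₁ := tsum_nonneg fun s => by positivity
  have hZ₂0 : 0 ≤ Z₂ := tsum_nonneg fun s => by positivity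
  have hZ₃0 : 0 ≤ Z₃ := tsum_nonneg fun s => by positivity
  refine ⟨2 * (B ^ 2 * Z₂) + 2 * (Z₃ * (A₁ * Z₁)), by positivity, ?_⟩
  intro L _ F j
  have hnn := nn_nonneg F
  set J : ℕ := ∑ x, (j x + 1) with hJ
  have hjJ : ∀ x, j x + 1 ≤ J := fun x =>
    Finset.single_le_sum (f := fun x => j x + 1) (fun _ _ => Nat.zero_le _) (Finset.mem_univ x)
  set er : ℕ → (Fin D → ZMod L) → ℂ := fun i a =>
    em (fq a) (2 ^ i) - ∑ s ∈ range (i / 8 + 1), Lf i s (fq a) with her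
  have hpt : ∀ x, ‖op (fun a => em (fq a) (2 ^ j x)) F x‖ ^ 2 ≤
      2 * ∑ i ∈ range J, ‖op (er i) F x‖ ^ 2 +
      2 * (Z₃ * ∑ s ∈ range J, ((s : ℝ) + 1) ^ 2 * ‖op (fun a => Lf (j x) s (fq a)) F x‖ ^ 2) := by
    intro x
    have h1 : op (fun a => em (fq a) (2 ^ j x)) F x = op (er (j x)) F x +
        ∑ s ∈ range (j x / 8 + 1), op (fun a => Lf (j x) s (fq a)) F x := by
      rw [← op_sum, ← op_add]
      congr 1
      funext a
      simp only [her]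
      ring
    have h2 : ‖∑ s ∈ range (j x / 8 + 1), op (fun a => Lf (j x) s (fq a)) F x‖ ≤
        ∑ s ∈ range J, ‖op (fun a => Lf (j x) s (fq a)) F x‖ := by
      refine (norm_sum_le _ _).trans ?_
      refine Finset.sum_le_sum_of_subset_of_nonneg ?_ fun _ _ _ => norm_nonneg _
      refine Finset.range_mono ?_
      have := hjJ x
      omega
    have h3 : (∑ s ∈ range J, ‖op (fun a => Lf (j x) s (fq a)) F x‖) ^ 2 ≤
        Z₃ * ∑ s ∈ range J, ((s : ℝ) + 1) ^ 2 * ‖op (fun a => Lf (j x) s (fq a)) F x‖ ^ 2 := by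
      have h4 := Finset.sum_mul_sq_le_sq_mul_sq (range J) (fun s : ℕ => ((s : ℝ) + 1)⁻¹)
        (fun s : ℕ => ((s : ℝ) + 1) * ‖op (fun a => Lf (j x) s (fq a)) F x‖)
      have h5 : ∀ s : ℕ, ((s : ℝ) + 1)⁻¹ * (((s : ℝ) + 1) * ‖op (fun a => Lf (j x) s (fq a)) F x‖) =
          ‖op (fun a => Lf (j x) s (fq a)) F x‖ := by
        intro s
        rw [inv_mul_cancel_left₀ (by positivity)]
      simp only [h5, mul_pow] at h4
      refine h4.trans (mul_le_mul_of_nonneg_right ?_ (Finset.sum_nonneg fun s _ => by positivity))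
      exact hS3.sum_le_tsum _ fun s _ => by positivity
    have h4 : ‖op (er (j x)) F x‖ ^ 2 ≤ ∑ i ∈ range J, ‖op (er i) F x‖ ^ 2 :=
      Finset.single_le_sum (f := fun i => ‖op (er i) F x‖ ^ 2) (fun _ _ => sq_nonneg _)
        (Finset.mem_range.2 (hjJ x))
    rw [h1]
    set u := op (er (j x)) F x
    set v := ∑ s ∈ range (j x / 8 + 1), op (fun a => Lf (j x) s (fq a)) F x
    set w := ∑ s ∈ range J, ‖op (fun a => Lf (j x) s (fq a)) F x‖
    have h5 := norm_add_le u v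
    have h6 := norm_nonneg (u + v)
    have h7 := norm_nonneg u
    have h8 := norm_nonneg v
    have h9 : ‖v‖ ^ 2 ≤ w ^ 2 := pow_le_pow_left₀ h8 h2 2
    nlinarith [sq_nonneg (‖u‖ - ‖v‖)]
  refine (Finset.sum_le_sum fun x _ => hpt x).trans ?_
  rw [Finset.sum_add_distrib, ← Finset.mul_sum, ← Finset.mul_sum, ← Finset.mul_sum]
  have herr : ∑ x, ∑ i ∈ range J, ‖op (er i) F x‖ ^ 2 ≤ B ^ 2 * Z₂ * nn F := by
    rw [Finset.sum_comm]
    refine sum_nn_op_le (range J) er (fun a => ?_) F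
    have h1 : ∀ i ∈ range J, ‖er i a‖ ^ 2 ≤
        B ^ 2 * (((i : ℝ) + 1) ^ 2 * (1 / 2) ^ (i / (16 * (C + 1)))) := by
      intro i _
      have h2 := approx hIW i (fq a)
      have h3 : ‖er i a‖ ^ 2 ≤ (B * (i + 1) * (1 / 2) ^ (i / (16 * (C + 1)))) ^ 2 :=
        pow_le_pow_left₀ (norm_nonneg _) h2 2
      refine h3.trans ?_
      have h4 := half_sq_le (i / (16 * (C + 1)))
      calc (B * ((i : ℝ) + 1) * (1 / 2) ^ (i / (16 * (C + 1)))) ^ 2 =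
            B ^ 2 * (((i : ℝ) + 1) ^ 2 * ((1 / 2) ^ (i / (16 * (C + 1)))) ^ 2) := by ring
        _ ≤ B ^ 2 * (((i : ℝ) + 1) ^ 2 * (1 / 2) ^ (i / (16 * (C + 1)))) := by
            refine mul_le_mul_of_nonneg_left ?_ (sq_nonneg _)
            exact mul_le_mul_of_nonneg_left h4 (sq_nonneg _)
    refine (Finset.sum_le_sum h1).trans ?_
    rw [← Finset.mul_sum]
    refine mul_le_mul_of_nonneg_left ?_ (sq_nonneg _)
    exact hS2.sum_le_tsum _ fun s _ => by positivity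
  have hmain : ∑ x, ∑ s ∈ range J, ((s : ℝ) + 1) ^ 2 * ‖op (fun a => Lf (j x) s (fq a)) F x‖ ^ 2 ≤
      A₁ * Z₁ * nn F := by
    rw [Finset.sum_comm]
    have h1 : ∀ s ∈ range J,
        ∑ x, ((s : ℝ) + 1) ^ 2 * ‖op (fun a => Lf (j x) s (fq a)) F x‖ ^ 2 ≤
        (A₁ * nn F) * (((s : ℝ) + 1) ^ 4 * (1 / 2) ^ (s / (C + 1))) := by
      intro s _
      rw [← Finset.mul_sum]
      have h2 := hlev L s F j
      have h3 := half_sq_le (s / (C + 1))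
      refine (mul_le_mul_of_nonneg_left h2 (sq_nonneg _)).trans ?_
      unfold gm
      calc ((s : ℝ) + 1) ^ 2 * (A₁ * ((s : ℝ) + 1) ^ 2 * ((1 / 2) ^ (s / (C + 1))) ^ 2 * nn F) =
            (A₁ * nn F) * (((s : ℝ) + 1) ^ 4 * ((1 / 2) ^ (s / (C + 1))) ^ 2) := by ring
        _ ≤ (A₁ * nn F) * (((s : ℝ) + 1) ^ 4 * (1 / 2) ^ (s / (C + 1))) := by
            refine mul_le_mul_of_nonneg_left ?_ (by positivity)
            exact mul_le_mul_of_nonneg_left h3 (by positivity)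
    refine (Finset.sum_le_sum h1).trans ?_
    rw [← Finset.mul_sum]
    have h2 : ∑ s ∈ range J, ((s : ℝ) + 1) ^ 4 * (1 / 2) ^ (s / (C + 1)) ≤ Z₁ :=
      hS1.sum_le_tsum _ fun s _ => by positivity
    calc A₁ * nn F * ∑ s ∈ range J, ((s : ℝ) + 1) ^ 4 * (1 / 2) ^ (s / (C + 1)) ≤
          A₁ * nn F * Z₁ := mul_le_mul_of_nonneg_left h2 (by positivity)
      _ = A₁ * Z₁ * nn F := by ring
  have h1 : Z₃ * ∑ x, ∑ s ∈ range J, ((s : ℝ) + 1) ^ 2 *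
      ‖op (fun a => Lf (j x) s (fq a)) F x‖ ^ 2 ≤ Z₃ * (A₁ * Z₁ * nn F) :=
    mul_le_mul_of_nonneg_left hmain hZ₃0
  linarith

/-- maximal inequality along the curve, dyadic scales -/
theorem maxfin (D : ℕ) : ∃ A : ℝ, 0 ≤ A ∧ ∀ (L : ℕ) [NeZero L]
    (F : (Fin D → ZMod L) → ℂ) (j : (Fin D → ZMod L) → ℕ),
    ∑ x, ‖((2 : ℂ) ^ j x)⁻¹ * ∑ n ∈ range (2 ^ j x), F (x + gam L n)‖ ^ 2 ≤
      A * ∑ x, ‖F x‖ ^ 2 := by
  obtain ⟨C, hC⟩ := inverse_weyl D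
  obtain ⟨A, hA, h⟩ := maxfin_em (D := D) (C := C) hC
  refine ⟨A, hA, fun L _ F j => ?_⟩
  refine (le_of_eq ?_).trans (h L F j)
  refine Finset.sum_congr rfl fun x _ => ?_
  rw [op_em]
  push_cast
  rfl

end Pool.Agent.Lib.Pf720ae.Poly
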