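import Pool.Agent.Lib.Pf720ae.Poly.Box
import Pool.Agent.Lib.Pf720ae.Max2

/-!
# Maximal inequality for the box averages on a finite torus
-/

set_option autoImplicit false
set_option linter.unusedSectionVars false

open Finset ZMod MeasureTheory
open scoped ENNReal NNReal

namespace Pool.Agent.Lib.Pf720ae.Poly

variable {D L : ℕ} [NeZero L]

lemma count_mp (v : Fin D → ZMod L) :
    letI : MeasurableSpace (Fin D → ZMod L) := ⊤
    MeasurePreserving (fun x : Fin D → ZMod L => x + v) Measure.count Measure.count := by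
  letI : MeasurableSpace (Fin D → ZMod L) := ⊤
  refine ⟨measurable_from_top, ?_⟩
  refine Measure.ext fun s hs => ?_
  rw [Measure.map_apply measurable_from_top hs]
  have h1 : (fun x : Fin D → ZMod L => x + v) ⁻¹' s = (fun x => x - v) '' s := by
    ext x
    constructor
    · intro hx
      exact ⟨x + v, hx, by simp⟩
    · rintro ⟨y, hy, rfl⟩
      simpa using hy
  rw [h1, Measure.count_injective_image (sub_left_injective (b := v))]

/-- strong maximal inequality on the finite torus -/
theorem box_max (Q : ℕ) (j : (Fin D → ZMod L) → ℕ) (G : (Fin D → ZMod L) → ℂ) :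
    ∑ x, ‖op (fun a => bb Q (j x) (fq a)) G x‖ ^ 2 ≤ 4 ^ D * nn G := by
  letI : MeasurableSpace (Fin D → ZMod L) := ⊤
  haveI : MeasurableSingletonClass (Fin D → ZMod L) := ⟨fun _ => trivial⟩
  set μ : Measure (Fin D → ZMod L) := Measure.count with hμ
  haveI : IsFiniteMeasure μ := by rw [hμ]; infer_instance
  set U : (Fin D → ℕ) → (Fin D → ZMod L) → (Fin D → ZMod L) :=
    fun m x => x + fun e => ((Q * m e : ℕ) : ZMod L) with hU
  have hU0 : ∀ x, U 0 x = x := by
    intro x
    funext e
    simp [hU]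
  have hUadd : ∀ m n x, U (m + n) x = U m (U n x) := by
    intro m n x
    funext e
    simp only [hU, Pi.add_apply]
    push_cast
    ring
  have hUmp : ∀ m, MeasurePreserving (U m) μ μ := fun m => count_mp _
  set g : (Fin D → ZMod L) → ℝ := fun x => ‖G x‖ with hg
  have h1 := lintegral_NS_sq hU0 hUadd hUmp (g := fun x => ENNReal.ofReal (g x))
    (measurable_from_top)
  rw [Fintype.card_fin] at h1
  have h2 : ∀ x, ENNReal.ofReal (‖op (fun a => bb Q (j x) (fq a)) G x‖ ^ 2) ≤
      (NS U (fun x => ENNReal.ofReal (g x)) x) ^ 2 := by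
    intro x
    rw [ENNReal.ofReal_pow (norm_nonneg _)]
    refine pow_le_pow_left' ?_ 2
    have h3 := ofReal_avg_le_NS (U := U) (M := fun e : Fin D => ml Q (j x) e)
      (fun e => ml_pos Q (j x) e) g (fun x => norm_nonneg _) x
    refine le_trans (ENNReal.ofReal_le_ofReal ?_) h3
    rw [op_bb, norm_mul, norm_inv, norm_prod]
    unfold avg box
    refine mul_le_mul (le_of_eq ?_) (norm_sum_le _ _) (norm_nonneg _)
      (inv_nonneg.2 (Finset.prod_nonneg fun _ _ => Nat.cast_nonneg _))
    congr 1
    exact Finset.prod_congr rfl fun e _ => Complex.norm_natCast _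
  have h4 : ∑ x, ENNReal.ofReal (‖op (fun a => bb Q (j x) (fq a)) G x‖ ^ 2) ≤
      4 ^ D * ∑ x, ENNReal.ofReal (‖G x‖ ^ 2) := by
    rw [lintegral_fintype, lintegral_fintype] at h1
    simp only [hμ, Measure.count_singleton, mul_one] at h1
    refine (Finset.sum_le_sum fun x _ => h2 x).trans (h1.trans (le_of_eq ?_))
    congr 1
    exact Finset.sum_congr rfl fun x _ => (ENNReal.ofReal_pow (norm_nonneg _) 2).symm
  rw [← ENNReal.ofReal_sum_of_nonneg fun x _ => sq_nonneg _,
    ← ENNReal.ofReal_sum_of_nonneg fun x _ => sq_nonneg _] at h4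
  have h5 : (4 : ℝ≥0∞) ^ D = ENNReal.ofReal ((4 : ℝ) ^ D) := by
    rw [ENNReal.ofReal_pow (by norm_num)]
    norm_num
  rw [h5, ← ENNReal.ofReal_mul (by positivity)] at h4
  exact (ENNReal.ofReal_le_ofReal_iff (mul_nonneg (by positivity) (nn_nonneg G))).1 h4

end Pool.Agent.Lib.Pf720ae.Poly
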